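import Pool.Agent.MP_6072c5_lc.U71.Tk

/-! Arithmetic in a model of `PA`: least elements, overspill, comprehension for coded sets. -/

set_option linter.unusedSectionVars false
set_option synthInstance.maxSize 100000

namespace Pool.Agent.MP_6072c5_lc.U71

universe u

variable {M : Type u} [CommSemiring M] [LinearOrder M] [IsPA M]

instance : CanonicallyOrderedAdd M where
  exists_add_of_le := fun {a b} h => by
    obtain ⟨z, hz⟩ := IsPA.sub a b h
    exact ⟨z, hz.symm⟩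
  le_self_add := fun a b => le_add_of_nonneg_right (IsPA.nonneg b)
  le_add_self := fun a b => le_add_of_nonneg_left (IsPA.nonneg b)

theorem succ_le_of_lt {x y : M} (h : x < y) : x + 1 ≤ y := by
  obtain ⟨z, rfl⟩ := IsPA.sub x y h.le
  have : 0 < z := pos_of_lt_add_right h
  exact add_le_add_right (IsPA.discrete z this) x

theorem lt_succ_iff {x y : M} : x < y + 1 ↔ x ≤ y :=
  ⟨fun h => le_of_not_gt fun h' => absurd (succ_le_of_lt h') (not_le.2 h),
    fun h => lt_of_le_of_lt h (lt_add_one y)⟩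

theorem le_mul_of_pos {a q : M} (ha : 0 < a) : q ≤ a * q :=
  le_mul_of_one_le_left (IsPA.nonneg q) (IsPA.discrete a ha)

theorem le_pr_left (x y : M) : x ≤ pr x y := le_add_self

theorem le_pr_right (x y : M) : y ≤ pr x y := by
  unfold pr
  rcases eq_or_lt_of_le (IsPA.nonneg (x + y)) with h | h
  · have : y = 0 := le_antisymm (h ▸ le_add_self) (IsPA.nonneg y)
    rw [this]; exact IsPA.nonneg _
  · exact le_add_self.trans ((le_mul_of_pos h).trans le_self_add)

theorem pr_lt {x y x' y' : M} (h : x + y < x' + y') : pr x y < pr x' y' := by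
  have h1 := succ_le_of_lt h
  have h2 : (x + y + 1) * (x + y + 1) ≤ (x' + y') * (x' + y') :=
    mul_le_mul h1 h1 (IsPA.nonneg _) (IsPA.nonneg _)
  have h3 : pr x y < (x + y + 1) * (x + y + 1) := by
    have : (x + y + 1) * (x + y + 1) = pr x y + (x + y + y) + 1 := by unfold pr; ring
    rw [this]; exact lt_succ_iff.2 le_self_add
  exact h3.trans_le (h2.trans le_self_add)

theorem pr_inj {x y x' y' : M} : pr x y = pr x' y' ↔ x = x' ∧ y = y' := by
  refine ⟨fun h => ?_, fun h => by rw [h.1, h.2]⟩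
  have hs : x + y = x' + y' := by
    rcases lt_trichotomy (x + y) (x' + y') with h1 | h1 | h1
    · exact absurd h (pr_lt h1).ne
    · exact h1
    · exact absurd h.symm (pr_lt h1).ne
  unfold pr at h
  rw [hs] at h
  have hx : x = x' := add_left_cancel h
  rw [hx] at hs
  exact ⟨hx, add_left_cancel hs⟩

theorem lt_of_mem {x k : M} (h : mem x k) : x < k := by
  obtain ⟨c, d, n, rfl, h1, -⟩ := h
  exact h1.trans_le ((le_pr_right d n).trans (le_pr_right _ _))

theorem dvd_iff_bdd {a c : M} : a ∣ c ↔ ∃ q, q < c + 1 ∧ c = a * q := by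
  refine ⟨?_, fun ⟨q, _, h⟩ => ⟨q, h⟩⟩
  rintro ⟨q, rfl⟩
  rcases eq_or_lt_of_le (IsPA.nonneg a) with h | h
  · exact ⟨0, lt_succ_iff.2 (IsPA.nonneg _), by simp [← h]⟩
  · exact ⟨q, lt_succ_iff.2 (le_mul_of_pos h), rfl⟩

theorem D0.dvd {s t : (ℕ → M) → M} (h1 : Tm s) (h2 : Tm t) : D0 fun v => s v ∣ t v :=
  (D0.bex' (Q := fun x v => t v = s v * x) (Tm.add h2 (Tm.const 1))
    (D0.eq (h2.subst (t := fun j w => w (j + 1)) fun _ => Tm.var _)
      (Tm.mul (h1.subst (t := fun j w => w (j + 1)) fun _ => Tm.var _) (Tm.var 0)))).congr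
    fun _ => dvd_iff_bdd.symm

theorem D0.bexle {t : (ℕ → M) → M} {Q : M → (ℕ → M) → Prop} (ht : Tm t)
    (h : D0 fun w => Q (w 0) fun i => w (i + 1)) : D0 fun v => ∃ x, x ≤ t v ∧ Q x v :=
  (D0.bex' (Tm.add ht (Tm.const 1)) h).congr fun v => by simp only [lt_succ_iff]

theorem D0.ballle {t : (ℕ → M) → M} {Q : M → (ℕ → M) → Prop} (ht : Tm t)
    (h : D0 fun w => Q (w 0) fun i => w (i + 1)) : D0 fun v => ∀ x, x ≤ t v → Q x v :=
  (D0.ball' (Tm.add ht (Tm.const 1)) h).congr fun v => by simp only [lt_succ_iff]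

theorem D0.mem0 : D0 fun v : ℕ → M => mem (v 0) (v 1) := by
  have : D0 fun v : ℕ → M => ∃ c, c ≤ v 1 ∧ ∃ d, d ≤ v 1 ∧ ∃ n, n ≤ v 1 ∧
      (v 1 = pr c (pr d n) ∧ v 0 < n ∧ 1 + (v 0 + 1) * d ∣ c) := by
    refine D0.bexle TmI.out (D0.bexle TmI.out (D0.bexle TmI.out ?_))
    exact D0.and (D0.eq TmI.out TmI.out) (D0.and (D0.lt TmI.out TmI.out) (D0.dvd TmI.out TmI.out))
  refine this.congr fun v => ⟨fun ⟨c, _, d, _, n, _, h⟩ => ⟨c, d, n, h⟩, ?_⟩
  rintro ⟨c, d, n, h, h'⟩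
  refine ⟨c, ?_, d, ?_, n, ?_, h, h'⟩ <;> rw [h]
  · exact le_pr_left _ _
  · exact (le_pr_left _ _).trans (le_pr_right _ _)
  · exact (le_pr_right _ _).trans (le_pr_right _ _)

theorem D0.mem {s t : (ℕ → M) → M} (h1 : Tm s) (h2 : Tm t) : D0 fun v => mem (s v) (t v) :=
  D0.mem0.subst (t := fun i => match i with | 0 => s | _ => t) fun i =>
    match i with | 0 => h1 | _ + 1 => h2

theorem Ar.mem {s t : (ℕ → M) → M} (h1 : Tm s) (h2 : Tm t) : Ar fun v => mem (s v) (t v) :=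
  (D0.mem h1 h2).ar

theorem D0.allmem {t : (ℕ → M) → M} {Q : M → (ℕ → M) → Prop} (ht : Tm t)
    (h : D0 fun w => Q (w 0) fun i => w (i + 1)) : D0 fun v => ∀ x, U71.mem x (t v) → Q x v :=
  (D0.ball' (Q := fun x v => U71.mem x (t v) → Q x v) ht
    (D0.imp (D0.mem (Tm.var 0) (ht.subst (t := fun j w => w (j + 1)) fun _ => Tm.var _)) h)).congr
    fun _ => ⟨fun H x hx => H x (lt_of_mem hx) hx, fun H x _ hx => H x hx⟩

theorem D0.exmem {t : (ℕ → M) → M} {Q : M → (ℕ → M) → Prop} (ht : Tm t)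
    (h : D0 fun w => Q (w 0) fun i => w (i + 1)) : D0 fun v => ∃ x, U71.mem x (t v) ∧ Q x v :=
  (D0.not (D0.allmem (Q := fun x v => ¬ Q x v) ht h.not)).congr fun v => by simp

/-- `∀ x, mem (pr s x) t → Q x` is bounded. -/
theorem D0.allrow {s t : (ℕ → M) → M} {Q : M → (ℕ → M) → Prop} (hs : Tm s) (ht : Tm t)
    (h : D0 fun w => Q (w 0) fun i => w (i + 1)) :
    D0 fun v => ∀ x, U71.mem (pr (s v) x) (t v) → Q x v :=
  (D0.ball' (Q := fun x v => U71.mem (pr (s v) x) (t v) → Q x v) ht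
    (D0.imp (D0.mem (Tm.pr (hs.subst (t := fun j w => w (j + 1)) fun _ => Tm.var _) (Tm.var 0))
      (ht.subst (t := fun j w => w (j + 1)) fun _ => Tm.var _)) h)).congr
    fun _ => ⟨fun H x hx => H x ((le_pr_right _ _).trans_lt (lt_of_mem hx)) hx,
      fun H x _ hx => H x hx⟩

theorem D0.exrow {s t : (ℕ → M) → M} {Q : M → (ℕ → M) → Prop} (hs : Tm s) (ht : Tm t)
    (h : D0 fun w => Q (w 0) fun i => w (i + 1)) :
    D0 fun v => ∃ x, U71.mem (pr (s v) x) (t v) ∧ Q x v :=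
  (D0.not (D0.allrow (Q := fun x v => ¬ Q x v) hs ht h.not)).congr fun v => by simp

/-- inclusion of coded sets -/
def sub (h k : M) : Prop := ∀ x, mem x h → mem x k

theorem D0.sub {s t : (ℕ → M) → M} (h1 : Tm s) (h2 : Tm t) : D0 fun v => sub (s v) (t v) :=
  D0.allmem (Q := fun x v => U71.mem x (t v)) h1
    (D0.mem (Tm.var 0) (h2.subst (t := fun j w => w (j + 1)) fun _ => Tm.var _))

theorem Ar.sub {s t : (ℕ → M) → M} (h1 : Tm s) (h2 : Tm t) : Ar fun v => sub (s v) (t v) :=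
  (D0.sub h1 h2).ar

theorem sub_refl (h : M) : sub h h := fun _ h => h
theorem sub.trans {a b c : M} (h1 : sub a b) (h2 : sub b c) : sub a c := fun x h => h2 x (h1 x h)
theorem Sub.mono {a b : M} {A : Set M} (h2 : Sub b A) (h1 : sub a b) : Sub a A :=
  fun x h => h2 x (h1 x h)

/-- instance search for arithmetical formulas -/
class ArI (P : (ℕ → M) → Prop) : Prop where out : Ar P
/-- instance search for bounded formulas -/
class D0I (P : (ℕ → M) → Prop) : Prop where out : D0 P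
/-- instance search for `Σ₁` formulas -/
class S1I (P : (ℕ → M) → Prop) : Prop where out : S1 P
/-- a definable unary relation -/
class Ar1 (W : M → Prop) : Prop where out : Ar fun v => W (v 0)
/-- a definable binary relation -/
class Ar2 (W : M → M → Prop) : Prop where out : Ar fun v => W (v 0) (v 1)
/-- a definable ternary relation -/
class Ar3 (W : M → M → M → Prop) : Prop where out : Ar fun v => W (v 0) (v 1) (v 2)
/-- a definable four-place relation -/
class Ar4 (W : M → M → M → M → Prop) : Prop where out : Ar fun v => W (v 0) (v 1) (v 2) (v 3)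
/-- a `Σ₁` binary relation -/
class S2 (W : M → M → Prop) : Prop where out : S1 fun v => W (v 0) (v 1)
/-- a `Σ₁` four-place relation -/
class S4 (W : M → M → M → M → Prop) : Prop where out : S1 fun v => W (v 0) (v 1) (v 2) (v 3)

section
variable {s t a b c d : (ℕ → M) → M} {P Q : (ℕ → M) → Prop} {R : M → (ℕ → M) → Prop}

instance (priority := 50) {W} [h : Ar1 W] [a1 : TmI a] : ArI fun v => W (a v) :=
  ⟨h.out.app1 a1.out⟩
instance (priority := 55) {W} [h : Ar2 W] [a1 : TmI a] [a2 : TmI b] :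
    ArI fun v => W (a v) (b v) := ⟨h.out.app2 a1.out a2.out⟩
instance (priority := 60) {W} [h : Ar3 W] [a1 : TmI a] [a2 : TmI b] [a3 : TmI c] :
    ArI fun v => W (a v) (b v) (c v) := ⟨h.out.app3 a1.out a2.out a3.out⟩
instance (priority := 65) {W} [h : Ar4 W] [a1 : TmI a] [a2 : TmI b] [a3 : TmI c] [a4 : TmI d] :
    ArI fun v => W (a v) (b v) (c v) (d v) := ⟨h.out.app4 a1.out a2.out a3.out a4.out⟩
instance (priority := 100) [h : ArI fun w => R (w 0) fun i => w (i + 1)] :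
    ArI fun v => ∀ x, R x v := ⟨Ar.all' h.out⟩
instance (priority := 200) [a : ArI P] [b : ArI Q] : ArI fun v => P v → Q v := ⟨a.out.imp b.out⟩
instance [h : ArI fun w => R (w 0) fun i => w (i + 1)] : ArI fun v => ∃ x, R x v := ⟨Ar.ex' h.out⟩
instance [a : ArI P] [b : ArI Q] : ArI fun v => P v ∧ Q v := ⟨a.out.and b.out⟩
instance [a : ArI P] [b : ArI Q] : ArI fun v => P v ∨ Q v := ⟨a.out.or b.out⟩
instance [a : ArI P] [b : ArI Q] : ArI fun v => P v ↔ Q v := ⟨a.out.iff b.out⟩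
instance [a : ArI P] : ArI fun v => ¬ P v := ⟨a.out.not⟩
instance [a : TmI s] [b : TmI t] : ArI fun v => s v = t v := ⟨Ar.eq a.out b.out⟩
instance [a : TmI s] [b : TmI t] : ArI fun v => s v ≠ t v := ⟨Ar.ne a.out b.out⟩
instance [a : TmI s] [b : TmI t] : ArI fun v => s v < t v := ⟨Ar.lt a.out b.out⟩
instance [a : TmI s] [b : TmI t] : ArI fun v => s v ≤ t v := ⟨Ar.le a.out b.out⟩
instance [a : TmI s] [b : TmI t] : ArI fun v => s v ∣ t v := ⟨Ar.dvd a.out b.out⟩
instance [a : TmI s] [b : TmI t] : ArI fun v => mem (s v) (t v) := ⟨Ar.mem a.out b.out⟩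
instance [a : TmI s] [b : TmI t] : ArI fun v => sub (s v) (t v) := ⟨Ar.sub a.out b.out⟩
instance [a : D0I P] [b : D0I Q] : D0I fun v => P v ∧ Q v := ⟨a.out.and b.out⟩
instance [a : D0I P] [b : D0I Q] : D0I fun v => P v ∨ Q v := ⟨a.out.or b.out⟩
instance [a : D0I P] [b : D0I Q] : D0I fun v => P v ↔ Q v := ⟨a.out.iff b.out⟩
instance [a : D0I P] : D0I fun v => ¬ P v := ⟨a.out.not⟩
instance [a : TmI s] [b : TmI t] : D0I fun v => s v = t v := ⟨D0.eq a.out b.out⟩
instance [a : TmI s] [b : TmI t] : D0I fun v => s v ≠ t v := ⟨D0.ne a.out b.out⟩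
instance [a : TmI s] [b : TmI t] : D0I fun v => s v < t v := ⟨D0.lt a.out b.out⟩
instance [a : TmI s] [b : TmI t] : D0I fun v => s v ≤ t v := ⟨D0.le a.out b.out⟩
instance [a : TmI s] [b : TmI t] : D0I fun v => s v ∣ t v := ⟨D0.dvd a.out b.out⟩
instance [a : TmI s] [b : TmI t] : D0I fun v => mem (s v) (t v) := ⟨D0.mem a.out b.out⟩
instance [a : TmI s] [b : TmI t] : D0I fun v => sub (s v) (t v) := ⟨D0.sub a.out b.out⟩
instance (priority := 200) [a : D0I P] [b : D0I Q] : D0I fun v => P v → Q v := ⟨a.out.imp b.out⟩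
instance [a : TmI t] [h : D0I fun w => R (w 0) fun i => w (i + 1)] :
    D0I fun v => ∀ x, mem x (t v) → R x v := ⟨D0.allmem a.out h.out⟩
instance [a : TmI t] [h : D0I fun w => R (w 0) fun i => w (i + 1)] :
    D0I fun v => ∃ x, mem x (t v) ∧ R x v := ⟨D0.exmem a.out h.out⟩
instance [b : TmI s] [a : TmI t] [h : D0I fun w => R (w 0) fun i => w (i + 1)] :
    D0I fun v => ∀ x, mem (pr (s v) x) (t v) → R x v := ⟨D0.allrow b.out a.out h.out⟩
instance [b : TmI s] [a : TmI t] [h : D0I fun w => R (w 0) fun i => w (i + 1)] :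
    D0I fun v => ∃ x, mem (pr (s v) x) (t v) ∧ R x v := ⟨D0.exrow b.out a.out h.out⟩
instance [a : TmI t] [h : D0I fun w => R (w 0) fun i => w (i + 1)] :
    D0I fun v => ∀ x, x < t v → R x v := ⟨D0.ball' a.out h.out⟩
instance [a : TmI t] [h : D0I fun w => R (w 0) fun i => w (i + 1)] :
    D0I fun v => ∃ x, x < t v ∧ R x v := ⟨D0.bex' a.out h.out⟩
instance [a : TmI t] [h : D0I fun w => R (w 0) fun i => w (i + 1)] :
    D0I fun v => ∀ x, x ≤ t v → R x v := ⟨D0.ballle a.out h.out⟩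
instance [a : TmI t] [h : D0I fun w => R (w 0) fun i => w (i + 1)] :
    D0I fun v => ∃ x, x ≤ t v ∧ R x v := ⟨D0.bexle a.out h.out⟩

instance (priority := 55) {W} [h : S2 W] [a1 : TmI a] [a2 : TmI b] :
    S1I fun v => W (a v) (b v) := ⟨h.out.app2 a1.out a2.out⟩
instance (priority := 65) {W} [h : S4 W] [a1 : TmI a] [a2 : TmI b] [a3 : TmI c] [a4 : TmI d] :
    S1I fun v => W (a v) (b v) (c v) (d v) := ⟨h.out.app4 a1.out a2.out a3.out a4.out⟩
instance (priority := 70) [h : D0I P] : S1I P := ⟨S1.d0 h.out⟩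
instance [h : S1I fun w => R (w 0) fun i => w (i + 1)] : S1I fun v => ∃ x, R x v := ⟨S1.ex' h.out⟩
instance [a : S1I P] [b : S1I Q] : S1I fun v => P v ∧ Q v := ⟨a.out.and b.out⟩
instance [a : S1I P] [b : S1I Q] : S1I fun v => P v ∨ Q v := ⟨a.out.or b.out⟩
end

theorem exists_least {P : M → Prop} (hP : Ar fun v => P (v 0)) {x : M} (hx : P x) :
    ∃ y, P y ∧ ∀ z, P z → y ≤ z := by
  have : Ar1 P := ⟨hP⟩
  by_contra hn
  push Not at hn
  have : ∀ y, ∀ z, z ≤ y → ¬ P z := by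
    refine IsPA.ind (fun y => ∀ z, z ≤ y → ¬ P z) (by exact ArI.out) ?_ ?_
    · intro z hz hPz
      obtain ⟨w, _, hw⟩ := hn z hPz
      exact absurd (hw.trans_le hz) (not_lt.2 (IsPA.nonneg w))
    · intro y ih z hz hPz
      obtain ⟨w, hw, hw'⟩ := hn z hPz
      exact ih w (lt_succ_iff.1 (hw'.trans_le hz)) hw
  exact this x x le_rfl hx

theorem std_of_le_nat : ∀ (n : ℕ) {x : M}, x ≤ n → x ∈ omega M
  | 0, x, h => ⟨0, by simpa using (le_antisymm (by simpa using h) (IsPA.nonneg x)).symm⟩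
  | n + 1, x, h => by
    rcases eq_or_lt_of_le h with h | h
    · exact ⟨n + 1, h.symm⟩
    · rw [Nat.cast_succ, lt_succ_iff] at h
      exact std_of_le_nat n h

theorem std_of_le {x y : M} (h : x ≤ y) (hy : y ∈ omega M) : x ∈ omega M := by
  obtain ⟨n, rfl⟩ := hy
  exact std_of_le_nat n h

theorem nat_std (n : ℕ) : (n : M) ∈ omega M := ⟨n, rfl⟩

theorem le_of_nonstd {x c : M} (hx : x ∈ omega M) (hc : c ∉ omega M) : x ≤ c :=
  le_of_not_gt fun h => hc (std_of_le h.le hx)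

theorem exists_nat_of_le {n : ℕ} {x : M} (h : x ≤ n) : ∃ m ≤ n, x = m := by
  obtain ⟨m, rfl⟩ := std_of_le_nat n h
  exact ⟨m, by exact_mod_cast h, rfl⟩

theorem exists_nat_of_lt {n : ℕ} {x : M} (h : x < n) : ∃ m < n, x = m := by
  obtain ⟨m, rfl⟩ := std_of_le_nat n h.le
  exact ⟨m, by exact_mod_cast h, rfl⟩

/-- Overspill. -/
theorem overspill (hM : ∃ a : M, a ∉ omega M) {P : M → Prop} (hP : Ar fun v => P (v 0))
    (h : ∀ n : ℕ, P n) : ∃ c, c ∉ omega M ∧ ∀ x, x ≤ c → P x := by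
  have : Ar1 P := ⟨hP⟩
  by_contra hn
  push Not at hn
  obtain ⟨a, ha⟩ := hM
  have : ∀ y, ∀ x, x ≤ y → P x := by
    refine IsPA.ind (fun y => ∀ x, x ≤ y → P x) (by exact ArI.out) ?_ ?_
    · intro x hx
      obtain ⟨n, rfl⟩ := std_of_le hx ⟨0, Nat.cast_zero⟩
      exact h n
    · intro y ih x hx
      by_cases hy : y ∈ omega M
      · obtain ⟨m, rfl⟩ := hy
        obtain ⟨n, rfl⟩ := std_of_le hx ⟨m + 1, Nat.cast_succ m⟩
        exact h n
      · obtain ⟨z, hz, hz'⟩ := hn y hy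
        exact absurd (ih z hz) hz'
  obtain ⟨z, hz, hz'⟩ := hn a ha
  exact hz' (this a z hz)

theorem dvd_of_mul_eq {a b c e : M} (ha : 0 < a) (h : a * b = a * e + c) : a ∣ c := by
  have : e ≤ b := le_of_mul_le_mul_left (h ▸ le_self_add) ha
  obtain ⟨z, rfl⟩ := IsPA.sub e b this
  rw [mul_add] at h
  exact ⟨z, (add_left_cancel h).symm⟩

theorem coprime_aux {x δ e d c : M} (hd : d = δ * e) (h0 : 0 < d) :
    (1 + (x + 1) * d ∣ c * (1 + (x + δ + 1) * d) → 1 + (x + 1) * d ∣ c) ∧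
    (1 + (x + δ + 1) * d ∣ c * (1 + (x + 1) * d) → 1 + (x + δ + 1) * d ∣ c) := by
  have pos : ∀ y : M, 0 < 1 + y := fun y => lt_of_lt_of_le zero_lt_one le_self_add
  have hs : ∀ y : M, ∃ s, (y + 1) * d = 1 + s := fun y => by
    obtain ⟨s, hs⟩ := IsPA.sub 1 ((y + 1) * d)
      (IsPA.discrete _ (mul_pos (lt_of_lt_of_le zero_lt_one le_add_self) h0))
    exact ⟨s, hs.symm⟩
  constructor
  · rintro ⟨q, hq⟩
    obtain ⟨s, hs⟩ := hs x
    refine dvd_of_mul_eq (b := q * (e * (x + 1) * (x + 1)))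
      (e := c * (e * (x + 1) * (x + 1)) + c * s) (pos _) ?_
    have h1 : (1 + (x + 1) * d) * (q * (e * (x + 1) * (x + 1))) =
        c * (1 + (x + δ + 1) * d) * (e * (x + 1) * (x + 1)) := by rw [hq]; ring
    have h2 : c * (1 + (x + δ + 1) * d) * (e * (x + 1) * (x + 1)) =
        (1 + (x + 1) * d) * (c * (e * (x + 1) * (x + 1))) + c * (((x + 1) * d) * ((x + 1) * d)) := by
      rw [hd]; ring
    rw [h1, h2, mul_add (1 + (x + 1) * d), hs]; ring
  · rintro ⟨q, hq⟩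
    obtain ⟨s, hs⟩ := hs (x + δ)
    refine dvd_of_mul_eq (b := c * (e * (x + δ + 1) * (x + δ + 1)))
      (e := q * (e * (x + δ + 1) * (x + δ + 1)) + c * s) (pos _) ?_
    have h2 : (1 + (x + δ + 1) * d) * (c * (e * (x + δ + 1) * (x + δ + 1))) =
        c * (1 + (x + 1) * d) * (e * (x + δ + 1) * (x + δ + 1)) +
          c * (((x + δ + 1) * d) * ((x + δ + 1) * d)) := by
      rw [hd]; ring
    rw [h2, hq, mul_add (1 + (x + δ + 1) * d), hs]; ring

theorem exists_common_multiple (n : M) : ∃ d : M, 0 < d ∧ ∀ j, 0 < j → j ≤ n → j ∣ d := by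
  refine IsPA.ind (fun n => ∃ d : M, 0 < d ∧ ∀ j, 0 < j → j ≤ n → j ∣ d) (by exact ArI.out) ?_ ?_ n
  · exact ⟨1, zero_lt_one, fun j h1 h2 => absurd h1 (not_lt.2 h2)⟩
  · rintro n ⟨d, h0, hd⟩
    refine ⟨d * (n + 1), mul_pos h0 (lt_of_lt_of_le zero_lt_one le_add_self), fun j h1 h2 => ?_⟩
    rcases eq_or_lt_of_le h2 with h | h
    · rw [h]; exact Dvd.intro_left d rfl
    · exact (hd j h1 (lt_succ_iff.1 h)).mul_right _

theorem coprime_mod {n d x y c : M} (h0 : 0 < d) (hd : ∀ j, 0 < j → j ≤ n → j ∣ d)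
    (hx : x < n) (hy : y < n) (hxy : x ≠ y) (h : 1 + (x + 1) * d ∣ c * (1 + (y + 1) * d)) :
    1 + (x + 1) * d ∣ c := by
  rcases lt_or_gt_of_ne hxy with h1 | h1
  · obtain ⟨δ, rfl⟩ := IsPA.sub x y h1.le
    obtain ⟨e, he⟩ := hd δ (pos_of_lt_add_right h1) (le_add_self.trans hy.le)
    exact (coprime_aux he h0).1 h
  · obtain ⟨δ, rfl⟩ := IsPA.sub y x h1.le
    obtain ⟨e, he⟩ := hd δ (pos_of_lt_add_right h1) (le_add_self.trans hx.le)
    exact (coprime_aux he h0).2 h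

/-- Comprehension: every bounded definable set is coded. -/
theorem compr {P : M → Prop} (hP : Ar fun v => P (v 0)) (n : M) :
    ∃ k, ∀ x, mem x k ↔ x < n ∧ P x := by
  have : Ar1 P := ⟨hP⟩
  obtain ⟨d, h0, hd⟩ := exists_common_multiple n
  have key : ∀ t, ∃ c, ∀ x, x < n → (1 + (x + 1) * d ∣ c ↔ x < t ∧ P x) := by
    refine IsPA.ind (fun t => ∃ c, ∀ x, x < n → (1 + (x + 1) * d ∣ c ↔ x < t ∧ P x)) (by exact ArI.out) ?_ ?_
    · refine ⟨1, fun x _ => ⟨?_, fun h => absurd h.1 (not_lt.2 (IsPA.nonneg x))⟩⟩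
      rintro ⟨q, hq⟩
      exfalso
      have h1 : 1 < 1 + (x + 1) * d :=
        lt_add_of_pos_right 1 (mul_pos (lt_of_lt_of_le zero_lt_one le_add_self) h0)
      rcases eq_or_lt_of_le (IsPA.nonneg q) with h | h
      · rw [← h, mul_zero] at hq; exact one_ne_zero hq
      · have := le_mul_of_pos (q := 1 + (x + 1) * d) h
        rw [mul_comm q, ← hq] at this
        exact absurd h1 (not_lt.2 this)
    · rintro t ⟨c, hc⟩
      by_cases ht : t < n ∧ P t
      · refine ⟨c * (1 + (t + 1) * d), fun x hx => ?_⟩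
        by_cases hxt : x = t
        · subst hxt
          exact ⟨fun _ => ⟨lt_add_one x, ht.2⟩, fun _ => Dvd.intro_left c rfl⟩
        · constructor
          · intro h
            have := (hc x hx).1 (coprime_mod h0 hd hx ht.1 hxt h)
            exact ⟨this.1.trans (lt_add_one t), this.2⟩
          · intro h
            exact ((hc x hx).2 ⟨lt_of_le_of_ne (lt_succ_iff.1 h.1) hxt, h.2⟩).mul_right _
      · refine ⟨c, fun x hx => (hc x hx).trans ⟨fun h => ⟨h.1.trans (lt_add_one t), h.2⟩,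
          fun h => ⟨lt_of_le_of_ne (lt_succ_iff.1 h.1) ?_, h.2⟩⟩⟩
        rintro rfl
        exact ht ⟨hx, h.2⟩
  obtain ⟨c, hc⟩ := key n
  refine ⟨pr c (pr d n), fun x => ⟨?_, fun h => ⟨c, d, n, rfl, h.1, (hc x h.1).2 h⟩⟩⟩
  rintro ⟨c', d', n', he, h1, h2⟩
  obtain ⟨rfl, he'⟩ := pr_inj.1 he
  obtain ⟨rfl, rfl⟩ := pr_inj.1 he'
  exact (hc x h1).1 h2

theorem exists_empty : ∃ k : M, ∀ x, ¬ mem x k := by
  obtain ⟨k, hk⟩ := compr (P := fun x : M => x = x) (by exact ArI.out) 0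
  exact ⟨k, fun x h => absurd ((hk x).1 h).1 (not_lt.2 (IsPA.nonneg x))⟩

theorem exists_single (a : M) : ∃ k : M, ∀ x, mem x k ↔ x = a := by
  obtain ⟨k, hk⟩ := compr (P := fun x : M => x = a) (by exact ArI.out) (a + 1)
  exact ⟨k, fun x => (hk x).trans ⟨fun h => h.2, fun h => ⟨h ▸ lt_add_one x, h⟩⟩⟩

theorem exists_union (a b : M) : ∃ k : M, ∀ x, mem x k ↔ mem x a ∨ mem x b := by
  obtain ⟨k, hk⟩ := compr (P := fun x : M => mem x a ∨ mem x b) (by exact ArI.out) (a + b)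
  refine ⟨k, fun x => (hk x).trans ⟨fun h => h.2, fun h => ⟨?_, h⟩⟩⟩
  rcases h with h | h
  · exact (lt_of_mem h).trans_le le_self_add
  · exact (lt_of_mem h).trans_le le_add_self

theorem exists_code_of_finite {S : Set M} (hS : S.Finite) : ∃ k : M, ∀ x, mem x k ↔ x ∈ S := by
  induction S, hS using Set.Finite.induction_on with
  | empty => obtain ⟨k, hk⟩ := exists_empty (M := M); exact ⟨k, fun x => by simp [hk x]⟩
  | @insert a S _ _ ih =>
    obtain ⟨k, hk⟩ := ih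
    obtain ⟨s, hs⟩ := exists_single a
    obtain ⟨u, hu⟩ := exists_union s k
    exact ⟨u, fun x => by simp [hu, hs, hk]⟩

end Pool.Agent.MP_6072c5_lc.U71
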