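import Pool.Agent.MP_6072c5_lc.U71.Ops

/-! The Baire argument: a message mode in which everything can be read. -/

set_option linter.unusedSectionVars false
set_option synthInstance.maxSize 100000

namespace Pool.Agent.MP_6072c5_lc.U71

open Cardinal

universe u v

variable {M : Type u} [CommSemiring M] [LinearOrder M] [IsPA M]
variable {F : Set M} {b : Pre M} {C Ψ : Rel M} {j : M} {i : Bool}

/-- one step of the construction: below `modeOn p j t` the pair `l` can be made unreadable -/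
structure BStep (F : Set M) (C Ψ : Rel M) (j : M) (i : Bool) (a₀ : M) (k : ℕ) (p : Pre M) (t : M)
    (q : Pre M) (l : Lit M) (z s : M) (p' : Pre M) : Prop where
  hq : Ext F q (modeOn p j t)
  hl : l ∈ q.T
  un : ∀ r, Ext F r q → ∀ k₁ k₀, En r.T C k₁ k₀ → ¬ Rd (modeAt p j t) Ψ i (lit l) k₁ k₀
  wz : Wm (p.S j) z
  pz : prt (!i) z
  sz : ∀ y, say t z y ↔ y = lit l
  uc : IsCond F (unmode q j s)
  ext : Ext F p' (unmode q j s)
  ext' : Ext F p' p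
  lz : Lab (p'.S j) z ((0 : ℕ) : M) a₀
  rc : ∀ x, Wm (p.S j) x → (∃ u, Lab (p'.S j) x (k : M) u) ∨ ∀ y, say t x y ↔ y = lit l

theorem exists_bstep (hS : SatM M) (a₀ : M) (k : ℕ) {p : Pre M} (hp : IsCond F p) (hj : j ∈ p.Z)
    (hn : ∀ t, ¬ RdDense F C p j t i Ψ) :
    ∃ t q l z s p', BStep F C Ψ j i a₀ k p t q l z s p' := by
  obtain ⟨t, ht⟩ : ∃ t, Fresh (p.S j) t := ⟨_, fresh_succ _⟩
  have h := hn t
  simp only [RdDense, not_forall, not_exists, not_and] at h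
  obtain ⟨q, hq, l, hl, un⟩ := h
  obtain ⟨a, s, s1, -, hu, hu'⟩ := exists_unmode hS hp hj hq k (W := fun x => x = x)
    (by exact ArI.out) fun _ _ _ _ _ _ => rfl
  have hf : Free (unmode q j s) j := fun m hm => hm.2
  obtain ⟨Y, hY⟩ := exists_single (lit l)
  have g1 := s1.good_fun (hp.good j)
  have f1 := s1.fresh_fun ht
  obtain ⟨z, z1, z2, z3⟩ := rich g1 f1 (!i) Y
  obtain ⟨g, hg⟩ := exists_single (pr z a₀)
  obtain ⟨s', s2⟩ := exists_snoc s ((0 : ℕ) : M) (pr 0 g)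
  obtain ⟨s'', s3⟩ := exists_snoc s' (k : M) (pr 1 (pr (pr t Y) a₀))
  have hs : (unmode q j s).S j = s := setS_self q j s
  have h3 := setS_ext hu hf (hs.symm ▸ s2.ee.trans s3.ee)
    (s3.good_row (s2.good_fun g1) (s2.fresh_fun f1))
  have zs : ∀ y, say t z y ↔ y = lit l := fun y => (z3 y).trans (hY y)
  refine ⟨t, q, l, z, s, _, hq, hl, un, z1.anti s1.ee, z2, zs, hu, h3, h3.trans hu', ?_,
    fun x hx => ?_⟩
  · rw [setS_self]
    refine (s2.lab z1 (catch_fun.2 ⟨(hg _).2 rfl, fun u' h h' => ?_⟩)).ee s3.ee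
    exact h.ne (pr_inj.1 ((hg _).1 h')).2
  · rw [setS_self]
    rcases s1.cases hx with ⟨h1, -⟩ | ⟨u, -, h1⟩
    · rcases s2.cases h1 with ⟨h2, -⟩ | ⟨u, h2, -⟩
      · rcases s3.cases h2 with ⟨-, h4⟩ | ⟨u, -, h4⟩
        · have := h4 a₀
          simp only [catch_row, true_and, not_not] at this
          exact Or.inr fun y => (this y).trans (hY y)
        · exact Or.inl ⟨u, h4⟩
      · obtain rfl := (pr_inj.1 ((hg _).1 (catch_fun.1 h2).1)).1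
        exact Or.inr zs
    · exact Or.inl ⟨u, h1.ee (s2.ee.trans s3.ee)⟩

/-- the last part of the argument: a finite closed part of `r` is added to `q` -/
theorem BStep.read (hS : SatM M) {a₀ t z s : M} {k : ℕ} {p q p' r : Pre M} {l : Lit M}
    (h : BStep F C Ψ j i a₀ k p t q l z s p') (hr : Ext F r p') {Δ : Set (Lit M)} (hf : Δ.Finite)
    (hΔ : Δ ⊆ r.T) (hc : Closed r.Md Δ)
    (hL : ∀ G ∈ Facts Δ j, FitsW (fun x => Wm (p.S j) x ∧ ∀ y, say t x y ↔ y = lit l) j (p.S j) G) :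
    ∃ r', Ext F r' q ∧ Δ ⊆ r'.T := by
  have he := hr.trans h.ext
  have hq := h.hq.cond
  have hm0 : modeAt p j t ∈ q.Md := h.hq.nm.Md (Or.inl rfl)
  have e0 : q.S j = p.S j := hq.mS _ hm0
  have hu : q.T ∪ Δ ⊆ r.T := Set.union_subset he.T hΔ
  have fr : Free r j := hr.cond.free_of_mem (he.nm.Z (Or.inl rfl))
  have key : ∀ l' ∈ q.T, ∀ y, Says (insert (modeAt p j t) r.Md) l' y → Says q.Md l' y := by
    rintro l' hl' y ⟨m, rfl | hm, hy⟩
    · exact ⟨_, hm0, hy⟩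
    · exact (says_nm h.uc hr.cond he.nm hl' ⟨m, hm, hy⟩).mono fun _ h => h.1
  refine ⟨⟨q.T ∪ Δ, (setS r j (p.S j)).S, insert (modeAt p j t) r.Md, r.Z \ {j}⟩,
    ⟨⟨hS.union hq.cT (hS.fin hf), hS.insert hr.cond.cM _, small_mono hr.cond.cZ Set.sdiff_subset,
      fun l hl l' hl' => hr.cond.fn l (hu hl) l' (hu hl'),
      fun y b₀ b₁ hl => hr.cond.col y b₀ b₁ (hu hl),
      fun j G hG H hH => hr.cond.agr j G (Facts.mono hu j hG) H (Facts.mono hu j hH),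
      fun j' hj G hG => ?_, setS_good hr.cond.good (e0 ▸ hq.good j), ?_, ?_, ?_, ?_, ?_⟩,
      Set.subset_union_left, fun j' => ?_, fun m hm => ?_,
      fun x hx => ⟨he.nm.Z (Or.inr hx), fun e => hq.mZ _ hm0 ((show x = j from e) ▸ hx)⟩⟩,
    Set.subset_union_right⟩
  · exact (setS_ne r (hj _ (Or.inl rfl)).symm (p.S j)).symm ▸
      hr.cond.fit j' (fun m hm => hj m (Or.inr hm)) G (Facts.mono hu j' hG)
  · rintro m (rfl | hm) m' (rfl | hm') e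
    · rfl
    · exact absurd e.symm (fr m' hm')
    · exact absurd e (fr m hm)
    · exact hr.cond.mfn m hm m' hm' e
  · rintro m (rfl | hm)
    · exact setS_self r j _
    · exact (setS_ne r (fr m hm) _).trans (hr.cond.mS m hm)
  · rintro m (rfl | hm) G hG
    · exact (facts_union.1 hG).elim (hq.mL _ hm0 G)
        fun hG => (hL G hG).mono (fun _ _ _ h => h.1) (EE.refl _)
    · exact hr.cond.mL m hm G (Facts.mono hu _ hG)
  · rintro m (rfl | hm)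
    · exact fun h => h.2 rfl
    · exact fun h => hr.cond.mZ m hm h.1
  · rintro l' (hl' | hl')
    · obtain ⟨Γ, g1, g2, g3, g4⟩ := hq.fc l' hl'
      exact ⟨Γ, g1, g2.trans Set.subset_union_left, g3,
        fun x hx y hy => g4 x hx y (key x (g2 hx) y hy)⟩
    · obtain ⟨Γ, g1, g2, g3, g4⟩ := hq.fc l h.hl
      refine ⟨Γ ∪ Δ, g1.union hf, Set.union_subset_union_left _ g2, Or.inr hl', ?_⟩
      rintro l'' (hl'' | hl'') y hy
      · exact (g4 l'' hl'' y (key _ (g2 hl'') y hy)).imp fun _ h => ⟨Or.inl h.1, h.2⟩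
      · obtain ⟨m, rfl | hm, G, x, u, a1, a2, a3, a4⟩ := hy
        · obtain ⟨n, hn⟩ := hL G ⟨l'', hl'', a1⟩
          exact ⟨l, Or.inl g3, (((hn x u a2).resolve_right fun h => h.not_wm a3).2 y).1 a4⟩
        · exact (hc l'' hl'' y ⟨m, hm, G, x, u, a1, a2, a3, a4⟩).imp fun _ h => ⟨Or.inr h.1, h.2⟩
  · by_cases e : j' = j
    · subst e
      exact (e0.trans (setS_self r j' _).symm) ▸ EE.refl _
    · exact (setS_ne r e (p.S j)).symm ▸ (setS_ne q e s ▸ he.nm.S j')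
  · by_cases e : m.j = j
    · exact Or.inl (hq.mfn m hm _ hm0 e)
    · exact Or.inr (he.nm.Md ⟨hm, e⟩)

theorem exists_stage {α : Type v} {S : Set α} (hS : S.Finite) {P : ℕ → α → Prop}
    (hP : ∀ n m x, n ≤ m → P n x → P m x) (h : ∀ x ∈ S, ∃ n, P n x) : ∃ N, ∀ x ∈ S, P N x := by
  choose! f hf using h
  obtain ⟨N, hN⟩ := (hS.image f).bddAbove
  exact ⟨N, fun x hx => hP _ _ _ (hN ⟨x, hx, rfl⟩) (hf x hx)⟩

theorem baire_seq (hS : SatM M) (hj0 : j ≠ 0) {a₀ : M} {p q : ℕ → Pre M} {t z s : ℕ → M}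
    {l : ℕ → Lit M} (hb : IsCond F (p 0)) (hj : j ∈ (p 0).Z) (ha : En1 (p 0).T C false a₀)
    (h : ∀ n, BStep F C Ψ j i a₀ n (p n) (t n) (q n) (l n) (z n) (s n) (p (n + 1))) :
    ∃ s, Ext F s (p 0) ∧ Div F C j i Ψ s := by
  have he : ∀ n, Ext F (p (n + 1)) (p n) := fun n => (h n).ext'
  have le : ∀ {n m}, n ≤ m → Ext F (p m) (p n) := fun h => ext_le hb he h
  obtain ⟨K, K1, K3⟩ := block hS (fun n => (p n).S j) z
    fun k n hk => (h n).wz.anti ((le hk).nm.S j)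
  obtain ⟨GK, hGK⟩ := exists_const K a₀
  have sys := sys_nat hS (fun n => (le (le_refl n)).cond) fun n => (he n).nm
  obtain ⟨S₀, hT₀⟩ := sys.top hS
  obtain ⟨w, ⟨w1, w2⟩, w3⟩ := exists_bound hS hS.nat (fun n => (p n).S j)
    (fun n m => ⟨max n m, (le (le_max_left _ _)).nm.S j, (le (le_max_right _ _)).nm.S j⟩)
    (P := fun w => Good w ∧ ∀ x, mem x K → Lab w x ((0 : ℕ) : M) a₀) (by exact ArI.out) fun n => by
      obtain ⟨w, hw⟩ := exists_snoc ((p n).S j) ((0 : ℕ) : M) (pr 0 GK)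
      refine ⟨w, ⟨hw.good_fun ((sys.cond n).good j), fun x hx => ?_⟩, hw.ee⟩
      rcases K3 n x hx with h1 | ⟨m, hm, rfl⟩
      · exact hw.lab h1 (catch_fun.2 ⟨(hGK x a₀).2 ⟨hx, rfl⟩,
          fun u' h h' => h.ne ((hGK x u').1 h').2⟩)
      · exact ((h m).lz.ee ((le hm).nm.S j)).ee hw.ee
  obtain ⟨S, hT, hw⟩ := hT₀.set
    (fun n => (sys.cond n).free_of_mem ((le (Nat.zero_le n)).nm.Z hj)) w1 w3
  have hlim := sys.lim_ext hS hT fun n m hm => (le hm).T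
  have hfl : Free (lim (· ≤ ·) p S) j := (hlim 0).cond.free_of_mem ⟨0, hj⟩
  obtain ⟨lK, k1, k2⟩ := fact_ext hS (hlim 0).cond hj0 hfl (g := GK) ⟨0, fun x u hx => by
    obtain ⟨h1, rfl⟩ := (hGK x u).1 hx
    exact Lab.val (show Lab (S j) x _ _ from hw ▸ w2 x h1)⟩
  have hse : ∀ k, Ext F (addT (lim (· ≤ ·) p S) {lK}) (p k) := fun k => k2.trans (hlim k)
  refine ⟨_, hse 0, K, ⟨GK, ⟨lK, Or.inr rfl, k1⟩, fun x hx =>
    ⟨a₀, (hGK x a₀).2 ⟨hx, rfl⟩, ha.mono (hse 0).T⟩⟩, ?_⟩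
  rintro r hr ⟨k', a, b, k₁, k₀, h1, h2, G₁, ⟨l₁, a1, a2⟩, G₀, ⟨l₀, b1, b2⟩, h3⟩
  obtain ⟨Δ₀, f0, s0, -, e0⟩ := h2.closed hS hr.cond
  obtain ⟨Δ, f, s1, s2, cl⟩ := hr.cond.closure ((f0.insert l₁).insert l₀)
    (Set.insert_subset b1 (Set.insert_subset a1 s0))
  obtain ⟨N, hN⟩ := exists_stage (Facts.finite f j)
    (P := fun n G => ∀ x u, ap G x u → Val j (r.S j) n x u)
    (fun n m G hn hG x u hx => (hG x u hx).mono hn) fun G hG =>
      hr.cond.fit j (hr.cond.free_of_mem ((hr.trans (hse 0)).nm.Z hj)) G (Facts.mono s2 j hG)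
  obtain ⟨k, hk⟩ : ∃ k, N < k := ⟨N + 1, N.lt_succ_self⟩
  have hk' : ∀ G ∈ Facts Δ j, FitsW (fun x => Wm ((p k).S j) x ∧
      ∀ y, say (t k) x y ↔ y = lit (l k)) j ((p k).S j) G := fun G hG => ⟨N, fun x u hx => by
    refine ((hN G hG x u hx).back ((hr.trans (hse k)).nm.S j)).imp_left fun hw =>
      ⟨hw, ((h k).rc x hw).resolve_left ?_⟩
    rintro ⟨u', c1⟩
    obtain ⟨l', u'', c2, c3⟩ := hN G hG x u hx
    obtain ⟨rfl, -⟩ := (c1.ee ((hr.trans (hse (k + 1))).nm.S j)).unique c2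
    exact c3.elim (fun c => absurd (Nat.cast_le.1 c.1) (not_le.2 hk)) fun c => c.1 (nat_std k)⟩
  obtain ⟨r', hq, hq'⟩ := (h k).read hS (hr.trans (hse (k + 1))) f s2 cl hk'
  have m1 : G₁ ∈ Facts Δ j := ⟨l₁, s1 (Or.inr (Or.inl rfl)), a2⟩
  have m0 : G₀ ∈ Facts Δ j := ⟨l₀, s1 (Or.inl rfl), b2⟩
  obtain ⟨U, hU⟩ := exists_union G₁ G₀
  obtain ⟨g', hg'⟩ := exists_restrict U (P := prt i) (by exact ArI.out)
  have hm : ∀ x u, ap g' x u → ∃ G ∈ Facts r.T j, ap G x u := fun x u hx =>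
    ((hU _).1 ((hg' x u).1 hx).1).elim (fun h => ⟨G₁, ⟨l₁, a1, a2⟩, h⟩)
      fun h => ⟨G₀, ⟨l₀, b1, b2⟩, h⟩
  refine (h k).un _ hq k₁ k₀ (e0.mono fun x hx => hq' (s1 (Or.inr (Or.inr hx))))
    ⟨k', K, a, b, g', z k, h1, K1 k, (h k).pz, (h k).wz, ((h k).sz _).2 rfl,
      ⟨fun x hx => (h3.1 x hx).imp_right ?_, h3.2.1, fun y hy hy' => ?_⟩,
      fun x u hx => ((hg' x u).1 hx).2, fun x u u' c1 c2 => ?_, ?_⟩
  · rintro ⟨y, u, c1, c2, c3, c4⟩
    exact ⟨y, u, c1, c2, (hg' y u).2 ⟨(hU _).2 (Or.inl c3), c2⟩, c4⟩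
  · obtain ⟨u, c3, c4⟩ := h3.2.2 y hy hy'
    exact ⟨u, (hg' y u).2 ⟨(hU _).2 (Or.inr c3), hy'⟩, c4⟩
  · obtain ⟨G, d1, d2⟩ := hm x u c1
    obtain ⟨G', d3, d4⟩ := hm x u' c2
    exact hr.cond.agr j G d1 G' d3 x u u' d2 d4
  · exact ((hk' G₁ m1).union (hk' G₀ m0) fun x u hx => (hU _).1 ((hg' x u).1 hx).1).mono
      (fun _ _ _ h => ⟨h.1, (h.2 _).2 rfl⟩) (EE.refl _)

theorem baire (hS : SatM M) (hb : IsCond F b) (hj : j ∈ b.Z) (hj0 : j ≠ 0) {a₀ : M}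
    (ha : En1 b.T C false a₀) (hD : ∀ q, Ext F q b → ¬ Div F C j i Ψ q) :
    ∃ b' t, Ext F b' b ∧ RdDense F C b' j t i Ψ := by
  by_contra hn
  have st : ∀ (n : ℕ) (p : {p // Ext F p b}), ∃ t q l z s, ∃ p' : {p // Ext F p b},
      BStep F C Ψ j i a₀ n p.1 t q l z s p'.1 := fun n p => by
    obtain ⟨t, q, l, z, s, p', h⟩ := exists_bstep (C := C) (Ψ := Ψ) (i := i) hS a₀ n p.2.cond
      (p.2.nm.Z hj) fun t ht => hn ⟨p.1, t, p.2, ht⟩
    exact ⟨t, q, l, z, s, ⟨p', h.ext'.trans p.2⟩, h⟩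
  choose t q l z g nx h using st
  let s : ℕ → {p // Ext F p b} := fun n => Nat.rec ⟨b, Ext.refl hb⟩ nx n
  obtain ⟨r, h1, h2⟩ := baire_seq (p := fun n => (s n).1) hS hj0 hb hj ha fun n => h n (s n)
  exact hD r h1 h2

end Pool.Agent.MP_6072c5_lc.U71
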