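import Pool.Agent.MP_6072c5_lc.U71.SatL

/-! Basic properties of conditions. -/

set_option linter.unusedSectionVars false
set_option synthInstance.maxSize 100000

namespace Pool.Agent.MP_6072c5_lc.U71

open Cardinal

universe u v

variable {M : Type u} [CommSemiring M] [LinearOrder M] [IsPA M]

section sets
variable {T T' Δ : Set (Lit M)} {j G G' H z u u' y : M} {Md Md' : Set (Mode M)} {l : Lit M}

theorem Facts.mono (h : T ⊆ T') (j : M) : Facts T j ⊆ Facts T' j :=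
  fun _ ⟨l, hl, h'⟩ => ⟨l, h hl, h'⟩

theorem facts_union : G ∈ Facts (T ∪ Δ) j ↔ G ∈ Facts T j ∨ G ∈ Facts Δ j := by
  constructor
  · rintro ⟨l, hl | hl, h⟩
    · exact Or.inl ⟨l, hl, h⟩
    · exact Or.inr ⟨l, hl, h⟩
  · rintro (⟨l, hl, h⟩ | ⟨l, hl, h⟩)
    · exact ⟨l, Or.inl hl, h⟩
    · exact ⟨l, Or.inr hl, h⟩

theorem facts_sub_iUnion (T : Set (Lit M)) (j : M) :
    Facts T j ⊆ ⋃ l ∈ T, {G | IsFact l j G} := fun _ ⟨_, hl, h⟩ => Set.mem_biUnion hl h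

theorem isFact_subsingleton (l : Lit M) (j : M) : {G | IsFact l j G}.Subsingleton :=
  fun _ h _ h' => (IsFact.unique h h').2

theorem Facts.small (hS : SatM M) (h : #T < #M) (j : M) : #(Facts T j) < #M :=
  small_mono (hS.iUnion (smallT_set h) (A := fun l => {G | IsFact l.1 j G})
    fun l => hS.fin (isFact_subsingleton l.1 j).finite)
    fun _ ⟨l, hl, h⟩ => Set.mem_iUnion.2 ⟨⟨l, hl⟩, h⟩

theorem Facts.finite (h : T.Finite) (j : M) : (Facts T j).Finite :=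
  (h.biUnion fun l _ => (isFact_subsingleton l j).finite).subset (facts_sub_iUnion T j)

theorem keys_eq (T : Set (Lit M)) : keys T = Prod.fst '' T := rfl

theorem keys_mono (h : T ⊆ T') : keys T ⊆ keys T' := fun _ ⟨l, hl, h'⟩ => ⟨l, h hl, h'⟩

theorem keys_small (h : #T < #M) : #(keys T) < #M := small_image h _

theorem keys_finite (h : T.Finite) : (keys T).Finite := h.image _

theorem mem_keys (h : l ∈ T) : l.1 ∈ keys T := ⟨l, h, rfl⟩

theorem Agree.symm (h : Agree G H) : Agree H G := fun z u u' h1 h2 => (h z u' u h2 h1).symm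

theorem Agree.sub {H' : M} (h : Agree G H) (hG : ∀ z a, ap G' z a → ap G z a)
    (hH : ∀ z a, ap H' z a → ap H z a) : Agree G' H' :=
  fun z u u' h1 h2 => h z u u' (hG z u h1) (hH z u' h2)

theorem Says.mono (h : Says Md l y) (hM : Md ⊆ Md') : Says Md' l y := by
  obtain ⟨m, hm, h⟩ := h
  exact ⟨m, hM hm, h⟩

theorem Closed.anti (h : Closed Md' Δ) (hM : Md ⊆ Md') : Closed Md Δ :=
  fun l hl y hy => h l hl y (hy.mono hM)

theorem Closed.union (h : Closed Md T) (h' : Closed Md Δ) : Closed Md (T ∪ Δ) := by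
  rintro l (hl | hl) y hy
  · obtain ⟨l', h1, h2⟩ := h l hl y hy
    exact ⟨l', Or.inl h1, h2⟩
  · obtain ⟨l', h1, h2⟩ := h' l hl y hy
    exact ⟨l', Or.inr h1, h2⟩

theorem Closed.inter (h : Closed Md T) (h' : Closed Md Δ) : Closed Md (T ∩ Δ) := by
  rintro l ⟨h1, h2⟩ y hy
  obtain ⟨l', a1, a2⟩ := h l h1 y hy
  obtain ⟨l'', b1, b2⟩ := h' l h2 y hy
  obtain rfl := lit_inj (a2.symm.trans b2)
  exact ⟨l', ⟨a1, b1⟩, a2⟩

theorem Closed.mem {l' : Lit M} (h : Closed Md T) (hl : l ∈ T) (hy : Says Md l (lit l')) :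
    l' ∈ T := by
  obtain ⟨l'', h1, h2⟩ := h l hl _ hy
  exact lit_inj h2 ▸ h1

theorem closed_biUnion {ι : Type v} {I : Set ι} {S : ι → Set (Lit M)}
    (h : ∀ i ∈ I, Closed Md (S i)) : Closed Md (⋃ i ∈ I, S i) := by
  intro l hl y hy
  obtain ⟨i, hi, hl⟩ := Set.mem_iUnion₂.1 hl
  obtain ⟨l', h1, h2⟩ := h i hi l hl y hy
  exact ⟨l', Set.mem_biUnion hi h1, h2⟩

theorem closed_single (h : ∀ y, ¬ Says Md l y) : Closed Md {l} := by
  rintro l' rfl y hy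
  exact absurd hy (h y)

theorem not_says_col {v : M} {c : Bool × Bool} : ¬ Says Md (pr 0 v, c) y :=
  fun ⟨_, _, _, _, _, h, _⟩ => IsFact.not_col h

theorem not_says_neg {v : M} {b : Bool} : ¬ Says Md (v, b, b) y :=
  fun ⟨_, _, _, _, _, h, _⟩ => IsFact.not_neg h

theorem Ev.mono {a b : M} (h : Ev T a b) (hT : T ⊆ T') : Ev T' a b := by
  refine ⟨fun x hx => ?_, fun v => ⟨fun hv => ?_, fun hv => ?_⟩⟩
  · obtain ⟨v, c, h | h⟩ := h.1 x hx
    · exact ⟨v, c, Or.inl ⟨h.1, hT h.2⟩⟩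
    · exact ⟨v, c, Or.inr ⟨h.1, hT h.2⟩⟩
  · exact ((h.2 v).1 hv).imp fun c hc => hT hc
  · exact ((h.2 v).2 hv).imp fun c hc => hT hc

theorem En.mono {C : Rel M} {k₁ k₀ : M} (h : En T C k₁ k₀) (hT : T ⊆ T') : En T' C k₁ k₀ := by
  obtain ⟨a, b, h1, h2⟩ := h
  exact ⟨a, b, h1, h2.mono hT⟩

theorem En1.mono {C : Rel M} {e : Bool} {w : M} (h : En1 T C e w) (hT : T ⊆ T') :
    En1 T' C e w := by
  obtain ⟨a, b, h1, h2⟩ := h
  exact ⟨a, b, h1.mono hT, h2⟩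

theorem PEv.mono {C Ψ : Rel M} {i : Bool} {K : M} (h : PEv T C j i Ψ K) (hT : T ⊆ T') :
    PEv T' C j i Ψ K := by
  obtain ⟨k, a, b, k₁, k₀, h1, h2, G₁, h3, G₀, h4, h5⟩ := h
  exact ⟨k, a, b, k₁, k₀, h1, h2.mono hT, G₁, Facts.mono hT _ h3, G₀, Facts.mono hT _ h4, h5⟩

theorem Ev.finite (hS : SatM M) (hT : #T < #M) {a b : M} (h : Ev T a b) :
    ∃ Γ, Γ.Finite ∧ Γ ⊆ T ∧ Ev Γ a b := by
  obtain ⟨u, hu⟩ := exists_union a b
  obtain ⟨r₀, h0⟩ := exists_row 0 u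
  obtain ⟨r₁, h1⟩ := exists_row 1 u
  obtain ⟨k, hk⟩ := exists_union r₀ r₁
  have hsub : {v | mem v k} ⊆ keys T := by
    intro v hv
    rcases (hk v).1 hv with hv | hv
    · rcases (hu _).1 ((h0 v).1 hv) with hv | hv
      · obtain ⟨v', c, ⟨e, h⟩ | ⟨e, h⟩⟩ := h.1 _ hv
        · exact ⟨_, h, (pr_inj.1 e).2.symm⟩
        · exact absurd (pr_inj.1 e).1 zero_ne_one
      · obtain ⟨c, hc⟩ := (h.2 v).1 hv
        exact ⟨_, hc, rfl⟩
    · rcases (hu _).1 ((h1 v).1 hv) with hv | hv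
      · obtain ⟨v', c, ⟨e, h⟩ | ⟨e, h⟩⟩ := h.1 _ hv
        · exact absurd (pr_inj.1 e).1 one_ne_zero
        · exact ⟨_, h, (pr_inj.1 e).2.symm⟩
      · obtain ⟨c, hc⟩ := (h.2 v).2 hv
        exact ⟨_, hc, rfl⟩
  have hfin := finite_of_small hS (small_mono (keys_small hT) hsub)
  refine ⟨T ∩ {v | mem v k} ×ˢ Set.univ, (hfin.prod Set.finite_univ).inter_of_right _,
    Set.inter_subset_left, fun x hx => ?_, fun v => ⟨fun hv => ?_, fun hv => ?_⟩⟩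
  · obtain ⟨v, c, ⟨rfl, h⟩ | ⟨rfl, h⟩⟩ := h.1 x hx
    · exact ⟨v, c, Or.inl ⟨rfl, h, (hk v).2 (Or.inl ((h0 v).2 ((hu _).2 (Or.inl hx)))), trivial⟩⟩
    · exact ⟨v, c, Or.inr ⟨rfl, h, (hk v).2 (Or.inr ((h1 v).2 ((hu _).2 (Or.inl hx)))), trivial⟩⟩
  · exact ((h.2 v).1 hv).imp fun c hc =>
      ⟨hc, (hk v).2 (Or.inl ((h0 v).2 ((hu _).2 (Or.inr hv)))), trivial⟩
  · exact ((h.2 v).2 hv).imp fun c hc =>
      ⟨hc, (hk v).2 (Or.inr ((h1 v).2 ((hu _).2 (Or.inr hv)))), trivial⟩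

end sets

variable {F : Set M} {p q r b : Pre M}

section cond
variable {j G H z u u' y : M} {l l' : Lit M} {Δ Γ : Set (Lit M)}

theorem not_free (h : ¬ Free p j) : ∃ m ∈ p.Md, m.j = j := by
  simpa only [Free, not_forall, not_not, exists_prop] using h

theorem IsCond.fitsW (hp : IsCond F p) (hG : G ∈ Facts p.T j) :
    FitsW (Wm (p.S j)) j (p.S j) G := by
  by_cases hf : Free p j
  · exact (hp.fit j hf G hG).w
  · obtain ⟨m, hm, rfl⟩ := not_free hf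
    exact hp.mS m hm ▸ hp.mL m hm G hG

theorem IsCond.val_agree (hp : IsCond F p) {n : ℕ} (h : Val j (p.S j) n z u)
    (hH : H ∈ Facts p.T j) (ha : ap H z u') : u = u' := by
  obtain ⟨n', hn⟩ := hp.fitsW hH
  exact h.unique ((hn z u' ha).resolve_left h.not_wm)

theorem IsCond.closed (hp : IsCond F p) : Closed p.Md p.T := by
  intro l hl y hy
  obtain ⟨Δ, -, h1, h2, h3⟩ := hp.fc l hl
  obtain ⟨l', a, b⟩ := h3 l h2 y hy
  exact ⟨l', h1 a, b⟩

theorem IsCond.closure (hp : IsCond F p) (hf : Γ.Finite) (hΓ : Γ ⊆ p.T) :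
    ∃ Δ, Δ.Finite ∧ Γ ⊆ Δ ∧ Δ ⊆ p.T ∧ Closed p.Md Δ := by
  choose! c h1 h2 h3 h4 using hp.fc
  exact ⟨⋃ l ∈ Γ, c l, hf.biUnion fun l hl => h1 l (hΓ hl),
    fun l hl => Set.mem_biUnion hl (h3 l (hΓ hl)), Set.iUnion₂_subset fun l hl => h2 l (hΓ hl),
    closed_biUnion fun l hl => h4 l (hΓ hl)⟩

theorem IsCond.free_of_mem (hp : IsCond F p) (hj : j ∈ p.Z) : Free p j :=
  fun m hm e => hp.mZ m hm (e ▸ hj)

theorem IsCond.not_mem (hp : IsCond F p) (hl : l ∈ p.T) (hk : l.1 = l'.1) (hn : l ≠ l') :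
    l' ∉ p.T := fun h => hn (hp.fn l hl l' h hk)

theorem En.closed (hS : SatM M) (hp : IsCond F p) {C : Rel M} {k₁ k₀ : M}
    (h : En p.T C k₁ k₀) : ∃ Δ, Δ.Finite ∧ Δ ⊆ p.T ∧ Closed p.Md Δ ∧ En Δ C k₁ k₀ := by
  obtain ⟨a, b, h1, h2⟩ := h
  obtain ⟨Γ, f, s, e⟩ := h2.finite hS hp.cT
  obtain ⟨Δ, f', s1, s2, c⟩ := hp.closure f s
  exact ⟨Δ, f', s2, c, a, b, h1, e.mono s1⟩

theorem En1.closed (hS : SatM M) (hp : IsCond F p) {C : Rel M} {e : Bool} {w : M}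
    (h : En1 p.T C e w) : ∃ Δ, Δ.Finite ∧ Δ ⊆ p.T ∧ Closed p.Md Δ ∧ En1 Δ C e w := by
  obtain ⟨a, b, h1, h2⟩ := h
  obtain ⟨Δ, f, s, c, e⟩ := h1.closed hS hp
  exact ⟨Δ, f, s, c, a, b, e, h2⟩

/-- a fact of a column in mode has the same messages later -/
theorem says_mode (hq : IsCond F q) (h : p.Md ⊆ q.Md) {m : Mode M} (hm : m ∈ p.Md)
    (hl : IsFact l m.j G) (hy : Says q.Md l y) : Says p.Md l y := by
  obtain ⟨m', hm', G', z, u, h1, h2⟩ := hy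
  obtain rfl := hq.mfn m' hm' m (h hm) (h1.unique hl).1
  exact ⟨m', hm, G', z, u, h1, h2⟩

theorem says_nm (hp : IsCond F p) (hq : IsCond F q) (h : NM p q) (hl : l ∈ p.T)
    (hy : Says q.Md l y) : Says p.Md l y := by
  obtain ⟨m, hm, G, z, u, h1, h2, h3, h4⟩ := id hy
  by_cases hf : Free p m.j
  · obtain ⟨n, hn⟩ := hp.fit _ hf G ⟨l, hl, h1⟩
    exact absurd (hq.mS m hm ▸ h3) ((hn z u h2).ee (h.S _)).not_wm
  · obtain ⟨m', hm', e⟩ := not_free hf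
    exact says_mode hq h.Md hm' (e ▸ h1) hy

theorem Closed.nm (hc : Closed p.Md Δ) (hp : IsCond F p) (hq : IsCond F q) (h : NM p q)
    (hΔ : Δ ⊆ p.T) : Closed q.Md Δ := fun l hl y hy => hc l hl y (says_nm hp hq h (hΔ hl) hy)

theorem Free.anti (h : Free q j) (hM : p.Md ⊆ q.Md) : Free p j := fun m hm => h m (hM hm)

theorem NM.refl (p : Pre M) : NM p p := ⟨fun _ => EE.refl _, subset_rfl, subset_rfl⟩

theorem NM.trans (h1 : NM p q) (h2 : NM q r) : NM p r :=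
  ⟨fun j => (h1.S j).trans (h2.S j), h1.Md.trans h2.Md, h1.Z.trans h2.Z⟩

theorem NM.fit (h : NM p q) (hp : IsCond F p) (hf : Free q j) (hG : G ∈ Facts p.T j) :
    Fits j (q.S j) G := (hp.fit j (hf.anti h.Md) G hG).ee (h.S j)

theorem NM.mL (h : NM p q) (hp : IsCond F p) (hq : IsCond F q) {m : Mode M} (hm : m ∈ q.Md)
    (hG : G ∈ Facts p.T m.j) : FitsW (Wm m.s) m.j m.s G := by
  by_cases hf : Free p m.j
  · exact hq.mS m hm ▸ ((hp.fit _ hf G hG).ee (h.S _)).w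
  · obtain ⟨m', hm', e⟩ := not_free hf
    obtain rfl := hq.mfn m' (h.Md hm') m hm e
    exact hp.mL m' hm' G hG

theorem Ext.refl (hp : IsCond F p) : Ext F p p := ⟨hp, subset_rfl, NM.refl p⟩

theorem Ext.trans (h1 : Ext F r q) (h2 : Ext F q p) : Ext F r p :=
  ⟨h1.cond, h2.T.trans h1.T, h2.nm.trans h1.nm⟩

/-- the pairs decided by `p` are closed in any extension -/
theorem Ext.closed (h : Ext F q p) (hp : IsCond F p) : Closed q.Md p.T :=
  hp.closed.nm hp h.cond h.nm subset_rfl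

/-! ### Adding decided pairs -/

/-- more decided pairs -/
def addT (p : Pre M) (Δ : Set (Lit M)) : Pre M := withT p (p.T ∪ Δ)

theorem addT_cond (hS : SatM M) (hp : IsCond F p) (hc : #Δ < #M)
    (fn : ∀ l ∈ Δ, ∀ l' ∈ p.T ∪ Δ, l.1 = l'.1 → l = l')
    (col : ∀ y b₀ b₁, (pr 0 y, b₀, b₁) ∈ Δ → (b₀ ≠ b₁ ↔ y ∈ F))
    (agr : ∀ j, ∀ G ∈ Facts Δ j, ∀ H ∈ Facts (p.T ∪ Δ) j, Agree G H)
    (fit : ∀ j, Free p j → ∀ G ∈ Facts Δ j, Fits j (p.S j) G)
    (mL : ∀ m ∈ p.Md, ∀ G ∈ Facts Δ m.j, FitsW (Wm m.s) m.j m.s G)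
    (fc : ∀ l ∈ Δ, ∃ Γ : Set (Lit M), Γ.Finite ∧ Γ ⊆ p.T ∪ Δ ∧ l ∈ Γ ∧ Closed p.Md Γ) :
    IsCond F (addT p Δ) where
  cT := hS.union hp.cT hc
  cM := hp.cM
  cZ := hp.cZ
  fn := by
    rintro l (hl | hl) l' hl' e
    · rcases hl' with hl' | hl'
      · exact hp.fn l hl l' hl' e
      · exact (fn l' hl' l (Or.inl hl) e.symm).symm
    · exact fn l hl l' hl' e
  col := fun y b₀ b₁ h => h.elim (hp.col y b₀ b₁) (col y b₀ b₁)
  agr := by
    intro j G hG H hH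
    rcases facts_union.1 hG with hG' | hG'
    · rcases facts_union.1 hH with hH' | hH'
      · exact hp.agr j G hG' H hH'
      · exact (agr j H hH' G hG).symm
    · exact agr j G hG' H hH
  fit := fun j hf G hG => (facts_union.1 hG).elim (hp.fit j hf G) (fit j hf G)
  good := hp.good
  mfn := hp.mfn
  mS := hp.mS
  mL := fun m hm G hG => (facts_union.1 hG).elim (hp.mL m hm G) (mL m hm G)
  mZ := hp.mZ
  fc := by
    rintro l (hl | hl)
    · obtain ⟨Γ, h1, h2, h3⟩ := hp.fc l hl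
      exact ⟨Γ, h1, h2.trans Set.subset_union_left, h3⟩
    · exact fc l hl

theorem addT_ext (hc : IsCond F (addT p Δ)) : Ext F (addT p Δ) p :=
  ⟨hc, Set.subset_union_left, fun _ => EE.refl _, subset_rfl, subset_rfl⟩

/-- the pairs of `p` with the columns of a later stage `q` -/
theorem lift_ext (hp : IsCond F p) (hq : IsCond F q) (h : NM p q) : Ext F (withT q p.T) p :=
  ⟨⟨hp.cT, hq.cM, hq.cZ, hp.fn, hp.col, hp.agr, fun _ hf _ hG => h.fit hp hf hG, hq.good, hq.mfn,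
    hq.mS, fun _ hm _ hG => h.mL hp hq hm hG, hq.mZ, fun l hl =>
      (hp.fc l hl).imp fun _ a => ⟨a.1, a.2.1, a.2.2.1, Closed.nm (q := q) a.2.2.2 hp hq h a.2.1⟩⟩,
    subset_rfl, h.S, h.Md, h.Z⟩

theorem facts_single {g j' : M} (hl : IsFact l j g) : G ∈ Facts {l} j' ↔ j' = j ∧ G = g := by
  constructor
  · rintro ⟨l', rfl, h⟩
    exact h.unique hl
  · rintro ⟨rfl, rfl⟩
    exact ⟨l, rfl, hl⟩

theorem exists_factLit (hj : j ≠ 0) (g : M) {S : Set M}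
    (h : #S < #M) : ∃ l : Lit M, IsFact l j g ∧ l.1 ∉ S ∧ l.2 = (true, false) := by
  obtain ⟨x, hx⟩ := exists_not_mem h (f := fun x => pr j (pr g x))
    fun x y e => (pr_inj.1 (pr_inj.1 e).2).2
  exact ⟨(pr j (pr g x), true, false), ⟨hj, x, true, rfl⟩, hx, rfl⟩

/-- a new piece of a free column -/
theorem fact_ext (hS : SatM M) (hp : IsCond F p) (hj : j ≠ 0) (hf : Free p j) {g : M}
    (hg : Fits j (p.S j) g) : ∃ l, IsFact l j g ∧ Ext F (addT p {l}) p := by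
  obtain ⟨l, hl, hk, -⟩ := exists_factLit hj g (keys_small hp.cT)
  refine ⟨l, hl, addT_ext (addT_cond hS hp (hS.fin (Set.finite_singleton _)) ?_ ?_ ?_ ?_ ?_ ?_)⟩
  · rintro l' rfl l'' (h | h) e
    · exact absurd ⟨l'', h, e.symm⟩ hk
    · exact h.symm
  · rintro y b₀ b₁ rfl
    exact absurd hl IsFact.not_col
  · intro j' G hG H hH
    obtain ⟨rfl, rfl⟩ := (facts_single hl).1 hG
    rcases facts_union.1 hH with hH | hH
    · exact hg.agree (hp.fit _ hf H hH)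
    · exact ((facts_single hl).1 hH).2 ▸ hg.agree hg
  · intro j' _ G hG
    obtain ⟨rfl, rfl⟩ := (facts_single hl).1 hG
    exact hg
  · intro m hm G hG
    exact absurd ((facts_single hl).1 hG).1 (hf m hm)
  · rintro l' rfl
    refine ⟨{l'}, Set.finite_singleton _, Set.subset_union_right, rfl, closed_single ?_⟩
    rintro y ⟨m, hm, G, z, u, h, -⟩
    exact hf m hm (h.unique hl).1

/-- a new pair that is not a fact -/
theorem addT_plain (hS : SatM M) (hp : IsCond F p) (hk : l.1 ∉ keys p.T)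
    (hl : ∀ j G, ¬ IsFact l j G) (col : ∀ y b₀ b₁, l = (pr 0 y, b₀, b₁) → (b₀ ≠ b₁ ↔ y ∈ F)) :
    Ext F (addT p {l}) p := by
  have h0 : ∀ j G, G ∉ Facts {l} j := by
    rintro j G ⟨l', rfl, h⟩
    exact hl j G h
  refine addT_ext (addT_cond hS hp (hS.fin (Set.finite_singleton _)) ?_
    (fun y b₀ b₁ h => col y b₀ b₁ h.symm)
    (fun j G hG => absurd hG (h0 j G)) (fun j _ G hG => absurd hG (h0 j G))
    (fun m _ G hG => absurd hG (h0 _ G)) ?_)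
  · rintro l' rfl l'' (h | h) e
    · exact absurd ⟨l'', h, e.symm⟩ hk
    · exact h.symm
  · rintro l' rfl
    refine ⟨{l'}, Set.finite_singleton _, Set.subset_union_right, rfl, closed_single ?_⟩
    rintro y ⟨m, hm, G, z, u, h, -⟩
    exact hl _ _ h

theorem dec_ext (hS : SatM M) (hp : IsCond F p) {v : M} (hv : v ∉ keys p.T) (e : Bool) :
    (∃ c, Ext F (addT p {(v, e, c)}) p) ∧ ∃ c, Ext F (addT p {(v, c, e)}) p := by
  classical
  by_cases h : ∃ y ∈ F, v = pr 0 y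
  · obtain ⟨y, hy, rfl⟩ := h
    have key : ∀ b₀ b₁ : Bool, b₀ ≠ b₁ → Ext F (addT p {(pr 0 y, b₀, b₁)}) p := fun b₀ b₁ hb =>
      addT_plain hS hp hv (fun _ _ => IsFact.not_col) fun y' c₀ c₁ e => by
        simp only [Prod.mk.injEq, pr_inj, true_and] at e
        obtain ⟨rfl, rfl, rfl⟩ := e
        exact iff_of_true hb hy
    exact ⟨⟨!e, key _ _ (by cases e <;> simp)⟩, ⟨!e, key _ _ (by cases e <;> simp)⟩⟩
  · have key : Ext F (addT p {(v, e, e)}) p :=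
      addT_plain hS hp hv (fun _ _ => IsFact.not_neg) fun y' c₀ c₁ e => by
        simp only [Prod.mk.injEq] at e
        obtain ⟨rfl, rfl, rfl⟩ := e
        exact iff_of_false (fun h => h rfl) fun hy => h ⟨y', hy, rfl⟩
    exact ⟨⟨e, key⟩, ⟨e, key⟩⟩

end cond

end Pool.Agent.MP_6072c5_lc.U71
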