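import Pool.Agent.MP_6072c5_lc.U71.Red

/-! Monotone reductions, joins, and a set that is not below a directed set joined with the standard
cut. -/

set_option linter.unusedSectionVars false
set_option synthInstance.maxSize 100000

namespace Pool.Agent.MP_6072c5_lc.U71

universe u

variable {M : Type u} [CommSemiring M] [LinearOrder M] [IsPA M]

section
variable {A R : Set M} {C : M → M → M → M → Prop}

/-- `C` is a sound, complete and monotone `Σ₁` relation between neighbourhood conditions of `A`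
and of `R`. -/
structure Conf (A R : Set M) (C : M → M → M → M → Prop) : Prop where
  s1 : S1 fun v => C (v 0) (v 1) (v 2) (v 3)
  sound : ∀ {k₁ k₀ a b}, Sub a R → Sub b Rᶜ → C k₁ k₀ a b → Sub k₁ A ∧ Sub k₀ Aᶜ
  compl : ∀ {k₁ k₀}, Sub k₁ A → Sub k₀ Aᶜ → ∃ a b, Sub a R ∧ Sub b Rᶜ ∧ C k₁ k₀ a b
  mono : ∀ {k₁ k₀ a b k₁' k₀' a' b'}, C k₁ k₀ a b → sub k₁' k₁ → sub k₀' k₀ → sub a a' →
    sub b b' → C k₁' k₀' a' b'

theorem Red.conf (h : Red A R) : ∃ C, Conf A R C := by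
  obtain ⟨W, hW, eW⟩ := h
  have : S4 W := ⟨hW⟩
  refine ⟨fun k₁ k₀ a b => ∃ l₁ l₀ a₀ a₁ b₀ b₁, sub k₁ l₁ ∧ sub k₀ l₀ ∧ W l₁ 1 a₀ a₁ ∧
    W l₀ 0 b₀ b₁ ∧ sub a₀ a ∧ sub b₀ a ∧ sub a₁ b ∧ sub b₁ b, (by exact S1I.out), ?_, ?_, ?_⟩
  · rintro k₁ k₀ a b ha hb ⟨l₁, l₀, a₀, a₁, b₀, b₁, h1, h2, h3, h4, h5, h6, h7, h8⟩
    exact ⟨((eW l₁).1.2 ⟨a₀, a₁, ha.mono h5, hb.mono h7, h3⟩).mono h1,
      ((eW l₀).2.2 ⟨b₀, b₁, ha.mono h6, hb.mono h8, h4⟩).mono h2⟩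
  · intro k₁ k₀ h1 h0
    obtain ⟨a₀, a₁, p₀, p₁, ha⟩ := (eW k₁).1.1 h1
    obtain ⟨b₀, b₁, q₀, q₁, hb⟩ := (eW k₀).2.1 h0
    obtain ⟨h₀, r₀, r₁, r₂, -⟩ := union_sub p₀ q₀
    obtain ⟨h₁, t₀, t₁, t₂, -⟩ := union_sub p₁ q₁
    exact ⟨h₀, h₁, r₀, t₀, k₁, k₀, a₀, a₁, b₀, b₁, sub_refl _, sub_refl _, ha, hb, r₁, r₂, t₁, t₂⟩
  · rintro k₁ k₀ a b k₁' k₀' a' b' ⟨l₁, l₀, a₀, a₁, b₀, b₁, h1, h2, h3, h4, h5, h6, h7, h8⟩
      e1 e2 e3 e4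
    exact ⟨l₁, l₀, a₀, a₁, b₀, b₁, e1.trans h1, e2.trans h2, h3, h4, h5.trans e3, h6.trans e3,
      h7.trans e4, h8.trans e4⟩

end

/-- the set recording which coded sets are contained in `A` or in its complement -/
def facts (A : Set M) : Set M := {z | ∃ k, (z = pr k 1 ∧ Sub k A) ∨ (z = pr k 0 ∧ Sub k Aᶜ)}

theorem red_of_xor {A X Z : Set M} (h1 : Red X Z) (h2 : Red {x | x ∈ X ↔ x ∉ facts A} Z) :
    Red A Z := by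
  obtain ⟨V, hV, eV⟩ := h1
  obtain ⟨W, hW, eW⟩ := h2
  have : S4 W := ⟨hW⟩
  have : S4 V := ⟨hV⟩
  have key : ∀ z, z ∈ facts A ↔ ∃ h₀ h₁, Sub h₀ Z ∧ Sub h₁ Zᶜ ∧ ∃ s a₀ a₁ b₀ b₁, mem z s ∧
      ((V s 1 a₀ a₁ ∧ W s 0 b₀ b₁) ∨ (V s 0 a₀ a₁ ∧ W s 1 b₀ b₁)) ∧
      sub a₀ h₀ ∧ sub b₀ h₀ ∧ sub a₁ h₁ ∧ sub b₁ h₁ := by
    intro z
    constructor
    · intro hz
      obtain ⟨s, hs⟩ := exists_single z
      by_cases hX : z ∈ X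
      · obtain ⟨a₀, a₁, p₀, p₁, ha⟩ := (eV s).1.1 fun x hx => (hs x).1 hx ▸ hX
        obtain ⟨b₀, b₁, q₀, q₁, hb⟩ := (eW s).2.1 fun x hx => (hs x).1 hx ▸ by simp [hX, hz]
        obtain ⟨h₀, r₀, r₁, r₂, -⟩ := union_sub p₀ q₀
        obtain ⟨h₁, t₀, t₁, t₂, -⟩ := union_sub p₁ q₁
        exact ⟨h₀, h₁, r₀, t₀, s, a₀, a₁, b₀, b₁, (hs z).2 rfl, Or.inl ⟨ha, hb⟩, r₁, r₂, t₁, t₂⟩
      · obtain ⟨a₀, a₁, p₀, p₁, ha⟩ := (eV s).2.1 fun x hx => (hs x).1 hx ▸ hX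
        obtain ⟨b₀, b₁, q₀, q₁, hb⟩ := (eW s).1.1 fun x hx => (hs x).1 hx ▸ by simp [hX, hz]
        obtain ⟨h₀, r₀, r₁, r₂, -⟩ := union_sub p₀ q₀
        obtain ⟨h₁, t₀, t₁, t₂, -⟩ := union_sub p₁ q₁
        exact ⟨h₀, h₁, r₀, t₀, s, a₀, a₁, b₀, b₁, (hs z).2 rfl, Or.inr ⟨ha, hb⟩, r₁, r₂, t₁, t₂⟩
    · rintro ⟨h₀, h₁, r₀, t₀, s, a₀, a₁, b₀, b₁, hs, h | h, r₁, r₂, t₁, t₂⟩
      · have u := (eV s).1.2 ⟨a₀, a₁, r₀.mono r₁, t₀.mono t₁, h.1⟩ z hs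
        have w := (eW s).2.2 ⟨b₀, b₁, r₀.mono r₂, t₀.mono t₂, h.2⟩ z hs
        simpa [u] using w
      · have u : z ∉ X := (eV s).2.2 ⟨a₀, a₁, r₀.mono r₁, t₀.mono t₁, h.1⟩ z hs
        have w := (eW s).1.2 ⟨b₀, b₁, r₀.mono r₂, t₀.mono t₂, h.2⟩ z hs
        simpa [u] using w
  refine ⟨fun k i h₀ h₁ => ∃ s a₀ a₁ b₀ b₁, mem (pr k i) s ∧
      ((V s 1 a₀ a₁ ∧ W s 0 b₀ b₁) ∨ (V s 0 a₀ a₁ ∧ W s 1 b₀ b₁)) ∧
      sub a₀ h₀ ∧ sub b₀ h₀ ∧ sub a₁ h₁ ∧ sub b₁ h₁, (by exact S1I.out), fun k => ?_⟩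
  rw [← key, ← key]
  simp [facts, pr_inj]

/-- The join is a least upper bound. -/
theorem red_join {X Y Z : Set M} (hX : Red X Z) (hY : Red Y Z) : Red (join X Y) Z := by
  obtain ⟨C, hC⟩ := hX.conf
  obtain ⟨D, hD⟩ := hY.conf
  have : S4 C := ⟨hC.s1⟩
  have : S4 D := ⟨hD.s1⟩
  obtain ⟨e, he⟩ := exists_empty (M := M)
  choose r hr using exists_row (M := M)
  have both : ∀ {k₁ k₀ l₁ l₀ : M}, Sub k₁ X → Sub k₀ Xᶜ → Sub l₁ Y → Sub l₀ Yᶜ →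
      ∃ a b, Sub a Z ∧ Sub b Zᶜ ∧ C k₁ k₀ a b ∧ D l₁ l₀ a b := by
    intro k₁ k₀ l₁ l₀ h1 h2 h3 h4
    obtain ⟨a, b, ha, hb, hc⟩ := hC.compl h1 h2
    obtain ⟨a', b', ha', hb', hd⟩ := hD.compl h3 h4
    obtain ⟨u, u0, u1, u2, -⟩ := union_sub ha ha'
    obtain ⟨w, w0, w1, w2, -⟩ := union_sub hb hb'
    exact ⟨u, w, u0, w0, hC.mono hc (sub_refl _) (sub_refl _) u1 w1,
      hD.mono hd (sub_refl _) (sub_refl _) u2 w2⟩
  refine Red.mk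
    (fun k a b => ∃ r₀ r₁, C r₀ e a b ∧ D r₁ e a b ∧
      ∀ z, mem z k → (∃ x, mem x r₀ ∧ z = pr 0 x) ∨ ∃ x, mem x r₁ ∧ z = pr 1 x)
    (fun k a b => ∃ r₀ r₁, C e r₀ a b ∧ D e r₁ a b ∧
      ∀ z, mem z k → (∀ x, x ≤ z → z = pr 0 x → mem x r₀) ∧ ∀ x, x ≤ z → z = pr 1 x → mem x r₁)
    (by exact S1I.out) (by exact S1I.out) (fun k => ⟨fun hk => ?_, ?_⟩) fun k => ⟨fun hk => ?_, ?_⟩
  · obtain ⟨a, b, ha, hb, hc, hd⟩ := both (k₁ := r 0 k) (k₀ := e) (l₁ := r 1 k) (l₀ := e)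
      (fun x hx => pr0_mem_join.1 (hk _ ((hr _ _ _).1 hx))) (sub_empty he _)
      (fun x hx => pr1_mem_join.1 (hk _ ((hr _ _ _).1 hx))) (sub_empty he _)
    refine ⟨a, b, ha, hb, r 0 k, r 1 k, hc, hd, fun z hz => ?_⟩
    rcases hk z hz with ⟨x, -, rfl⟩ | ⟨x, -, rfl⟩
    · exact Or.inl ⟨x, (hr _ _ _).2 hz, rfl⟩
    · exact Or.inr ⟨x, (hr _ _ _).2 hz, rfl⟩
  · rintro ⟨a, b, ha, hb, r₀, r₁, hc, hd, H⟩ z hz
    rcases H z hz with ⟨x, hx, rfl⟩ | ⟨x, hx, rfl⟩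
    · exact pr0_mem_join.2 ((hC.sound ha hb hc).1 x hx)
    · exact pr1_mem_join.2 ((hD.sound ha hb hd).1 x hx)
  · obtain ⟨a, b, ha, hb, hc, hd⟩ := both (k₁ := e) (k₀ := r 0 k) (l₁ := e) (l₀ := r 1 k)
      (sub_empty he _) (fun x hx hx' => hk _ ((hr _ _ _).1 hx) (pr0_mem_join.2 hx'))
      (sub_empty he _) (fun x hx hx' => hk _ ((hr _ _ _).1 hx) (pr1_mem_join.2 hx'))
    refine ⟨a, b, ha, hb, r 0 k, r 1 k, hc, hd, fun z hz => ⟨?_, ?_⟩⟩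
    · rintro x - rfl; exact (hr _ _ _).2 hz
    · rintro x - rfl; exact (hr _ _ _).2 hz
  · rintro ⟨a, b, ha, hb, r₀, r₁, hc, hd, H⟩ z hz (⟨x, hx, e'⟩ | ⟨x, hx, e'⟩)
    · exact (hC.sound ha hb hc).2 x ((H z hz).1 x (e' ▸ le_pr_right _ _) e') hx
    · exact (hD.sound ha hb hd).2 x ((H z hz).2 x (e' ▸ le_pr_right _ _) e') hx

/-- The condition `(k₁, k₀)` is confirmed by the condition `(p₁, p₀)` of the first component, by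
the information that the numbers up to `n` are standard and those from `c` on are not. -/
def Q (C : M → M → M → M → Prop) (k₁ k₀ p₁ p₀ n c : M) : Prop :=
  ∃ a b, C k₁ k₀ a b ∧
    (∀ z, mem z a → (∃ x, mem x p₁ ∧ z = pr 0 x) ∨ ∃ x, x ≤ n ∧ z = pr 1 x) ∧
    ∀ z, mem z b → (∀ x, x ≤ z → z = pr 0 x → mem x p₀) ∧ ∀ x, x ≤ z → z = pr 1 x → c ≤ x

section
variable {Z X : Set M} {C : M → M → M → M → Prop}

theorem Q.sound (hC : Conf Z (join X (omega M)) C) {k₁ k₀ p₁ p₀ n c : M} (h1 : Sub p₁ X)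
    (h0 : Sub p₀ Xᶜ) (hn : n ∈ omega M) (hc : c ∉ omega M) (h : Q C k₁ k₀ p₁ p₀ n c) :
    Sub k₁ Z ∧ Sub k₀ Zᶜ := by
  obtain ⟨a, b, h, ha, hb⟩ := h
  refine hC.sound (fun z hz => ?_) (fun z hz => ?_) h
  · rcases ha z hz with ⟨x, hx, rfl⟩ | ⟨x, hx, rfl⟩
    · exact pr0_mem_join.2 (h1 x hx)
    · exact pr1_mem_join.2 (std_of_le hx hn)
  · rintro (⟨x, hx, e⟩ | ⟨x, hx, e⟩)
    · exact h0 x ((hb z hz).1 x (e ▸ le_pr_right _ _) e) hx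
    · exact hc (std_of_le ((hb z hz).2 x (e ▸ le_pr_right _ _) e) hx)

theorem Q.compl (hS : Sat (Cardinal.aleph 1) M) (hC : Conf Z (join X (omega M)) C) {k₁ k₀ : M}
    (h1 : Sub k₁ Z) (h0 : Sub k₀ Zᶜ) : ∃ (n : ℕ) (p₁ p₀ c : M), Sub p₁ X ∧ Sub p₀ Xᶜ ∧
      c ∉ omega M ∧ Q C k₁ k₀ p₁ p₀ n c := by
  obtain ⟨a, b, ha, hb, h⟩ := hC.compl h1 h0
  choose r hr using exists_row (M := M)
  obtain ⟨n, hn, hn'⟩ := exists_max_bound (r 1 a)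
  obtain ⟨n, rfl⟩ : n ∈ omega M :=
    hn'.elim (fun h => ⟨0, by simp [h]⟩) fun h => pr1_mem_join.1 (ha _ ((hr _ _ _).1 h))
  obtain ⟨c, hc, hcs⟩ : ∃ c, (∀ x, mem x (r 1 b) → c ≤ x) ∧ c ∉ omega M := by
    by_cases hk' : ∃ x, mem x (r 1 b)
    · obtain ⟨x, hx⟩ := hk'
      obtain ⟨c, hc, hmin⟩ := exists_least (P := fun x => mem x (r 1 b)) (by exact ArI.out) hx
      exact ⟨c, hmin, fun h => hb _ ((hr _ _ _).1 hc) (pr1_mem_join.2 h)⟩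
    · obtain ⟨c, hc⟩ := hS.nonstd
      exact ⟨c, fun x hx => absurd ⟨x, hx⟩ hk', hc⟩
  refine ⟨n, r 0 a, r 0 b, c, fun x hx => pr0_mem_join.1 (ha _ ((hr _ _ _).1 hx)),
    fun x hx hx' => hb _ ((hr _ _ _).1 hx) (pr0_mem_join.2 hx'), hcs, a, b, h,
    fun z hz => ?_, fun z hz => ⟨?_, ?_⟩⟩
  · rcases ha z hz with ⟨x, -, rfl⟩ | ⟨x, -, rfl⟩
    · exact Or.inl ⟨x, (hr _ _ _).2 hz, rfl⟩
    · exact Or.inr ⟨x, hn x ((hr _ _ _).2 hz), rfl⟩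
  · rintro x - rfl; exact (hr _ _ _).2 hz
  · rintro x - rfl; exact hc x ((hr _ _ _).2 hz)

theorem Q.mono (hC : Conf Z (join X (omega M)) C) {k₁ k₀ p₁ p₀ n c k₁' k₀' p₁' p₀' n' c' : M}
    (h : Q C k₁ k₀ p₁ p₀ n c) (e1 : sub k₁' k₁) (e2 : sub k₀' k₀) (e3 : sub p₁ p₁')
    (e4 : sub p₀ p₀') (e5 : n ≤ n') (e6 : c' ≤ c) : Q C k₁' k₀' p₁' p₀' n' c' := by
  obtain ⟨a, b, h, ha, hb⟩ := h
  refine ⟨a, b, hC.mono h e1 e2 (sub_refl _) (sub_refl _), fun z hz => ?_, fun z hz =>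
    ⟨fun x hx e => e4 x ((hb z hz).1 x hx e), fun x hx e => e6.trans ((hb z hz).2 x hx e)⟩⟩
  rcases ha z hz with ⟨x, hx, rfl⟩ | ⟨x, hx, rfl⟩
  · exact Or.inl ⟨x, e3 x hx, rfl⟩
  · exact Or.inr ⟨x, hx.trans e5, rfl⟩

end

/-- Every set of natural numbers is the standard part of a coded set. -/
theorem exists_std_code (hS : Sat (Cardinal.aleph 1) M) (S : Set ℕ) :
    ∃ z : M, ∀ n : ℕ, mem (n : M) z ↔ n ∈ S := by
  classical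
  have := hS.seq (fun n z => mem (n : M) z ↔ n ∈ S)
    (fun n => (Ar.iff (by exact ArI.out) (Ar.const (n ∈ S)))) fun N => by
      obtain ⟨z, hz⟩ := exists_code_of_finite
        (((Set.finite_Iio N).inter_of_left S).image (Nat.cast : ℕ → M))
      refine ⟨z, fun n hn => (hz _).trans ⟨?_, fun h => ⟨n, ⟨hn, h⟩, rfl⟩⟩⟩
      rintro ⟨m, hm, e⟩
      obtain rfl : m = n := by exact_mod_cast e
      exact hm.2
  exact this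

/-- There is a set that is not below the join of a countably directed set with the standard
cut. -/
theorem exists_not_red (hS : Sat (Cardinal.aleph 1) M) :
    ∃ U : Set M, ∀ X, Dir X → ¬ Red U (join X (omega M)) := by
  classical
  choose z hz using exists_std_code hS
  refine ⟨Set.range z, fun X hX h => ?_⟩
  obtain ⟨C, hC⟩ := h.conf
  have : Ar4 C := ⟨hC.s1.ar⟩
  obtain ⟨e, he⟩ := exists_empty (M := M)
  choose s hs using exists_single (M := M)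
  have := fun S : Set ℕ => Q.compl hS hC (k₁ := s (z S)) (k₀ := e)
    (fun x hx => ⟨S, ((hs _ _).1 hx).symm⟩) (sub_empty he _)
  choose n p₁ p₀ c h1 h0 hc hq using this
  obtain ⟨N, hN⟩ : ∃ N, (n ⁻¹' {N}).Infinite := by
    by_contra hn
    push Not at hn
    have : (Set.univ : Set (Set ℕ)).Countable :=
      (Set.countable_iUnion fun N => (hn N).countable).mono fun S _ => Set.mem_iUnion.2 ⟨n S, rfl⟩
    have hU : Uncountable (Set ℕ) := by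
      rw [← Cardinal.aleph0_lt_mk_iff, Cardinal.mk_set_nat]
      exact Cardinal.aleph0_lt_continuum
    exact Set.not_countable_univ this
  let f := hN.natEmbedding
  obtain ⟨q₁, q₀, v₁, v₀, y₁, y₀⟩ := hX (fun i => p₁ (f i)) (fun i => p₀ (f i)) (fun i => h1 _)
    fun i => h0 _
  obtain ⟨d, hd⟩ := hS.seq (fun i x => (i : M) < x ∧ x ≤ c (f i)) (fun i => by exact ArI.out)
    fun K => ⟨K, fun i hi => ⟨by exact_mod_cast hi, le_of_nonstd (nat_std K) (hc _)⟩⟩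
  have hdn : d ∉ omega M := fun ⟨i, hi⟩ => absurd (hd i).1 (by rw [hi]; exact lt_irrefl d)
  obtain ⟨t, ht, H⟩ := overspill hS.nonstd
    (P := fun t => ∃ x y u w, mem x u ∧ mem y w ∧ Q C u e q₁ q₀ N d ∧ Q C w e q₁ q₀ N d ∧
      x ≠ y ∧ ∀ i, i < t → (mem i x ↔ mem i y)) (by unfold Q; exact ArI.out) fun K => by
      obtain ⟨i, j, hij, hf⟩ := Finite.exists_ne_map_eq_of_infinite
        fun (i : ℕ) (k : Fin K) => (k : ℕ) ∈ (f i : Set ℕ)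
      have hQ : ∀ i, Q C (s (z (f i))) e q₁ q₀ N d := fun i =>
        (hq (f i)).mono hC (sub_refl _) (sub_refl _) (y₁ i) (y₀ i)
          (by rw [show n (f i) = N from (f i).2]) (hd i).2
      refine ⟨z (f i), z (f j), _, _, (hs _ _).2 rfl, (hs _ _).2 rfl, hQ i, hQ j, fun e' => ?_,
        fun k hk => ?_⟩
      · refine hij (f.injective (Subtype.ext (Set.ext fun k => ?_)))
        rw [← hz, ← hz, e']
      · obtain ⟨k, hk', rfl⟩ := exists_nat_of_lt hk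
        rw [hz, hz]
        exact iff_of_eq (congrFun hf ⟨k, hk'⟩)
  obtain ⟨x, y, u, w, hx, hy, hu, hw, hxy, hi⟩ := H t le_rfl
  obtain ⟨S, rfl⟩ := (hu.sound hC v₁ v₀ (nat_std N) hdn).1 x hx
  obtain ⟨T, rfl⟩ := (hw.sound hC v₁ v₀ (nat_std N) hdn).1 y hy
  refine hxy (congrArg z (Set.ext fun k => ?_))
  rw [← hz, ← hz]
  exact hi k (lt_of_le_of_ne (le_of_nonstd (nat_std k) ht) fun e' => ht (e' ▸ nat_std k))

theorem dir_of_not_red (hS : Sat (Cardinal.aleph 1) M) {X : Set M} (h : ¬ Red (omega M) X) :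
    Dir X := by_contra fun h' => h (red_omega_of_not_dir hS h')

end Pool.Agent.MP_6072c5_lc.U71
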