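import Mathlib

/-!
Models of Peano arithmetic, `M`-finite sets, Turing reducibility between arbitrary subsets of a
model, and the partial order of degrees.

A formula is given by the relation it defines on assignments `v : ℕ → M`; parameters from `M`
are allowed as constants.
-/

namespace Pool.Agent.MP_6072c5_lc.U71

universe u

variable {M : Type u} [CommSemiring M] [LinearOrder M]

/-- The assignment with value `x` at variable `0` and `v n` at variable `n + 1`. -/
def cons (x : M) (v : ℕ → M) : ℕ → M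
  | 0 => x
  | n + 1 => v n

/-- Terms of arithmetic with parameters from `M`. -/
inductive Tm : ((ℕ → M) → M) → Prop
  | var (i : ℕ) : Tm fun v => v i
  | const (c : M) : Tm fun _ => c
  | add {s t} : Tm s → Tm t → Tm fun v => s v + t v
  | mul {s t} : Tm s → Tm t → Tm fun v => s v * t v

/-- Relations defined by first-order formulas of arithmetic with parameters. -/
inductive Ar : ((ℕ → M) → Prop) → Prop
  | eq {s t} : Tm s → Tm t → Ar fun v => s v = t v
  | lt {s t} : Tm s → Tm t → Ar fun v => s v < t v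
  | not {P} : Ar P → Ar fun v => ¬ P v
  | and {P Q} : Ar P → Ar Q → Ar fun v => P v ∧ Q v
  | ex {P} : Ar P → Ar fun v => ∃ x, P (cons x v)

/-- Relations defined by bounded (`Δ₀`) formulas with parameters. -/
inductive D0 : ((ℕ → M) → Prop) → Prop
  | eq {s t} : Tm s → Tm t → D0 fun v => s v = t v
  | lt {s t} : Tm s → Tm t → D0 fun v => s v < t v
  | not {P} : D0 P → D0 fun v => ¬ P v
  | and {P Q} : D0 P → D0 Q → D0 fun v => P v ∧ Q v
  | bex {t P} : Tm t → D0 P → D0 fun v => ∃ x < t v, P (cons x v)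

/-- Relations defined by `Σ₁` formulas with parameters. -/
inductive S1 : ((ℕ → M) → Prop) → Prop
  | d0 {P} : D0 P → S1 P
  | ex {P} : S1 P → S1 fun v => ∃ x, P (cons x v)

/-- `M` is a model of Peano arithmetic: the axioms of `PA⁻` (a discretely ordered commutative
semiring with least element `0` in which `x ≤ y` gives `x + z = y`) and induction for every
formula with parameters. -/
class IsPA (M : Type u) [CommSemiring M] [LinearOrder M] : Prop extends IsStrictOrderedRing M where
  nonneg : ∀ x : M, 0 ≤ x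
  discrete : ∀ x : M, 0 < x → 1 ≤ x
  sub : ∀ x y : M, x ≤ y → ∃ z, x + z = y
  ind : ∀ P : M → Prop, Ar (fun v => P (v 0)) → P 0 → (∀ x, P x → P (x + 1)) → ∀ x, P x

/-- `κ`-saturation: a family of fewer than `κ` definable subsets of `M` with the finite
intersection property has a common element. -/
def Sat (κ : Cardinal.{u}) (M : Type u) [CommSemiring M] [LinearOrder M] : Prop :=
  ∀ (ι : Type u) (S : ι → M → Prop), Cardinal.mk ι < κ → (∀ i, Ar fun v => S i (v 0)) →
    (∀ F : Finset ι, ∃ x, ∀ i ∈ F, S i x) → ∃ x, ∀ i, S i x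

/-- A pairing function. -/
def pr (x y : M) : M := (x + y) * (x + y) + x

/-- `x` belongs to the `M`-finite set coded by `k` (Gödel's coding by remainders). -/
def mem (x k : M) : Prop :=
  ∃ c d n, k = pr c (pr d n) ∧ x < n ∧ 1 + (x + 1) * d ∣ c

/-- The `M`-finite set coded by `k` is a subset of `A`. -/
def Sub (k : M) (A : Set M) : Prop := ∀ x, mem x k → x ∈ A

/-- Turing reducibility `A ≤_T B` between arbitrary subsets of `M`. -/
def Red (A B : Set M) : Prop :=
  ∃ W : M → M → M → M → Prop, S1 (fun v => W (v 0) (v 1) (v 2) (v 3)) ∧ ∀ k,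
    (Sub k A ↔ ∃ h₀ h₁, Sub h₀ B ∧ Sub h₁ Bᶜ ∧ W k 1 h₀ h₁) ∧
    (Sub k Aᶜ ↔ ∃ h₀ h₁, Sub h₀ B ∧ Sub h₁ Bᶜ ∧ W k 0 h₀ h₁)

/-- The Turing degrees of all subsets of `M`. -/
def Deg (M : Type u) [CommSemiring M] [LinearOrder M] : Type u :=
  Quot fun A B : Set M => Red A B ∧ Red B A

/-- The degree of a set. -/
def deg (A : Set M) : Deg M := Quot.mk _ A

instance : LE (Deg M) := ⟨fun a b => ∃ A B, a = deg A ∧ b = deg B ∧ Red A B⟩

/-- `b` is a minimal cover of `a`. -/
def MinCover (a b : Deg M) : Prop := a ≤ b ∧ a ≠ b ∧ ∀ c, a ≤ c → c ≤ b → c = a ∨ c = b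

/-- The standard cut. -/
def omega (M : Type u) [CommSemiring M] : Set M := Set.range (Nat.cast : ℕ → M)

end Pool.Agent.MP_6072c5_lc.U71
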