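import Pool.Agent.MP_6072c5_lc.U71.Force

/-! Definability of the basic relations; lists of clauses. -/

set_option linter.unusedSectionVars false
set_option synthInstance.maxSize 100000

namespace Pool.Agent.MP_6072c5_lc.U71

universe u

variable {M : Type u} [CommSemiring M] [LinearOrder M] [IsPA M]

/-- a bounded unary relation -/
class D1 (W : M → Prop) : Prop where out : D0 fun v => W (v 0)
/-- a bounded binary relation -/
class D2 (W : M → M → Prop) : Prop where out : D0 fun v => W (v 0) (v 1)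
/-- a bounded ternary relation -/
class D3 (W : M → M → M → Prop) : Prop where out : D0 fun v => W (v 0) (v 1) (v 2)
/-- a bounded four-place relation -/
class D4 (W : M → M → M → M → Prop) : Prop where out : D0 fun v => W (v 0) (v 1) (v 2) (v 3)

theorem tm4 {a b c d : (ℕ → M) → M} (ha : Tm a) (hb : Tm b) (hc : Tm c) (hd : Tm d) :
    ∀ i, Tm ((fun i : ℕ => match i with | 0 => a | 1 => b | 2 => c | _ => d) i)
  | 0 => ha
  | 1 => hb
  | 2 => hc
  | _ + 3 => hd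

section
variable {a b c d : (ℕ → M) → M}

instance (priority := 50) {W} [h : D1 W] [a1 : TmI a] : D0I fun v => W (a v) :=
  ⟨h.out.subst (tm4 a1.out a1.out a1.out a1.out)⟩
instance (priority := 55) {W} [h : D2 W] [a1 : TmI a] [a2 : TmI b] :
    D0I fun v => W (a v) (b v) := ⟨h.out.subst (tm4 a1.out a2.out a1.out a1.out)⟩
instance (priority := 60) {W} [h : D3 W] [a1 : TmI a] [a2 : TmI b] [a3 : TmI c] :
    D0I fun v => W (a v) (b v) (c v) := ⟨h.out.subst (tm4 a1.out a2.out a3.out a1.out)⟩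
instance (priority := 65) {W} [h : D4 W] [a1 : TmI a] [a2 : TmI b] [a3 : TmI c] [a4 : TmI d] :
    D0I fun v => W (a v) (b v) (c v) (d v) := ⟨h.out.subst (tm4 a1.out a2.out a3.out a4.out)⟩
end

instance {W : M → Prop} [h : D1 W] : Ar1 W := ⟨h.out.ar⟩
instance {W : M → M → Prop} [h : D2 W] : Ar2 W := ⟨h.out.ar⟩
instance {W : M → M → M → Prop} [h : D3 W] : Ar3 W := ⟨h.out.ar⟩
instance {W : M → M → M → M → Prop} [h : D4 W] : Ar4 W := ⟨h.out.ar⟩

instance (i : Bool) : D1 (prt (M := M) i) := by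
  refine ⟨?_⟩
  unfold prt
  exact D0.iff D0I.out (D0.const _)

instance : D3 (wat (M := M)) := ⟨by unfold wat; exact D0I.out⟩

theorem le_pr_l {a b c : M} (h : c = pr a b) : a ≤ c := h ▸ le_pr_left _ _
theorem le_pr_r {a b c : M} (h : c = pr a b) : b ≤ c := h ▸ le_pr_right _ _

instance : D3 (Catch (M := M)) := by
  refine ⟨D0.congr (P := fun v => (∃ g, g ≤ v 0 ∧ v 0 = pr 0 g ∧ wat g (v 1) (v 2)) ∨
    ∃ t, t ≤ v 0 ∧ ∃ Y, Y ≤ v 0 ∧ v 0 = pr 1 (pr (pr t Y) (v 2)) ∧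
      ¬ ((∀ y, mem (pr t y) (v 1) → mem y Y) ∧ ∀ y, mem y Y → mem (pr t y) (v 1)))
    (by exact D0I.out) fun v => or_congr ?_ ?_⟩
  · exact ⟨fun ⟨g, _, h⟩ => ⟨g, h⟩, fun ⟨g, h⟩ => ⟨g, le_pr_r h.1, h⟩⟩
  · constructor
    · rintro ⟨t, -, Y, -, h, h'⟩
      exact ⟨t, Y, h, fun H => h' ⟨fun y => (H y).1, fun y => (H y).2⟩⟩
    · rintro ⟨t, Y, h, h'⟩
      have h1 : pr t Y ≤ v 0 := (le_pr_left _ _).trans (le_pr_r h)
      exact ⟨t, (le_pr_left _ _).trans h1, Y, (le_pr_right _ _).trans h1, h,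
        fun H => h' fun y => ⟨H.1 y, H.2 y⟩⟩

theorem Catch.le {c z u : M} (h : Catch c z u) : u ≤ c := by
  rcases h with ⟨g, h1, h2⟩ | ⟨t, Y, h1, -⟩
  · exact ((le_pr_right _ _).trans (lt_of_mem h2.1).le).trans (le_pr_r h1)
  · exact (le_pr_right _ _).trans (le_pr_r h1)

instance : D4 (Hit (M := M)) := by
  refine ⟨D0.congr (P := fun v => ∃ x, x ≤ v 0 ∧ ∃ c, c ≤ v 0 ∧ v 0 = pr x (pr (v 2) c) ∧
    Catch c (v 1) (v 3)) (by exact D0I.out) fun v => ?_⟩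
  exact ⟨fun ⟨x, _, c, _, h⟩ => ⟨x, c, h⟩, fun ⟨x, c, h⟩ =>
    ⟨x, le_pr_l h.1, c, (le_pr_right _ _).trans (le_pr_r h.1), h⟩⟩

theorem Hit.le {y z l u : M} (h : Hit y z l u) : l ≤ y ∧ u ≤ y := by
  obtain ⟨x, c, h1, h2⟩ := h
  exact ⟨(le_pr_left _ _).trans (le_pr_r h1), h2.le.trans ((le_pr_right _ _).trans (le_pr_r h1))⟩

instance : D2 (Cat (M := M)) := by
  refine ⟨D0.congr (P := fun v => ∃ l, l ≤ v 0 ∧ ∃ u, u ≤ v 0 ∧ Hit (v 0) (v 1) l u)
    (by exact D0I.out) fun v => ?_⟩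
  exact ⟨fun ⟨l, _, u, _, h⟩ => ⟨l, u, h⟩, fun ⟨l, u, h⟩ => ⟨l, h.le.1, u, h.le.2, h⟩⟩

instance : D2 (Wm (M := M)) := ⟨by unfold Wm; exact D0I.out⟩

instance : D4 (Lab (M := M)) := ⟨by unfold Lab; exact D0I.out⟩

theorem Lab.lt {s z l u : M} (h : Lab s z l u) : l < s ∧ u < s := by
  obtain ⟨y, h1, h2, -⟩ := h
  exact ⟨h2.le.1.trans_lt (lt_of_mem h1), h2.le.2.trans_lt (lt_of_mem h1)⟩

instance : D3 (Wv (M := M)) := by
  refine ⟨D0.congr (P := fun v => ∃ d, d ≤ v 0 ∧ ∃ μ, μ ≤ v 0 ∧ ∃ q, q ≤ v 0 ∧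
    v 0 = pr d (pr μ q) ∧ ((v 1 ≤ μ ∧ wat d (v 1) (v 2)) ∨ (μ < v 1 ∧ wat d μ (v 2))))
    (by exact D0I.out) fun v => ?_⟩
  exact ⟨fun ⟨d, _, μ, _, q, _, h⟩ => ⟨d, μ, q, h⟩, fun ⟨d, μ, q, h⟩ =>
    ⟨d, le_pr_l h.1, μ, (le_pr_left _ _).trans (le_pr_r h.1), q,
      (le_pr_right _ _).trans (le_pr_r h.1), h⟩⟩

instance : Ar2 (EE (M := M)) := ⟨by unfold EE; exact ArI.out⟩

instance : Ar1 (Good (M := M)) := ⟨by unfold Good; exact ArI.out⟩

instance : D2 (Agree (M := M)) := by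
  refine ⟨D0.congr (P := fun v => ∀ z, z ≤ v 0 → ∀ u, mem (pr z u) (v 0) →
    ∀ u', mem (pr z u') (v 1) → u = u') (by exact D0I.out) fun v => ?_⟩
  exact ⟨fun H z u u' h h' => H z ((le_pr_left _ _).trans (lt_of_mem h).le) u h u' h',
    fun H z _ u h u' h' => H z u u' h h'⟩

theorem bn_inj {a b : Bool} (h : (bn a : M) = bn b) : a = b := by
  cases a <;> cases b <;> simp [bn] at h ⊢

theorem lit_inj {l l' : Lit M} (h : lit l = lit l') : l = l' := by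
  obtain ⟨v, a, b⟩ := l
  obtain ⟨v', a', b'⟩ := l'
  simp only [lit, pr_inj] at h
  rw [h.1, bn_inj h.2.1, bn_inj h.2.2]

theorem wat_unique {d n u u' : M} (h : wat d n u) (h' : wat d n u') : u = u' :=
  le_antisymm (not_lt.1 fun hl => h.2 _ hl h'.1) (not_lt.1 fun hl => h'.2 _ hl h.1)

theorem exists_wat {d n u : M} (h : mem (pr n u) d) : ∃ u', wat d n u' := by
  obtain ⟨c, hc, hmin⟩ := exists_least (P := fun x => mem (pr n x) d) (by exact ArI.out) h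
  exact ⟨c, hc, fun u' hl hm => absurd (hmin u' hm) (not_le.2 hl)⟩

theorem nat_lt_of_nonstd {c : M} (hc : c ∉ omega M) (n : ℕ) : (n : M) < c :=
  lt_of_le_of_ne (le_of_nonstd (nat_std n) hc) fun h => hc (h ▸ nat_std n)

theorem prt_not {i : Bool} {z : M} : prt (!i) z ↔ ¬ prt i z := by
  cases i <;> simp [prt]

theorem IsFact.unique {l : Lit M} {j G j' G' : M} (h : IsFact l j G) (h' : IsFact l j' G') :
    j = j' ∧ G = G' := by
  obtain ⟨-, q, b, rfl⟩ := h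
  obtain ⟨-, q', b', e⟩ := h'
  simp only [Prod.mk.injEq, pr_inj] at e
  exact ⟨e.1.1, e.1.2.1⟩

theorem IsFact.not_col {y j G : M} {c : Bool × Bool} : ¬ IsFact (pr 0 y, c) j G := by
  rintro ⟨hj, q, b, e⟩
  simp only [Prod.mk.injEq, pr_inj] at e
  exact hj e.1.1.symm

theorem IsFact.not_neg {v j G : M} {b : Bool} : ¬ IsFact (v, b, b) j G := by
  rintro ⟨-, q, b', e⟩
  simp only [Prod.mk.injEq] at e
  obtain ⟨-, rfl, e⟩ := e
  cases b <;> simp at e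

theorem IsFact.key_ne {l : Lit M} {j G y : M} (h : IsFact l j G) : l.1 ≠ pr 0 y := by
  obtain ⟨hj, q, b, rfl⟩ := h
  exact fun e => hj (pr_inj.1 e).1

/-! ### Lists of clauses -/

section clauses
variable {s s' s'' z l l' u u' c y j g t Y : M} {n n' : ℕ}

theorem catch_fun : Catch (pr 0 g) z u ↔ wat g z u := by
  constructor
  · rintro (⟨g', e, h⟩ | ⟨t, Y, e, -⟩)
    · exact (pr_inj.1 e).2 ▸ h
    · exact absurd (pr_inj.1 e).1 zero_ne_one
  · exact fun h => Or.inl ⟨g, rfl, h⟩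

theorem catch_row {a : M} :
    Catch (pr 1 (pr (pr t Y) a)) z u ↔ u = a ∧ ¬ ∀ w, say t z w ↔ mem w Y := by
  constructor
  · rintro (⟨g', e, h⟩ | ⟨t', Y', e, h⟩)
    · exact absurd (pr_inj.1 e).1 one_ne_zero
    · simp only [pr_inj, true_and] at e
      obtain ⟨⟨rfl, rfl⟩, rfl⟩ := e
      exact ⟨rfl, h⟩
  · rintro ⟨rfl, h⟩
    exact Or.inr ⟨t, Y, rfl, h⟩

theorem Catch.unique (h : Catch c z u) (h' : Catch c z u') : u = u' := by
  rcases h with ⟨g, rfl, h⟩ | ⟨t, Y, rfl, -⟩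
  · exact wat_unique h (catch_fun.1 h')
  · exact (catch_row.1 h').1.symm

theorem hit_iff {x : M} : Hit (pr x (pr l c)) z l' u ↔ l' = l ∧ Catch c z u := by
  constructor
  · rintro ⟨x', c', e, h⟩
    simp only [pr_inj] at e
    obtain ⟨-, rfl, rfl⟩ := e
    exact ⟨rfl, h⟩
  · rintro ⟨rfl, h⟩
    exact ⟨x, c, rfl, h⟩

theorem Hit.unique (h : Hit y z l u) (h' : Hit y z l' u') : l = l' ∧ u = u' := by
  obtain ⟨x, c, rfl, h⟩ := h
  obtain ⟨h1, h2⟩ := hit_iff.1 h'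
  exact ⟨h1.symm, h.unique h2⟩

theorem Lab.unique (h : Lab s z l u) (h' : Lab s z l' u') : l = l' ∧ u = u' := by
  obtain ⟨y, a1, a2, a3⟩ := h
  obtain ⟨y', b1, b2, b3⟩ := h'
  rcases lt_trichotomy y y' with e | rfl | e
  · exact absurd ⟨l, u, a2⟩ (b3 y e a1)
  · exact a2.unique b2
  · exact absurd ⟨l', u', b2⟩ (a3 y' e b1)

theorem Lab.not_wm (h : Lab s z l u) : ¬ Wm s z := fun hw => by
  obtain ⟨y, a1, a2, -⟩ := h
  exact hw y a1 ⟨l, u, a2⟩

theorem wm_or_lab (s z : M) : Wm s z ∨ ∃ l u, Lab s z l u := by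
  by_cases h : ∃ y, mem y s ∧ Cat y z
  · obtain ⟨y, hy⟩ := h
    obtain ⟨y, ⟨h1, l, u, h2⟩, hmin⟩ :=
      exists_least (P := fun y => mem y s ∧ Cat y z) (by exact ArI.out) hy
    exact Or.inr ⟨l, u, y, h1, h2, fun y' hl a b => absurd (hmin y' ⟨a, b⟩) (not_le.2 hl)⟩
  · exact Or.inl fun y h1 h2 => h ⟨y, h1, h2⟩

theorem EE.refl (s : M) : EE s s := ⟨fun _ h => h, fun _ h => Or.inl h⟩

theorem EE.trans (h : EE s s') (h' : EE s' s'') : EE s s'' :=
  ⟨fun y hy => h'.1 y (h.1 y hy), fun y hy => (h'.2 y hy).elim (h.2 y)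
    fun H => Or.inr fun y' hy' => H y' (h.1 y' hy')⟩

theorem Lab.ee (h : Lab s z l u) (he : EE s s') : Lab s' z l u := by
  obtain ⟨y, a1, a2, a3⟩ := h
  exact ⟨y, he.1 y a1, a2, fun y' hl hy => (he.2 y' hy).elim (a3 y' hl)
    fun H => absurd (H y a1) (not_lt.2 hl.le)⟩

theorem Wm.anti (h : Wm s' z) (he : EE s s') : Wm s z := fun y hy => h y (he.1 y hy)

theorem Lab.back (h : Lab s' z l u) (he : EE s s') : Wm s z ∨ Lab s z l u := by
  refine (wm_or_lab s z).imp_right ?_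
  rintro ⟨l', u', h'⟩
  obtain ⟨rfl, rfl⟩ := (h'.ee he).unique h
  exact h'

theorem wv_iff {d μ q : M} :
    Wv (pr d (pr μ q)) l u ↔ (l ≤ μ ∧ wat d l u) ∨ (μ < l ∧ wat d μ u) := by
  constructor
  · rintro ⟨d', μ', q', e, h⟩
    simp only [pr_inj] at e
    obtain ⟨rfl, rfl, -⟩ := e
    exact h
  · exact fun h => ⟨d, μ, q, rfl, h⟩

theorem Wv.unique (h : Wv j l u) (h' : Wv j l u') : u = u' := by
  obtain ⟨d, μ, q, rfl, h⟩ := h
  rcases h with h | h <;> rcases wv_iff.1 h' with h' | h'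
  · exact wat_unique h.2 h'.2
  · exact absurd h'.1 (not_lt.2 h.1)
  · exact absurd h.1 (not_lt.2 h'.1)
  · exact wat_unique h.2 h'.2

theorem Val.unique (h : Val j s n z u) (h' : Val j s n' z u') : u = u' := by
  obtain ⟨l, a, h1, h2⟩ := h
  obtain ⟨l', a', h1', h2'⟩ := h'
  obtain ⟨rfl, rfl⟩ := h1.unique h1'
  rcases h2 with h2 | h2 <;> rcases h2' with h2' | h2'
  · exact h2.2.trans h2'.2.symm
  · exact absurd (std_of_le h2.1 (nat_std _)) h2'.1
  · exact absurd (std_of_le h2'.1 (nat_std _)) h2.1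
  · exact h2.2.unique h2'.2

theorem Val.not_wm (h : Val j s n z u) : ¬ Wm s z := by
  obtain ⟨l, a, h1, -⟩ := h
  exact h1.not_wm

theorem Val.ee (h : Val j s n z u) (he : EE s s') : Val j s' n z u := by
  obtain ⟨l, a, h1, h2⟩ := h
  exact ⟨l, a, h1.ee he, h2⟩

theorem Val.mono (h : Val j s n z u) (hn : n ≤ n') : Val j s n' z u := by
  obtain ⟨l, a, h1, h2⟩ := h
  exact ⟨l, a, h1, h2.imp_left fun h => ⟨h.1.trans (Nat.cast_le.2 hn), h.2⟩⟩

theorem Val.back (h : Val j s' n z u) (he : EE s s') : Wm s z ∨ Val j s n z u := by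
  obtain ⟨l, a, h1, h2⟩ := h
  exact (h1.back he).imp_right fun h => ⟨l, a, h, h2⟩

theorem Lab.val (h : Lab s z (n : M) u) : Val j s n z u := ⟨_, u, h, Or.inl ⟨le_rfl, rfl⟩⟩

theorem exists_snoc (s l c : M) : ∃ s', Snoc s l c s' := by
  obtain ⟨a, ha⟩ := exists_single (pr s (pr l c))
  obtain ⟨s', hs⟩ := exists_union s a
  exact ⟨s', s, fun w => by rw [hs, ha], fun w hw => (lt_of_mem hw).trans_le (le_pr_left _ _)⟩

theorem Snoc.ee (h : Snoc s l c s') : EE s s' := by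
  obtain ⟨x, h1, h2⟩ := h
  refine ⟨fun y hy => (h1 y).2 (Or.inl hy), fun y hy => ((h1 y).1 hy).imp_right ?_⟩
  rintro rfl
  exact h2

theorem Snoc.lab (h : Snoc s l c s') (hw : Wm s z) (hc : Catch c z u) : Lab s' z l u := by
  obtain ⟨x, h1, h2⟩ := h
  refine ⟨_, (h1 _).2 (Or.inr rfl), hit_iff.2 ⟨rfl, hc⟩, fun y' hl hy => ?_⟩
  rcases (h1 y').1 hy with hy | rfl
  · exact hw y' hy
  · exact absurd hl (lt_irrefl _)

theorem Snoc.wm (h : Snoc s l c s') (hw : Wm s z) (hc : ∀ u, ¬ Catch c z u) : Wm s' z := by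
  obtain ⟨x, h1, h2⟩ := h
  intro y hy
  rcases (h1 y).1 hy with hy | rfl
  · exact hw y hy
  · exact fun ⟨_, u, h⟩ => hc u (hit_iff.1 h).2

theorem Snoc.cases (h : Snoc s l c s') (hw : Wm s z) :
    (Wm s' z ∧ ∀ u, ¬ Catch c z u) ∨ ∃ u, Catch c z u ∧ Lab s' z l u := by
  by_cases hc : ∃ u, Catch c z u
  · obtain ⟨u, hu⟩ := hc
    exact Or.inr ⟨u, hu, h.lab hw hu⟩
  · exact Or.inl ⟨h.wm hw fun u hu => hc ⟨u, hu⟩, fun u hu => hc ⟨u, hu⟩⟩

theorem Snoc.good_fun (h : Snoc s l (pr 0 g) s') (hg : Good s) : Good s' := by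
  obtain ⟨x, h1, -⟩ := h
  have key : ∀ x l a, mem (pr x (pr l (pr 1 a))) s' → mem (pr x (pr l (pr 1 a))) s :=
    fun x l a h => ((h1 _).1 h).resolve_right fun e =>
      one_ne_zero (pr_inj.1 (pr_inj.1 (pr_inj.1 e).2).2).1
  exact fun x l t Y u h => ⟨(hg x l t Y u (key _ _ _ h)).1,
    fun x' l' Y' u' h' => (hg x l t Y u (key _ _ _ h)).2 x' l' Y' u' (key _ _ _ h')⟩

theorem Snoc.fresh_fun (h : Snoc s l (pr 0 g) s') (hg : Fresh s t) : Fresh s' t := by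
  obtain ⟨x, h1, -⟩ := h
  exact ⟨hg.1, fun x l Y u h => ((h1 _).1 h).elim (hg.2 x l Y u) fun e =>
    one_ne_zero (pr_inj.1 (pr_inj.1 (pr_inj.1 e).2).2).1⟩

theorem Snoc.good_row {a : M} (h : Snoc s l (pr 1 (pr (pr t Y) a)) s') (hg : Good s)
    (ht : Fresh s t) : Good s' := by
  obtain ⟨x, h1, -⟩ := h
  intro x₁ l₁ t₁ Y₁ u₁ a1
  rcases (h1 _).1 a1 with a1 | a1
  · refine ⟨(hg _ _ _ _ _ a1).1, fun x' l' Y' u' a2 => ?_⟩
    rcases (h1 _).1 a2 with a2 | a2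
    · exact (hg _ _ _ _ _ a1).2 _ _ _ _ a2
    · simp only [pr_inj] at a2
      exact absurd (a2.2.2.2.1.1 ▸ a1) (ht.2 _ _ _ _)
  · simp only [pr_inj] at a1
    obtain ⟨-, -, -, ⟨rfl, rfl⟩, -⟩ := a1
    refine ⟨ht.1, fun x' l' Y' u' a2 => ?_⟩
    rcases (h1 _).1 a2 with a2 | a2
    · exact absurd a2 (ht.2 _ _ _ _)
    · simp only [pr_inj] at a2
      exact a2.2.2.2.1.2.symm

theorem fresh_succ (s : M) : Fresh s (s + 1) := by
  refine ⟨(lt_succ_iff.2 (IsPA.nonneg s)).ne', fun x l Y u h => ?_⟩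
  have := (((((le_pr_left _ _).trans (le_pr_left _ _)).trans (le_pr_right _ _)).trans
    (le_pr_right _ _)).trans (le_pr_right _ _)).trans_lt (lt_of_mem h)
  exact absurd (lt_add_one s) (not_lt.2 this.le)

theorem wat_of_agree (hg : Agree g g) (h : ap g z u) : wat g z u :=
  ⟨h, fun u' hl h' => hl.ne (hg z u' u h' h)⟩

section fits
variable {W W' : M → Prop} {G G' H : M}

theorem Fits.w (h : Fits j s G) : FitsW W j s G := h.imp fun _ h z u ha => Or.inr (h z u ha)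

theorem FitsW.fits (h : FitsW W j s G) (hW : ∀ z u, ap G z u → ¬ W z) : Fits j s G :=
  h.imp fun _ h z u ha => (h z u ha).resolve_left (hW z u ha)

theorem FitsW.mono (h : FitsW W j s G) (hW : ∀ z u, ap G z u → W z → W' z) (he : EE s s') :
    FitsW W' j s' G := h.imp fun _ h z u ha => (h z u ha).imp (hW z u ha) fun h => h.ee he

theorem Fits.ee (h : Fits j s G) (he : EE s s') : Fits j s' G :=
  h.imp fun _ h z u ha => (h z u ha).ee he

theorem FitsW.sub (h : FitsW W j s G) (hG : ∀ z a, ap G' z a → ap G z a) : FitsW W j s G' :=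
  h.imp fun _ h z u ha => h z u (hG z u ha)

theorem Fits.sub (h : Fits j s G) (hG : ∀ z a, ap G' z a → ap G z a) : Fits j s G' :=
  h.imp fun _ h z u ha => h z u (hG z u ha)

theorem FitsW.of_all (h : ∀ z u, ap G z u → W z) : FitsW W j s G :=
  ⟨0, fun z u ha => Or.inl (h z u ha)⟩

theorem FitsW.union (h : FitsW W j s G) (h' : FitsW W j s G')
    (hH : ∀ z a, ap H z a → ap G z a ∨ ap G' z a) : FitsW W j s H := by
  obtain ⟨n, h⟩ := h
  obtain ⟨n', h'⟩ := h'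
  exact ⟨max n n', fun z u ha => (hH z u ha).elim
    (fun ha => (h z u ha).imp_right fun h => h.mono (le_max_left _ _))
    fun ha => (h' z u ha).imp_right fun h => h.mono (le_max_right _ _)⟩

theorem Fits.agree (h : Fits j s G) (h' : Fits j s H) : Agree G H := by
  obtain ⟨n, h⟩ := h
  obtain ⟨n', h'⟩ := h'
  exact fun z u u' a b => (h z u a).unique (h' z u' b)

/-- a clause given by a function that extends `G` on the free part -/
theorem FitsW.snoc (h : FitsW (Wm s) j s G) (hs : Snoc s (n : M) (pr 0 g) s')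
    (hg : ∀ z u, ap G z u → Wm s z → wat g z u) : Fits j s' G := by
  obtain ⟨n', h⟩ := h
  refine ⟨max n n', fun z u ha => (h z u ha).elim (fun hw => ?_) fun h =>
    (h.ee hs.ee).mono (le_max_right _ _)⟩
  exact (hs.lab hw (catch_fun.2 (hg z u ha hw))).val.mono (le_max_left _ _)

end fits

end clauses

end Pool.Agent.MP_6072c5_lc.U71
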