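import Pool.Agent.MP_6072c5_lc.U71.SatL

/-! The reading procedure is a reduction. -/

set_option linter.unusedSectionVars false
set_option synthInstance.maxSize 100000

namespace Pool.Agent.MP_6072c5_lc.U71

open Cardinal

universe u v

variable {M : Type u} [CommSemiring M] [LinearOrder M] [IsPA M]

/-- normal form of `Σ₁` relations with a monotone bounded matrix -/
theorem s1_nf {P : (ℕ → M) → Prop} (h : S1 P) : ∃ Q : M → (ℕ → M) → Prop,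
    (D0 fun w => Q (w 0) fun i => w (i + 1)) ∧ (∀ s s' v, s ≤ s' → Q s v → Q s' v) ∧
      ∀ v, P v ↔ ∃ s, Q s v := by
  induction h with
  | @d0 P h => exact ⟨fun _ v => P v, h.shift, fun _ _ _ _ h => h, fun v => ⟨fun h => ⟨0, h⟩,
      fun ⟨_, h⟩ => h⟩⟩
  | ex _ ih =>
    obtain ⟨Q, h1, h2, h3⟩ := ih
    refine ⟨fun s v => ∃ x, x ≤ s ∧ Q s (cons x v), D0.bexle (Tm.var 0) ?_,
      fun s s' v hs ⟨x, hx, h⟩ => ⟨x, hx.trans hs, h2 _ _ _ hs h⟩, fun v => ?_⟩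
    · refine (h1.subst (t := fun i w => match i with | 0 => w 1 | 1 => w 0 | i + 2 => w (i + 2))
        fun i => match i with | 0 => Tm.var 1 | 1 => Tm.var 0 | i + 2 => Tm.var (i + 2)).congr
        fun v => ?_
      refine iff_of_eq (congrArg (Q (v 1)) (funext fun i => ?_))
      cases i <;> rfl
    · constructor
      · rintro ⟨x, hx⟩
        obtain ⟨s, hs⟩ := (h3 _).1 hx
        exact ⟨max s x, x, le_max_right _ _, h2 _ _ _ (le_max_left _ _) hs⟩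
      · rintro ⟨s, x, -, h⟩
        exact ⟨x, (h3 _).2 ⟨s, h⟩⟩

theorem s1_nf3 {E : M → M → M → Prop} (h : S1 fun v => E (v 0) (v 1) (v 2)) :
    ∃ Q : Rel M, D4 Q ∧ (∀ s s' x a b, s ≤ s' → Q s x a b → Q s' x a b) ∧
      ∀ x a b, E x a b ↔ ∃ s, Q s x a b := by
  obtain ⟨Q, h1, h2, h3⟩ := s1_nf h
  refine ⟨fun s x a b => Q s (cons x (cons a fun _ => b)), ⟨?_⟩,
    fun s s' x a b => h2 s s' _, fun x a b => h3 (cons x (cons a fun _ => b))⟩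
  refine (h1.subst (t := fun i w => match i with | 0 => w 0 | 1 => w 1 | 2 => w 2 | _ + 3 => w 3)
    fun i => match i with
      | 0 => Tm.var 0 | 1 => Tm.var 1 | 2 => Tm.var 2 | _ + 3 => Tm.var 3).congr fun v => ?_
  refine iff_of_eq (congrArg (Q (v 0)) (funext fun i => ?_))
  rcases i with _ | _ | i <;> rfl

theorem half_red {X Z : Set M} (hX : ∀ k, Sub k X → {x | mem x k}.Finite)
    (E : M → M → M → Prop) (hE : S1 fun v => E (v 0) (v 1) (v 2))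
    (mono : ∀ x a b a' b', E x a b → sub a a' → sub b b' → E x a' b')
    (h : ∀ x, x ∈ X ↔ ∃ a b, Sub a Z ∧ Sub b Zᶜ ∧ E x a b) :
    ∃ W : M → M → M → Prop, (S1 fun v => W (v 0) (v 2) (v 3)) ∧
      ∀ k, Sub k X ↔ ∃ a b, Sub a Z ∧ Sub b Zᶜ ∧ W k a b := by
  obtain ⟨Q, h1, h2, h3⟩ := s1_nf3 hE
  have k1 : ∀ S : Set M, S.Finite → S ⊆ X →
      ∃ a b, Sub a Z ∧ Sub b Zᶜ ∧ ∀ x ∈ S, E x a b := fun S hS => by
    induction S, hS using Set.Finite.induction_on with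
    | empty =>
      obtain ⟨e, he⟩ := exists_empty (M := M)
      exact fun _ => ⟨e, e, sub_empty he _, sub_empty he _, fun x hx => hx.elim⟩
    | @insert y S _ _ ih =>
      intro hs
      obtain ⟨a, b, ha, hb, H⟩ := ih fun x hx => hs (Or.inr hx)
      obtain ⟨a', b', ha', hb', H'⟩ := (h y).1 (hs (Or.inl rfl))
      obtain ⟨u, u0, u1, u2, -⟩ := union_sub ha ha'
      obtain ⟨w, w0, w1, w2, -⟩ := union_sub hb hb'
      refine ⟨u, w, u0, w0, ?_⟩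
      rintro x (rfl | hx)
      · exact mono _ _ _ _ _ H' u2 w2
      · exact mono _ _ _ _ _ (H x hx) u1 w1
  have k2 : ∀ a b, ∀ S : Set M, S.Finite → (∀ x ∈ S, E x a b) → ∃ s, ∀ x ∈ S, Q s x a b :=
    fun a b S hS => by
    induction S, hS using Set.Finite.induction_on with
    | empty => exact fun _ => ⟨0, fun x hx => hx.elim⟩
    | @insert y S _ _ ih =>
      intro hs
      obtain ⟨s, H⟩ := ih fun x hx => hs x (Or.inr hx)
      obtain ⟨s', H'⟩ := (h3 _ _ _).1 (hs y (Or.inl rfl))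
      refine ⟨max s s', ?_⟩
      rintro x (rfl | hx)
      · exact h2 _ _ _ _ _ (le_max_right _ _) H'
      · exact h2 _ _ _ _ _ (le_max_left _ _) (H x hx)
  refine ⟨fun k a b => ∃ s, ∀ x, mem x k → Q s x a b, (by exact S1I.out), fun k => ⟨fun hk => ?_,
    fun ⟨a, b, ha, hb, s, H⟩ x hx => (h x).2 ⟨a, b, ha, hb, (h3 _ _ _).2 ⟨s, H x hx⟩⟩⟩⟩
  obtain ⟨a, b, ha, hb, H⟩ := k1 _ (hX k hk) hk
  exact ⟨a, b, ha, hb, k2 a b _ (hX k hk) H⟩

theorem red_of_pointwise {X Z : Set M} (hX : ∀ k, Sub k X ∨ Sub k Xᶜ → {x | mem x k}.Finite)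
    (E : Bool → M → M → M → Prop) (hE : ∀ e, S1 fun v => E e (v 0) (v 1) (v 2))
    (mono : ∀ e x a b a' b', E e x a b → sub a a' → sub b b' → E e x a' b')
    (h1 : ∀ x, x ∈ X ↔ ∃ a b, Sub a Z ∧ Sub b Zᶜ ∧ E true x a b)
    (h0 : ∀ x, x ∉ X ↔ ∃ a b, Sub a Z ∧ Sub b Zᶜ ∧ E false x a b) : Red X Z := by
  obtain ⟨W₁, a1, a2⟩ := half_red (fun k hk => hX k (Or.inl hk)) (E true) (hE true) (mono true) h1
  obtain ⟨W₀, b1, b2⟩ := half_red (X := Xᶜ) (fun k hk => hX k (Or.inr hk)) (E false) (hE false)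
    (mono false) h0
  exact Red.mk W₁ W₀ a1 b1 a2 b2

/-- the bounded form of `Val` -/
def Vc (j s n c x u : M) : Prop :=
  ∃ l, l < s ∧ ∃ u', u' < s ∧ Lab s x l u' ∧ ((l ≤ n ∧ u = u') ∨ (c ≤ l ∧ Wv j l u))

/-- the bounded form of `FitsW` -/
def Leg (s j t g y n c : M) : Prop :=
  ∀ x, x ≤ g → ∀ u, mem (pr x u) g → (Wm s x ∧ mem (pr t y) x) ∨ Vc j s n c x u

/-- the positive half of `Rows` -/
def Rows1 (i : Bool) (a g k : M) : Prop :=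
  ∀ x, mem x a → (∃ y, x = pr 0 y ∧ mem y k) ∨ ∃ y u, x = pr 1 y ∧ prt i y ∧ ap g y u ∧ mem u k

/-- the negative half of `Rows` -/
def Rows0 (i : Bool) (b g k : M) : Prop :=
  (∀ y, mem (pr 0 y) b → mem y k) ∧
    ∀ y, mem (pr 1 y) b → prt i y → ∃ u, mem (pr y u) g ∧ mem u k

/-- the domain of `g` lies in part `i` -/
def Prt (i : Bool) (g : M) : Prop := ∀ x u, ap g x u → prt i x

instance (j s : M) : D4 (Vc j s) := ⟨by unfold Vc; exact D0I.out⟩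

instance (s j t : M) : D4 (Leg s j t) := ⟨by unfold Leg; exact D0I.out⟩

instance (i : Bool) : D3 (Rows0 (M := M) i) := ⟨by unfold Rows0; exact D0I.out⟩

instance (i : Bool) : D3 (Rows1 (M := M) i) := by
  refine ⟨D0.congr (P := fun v => ∀ x, mem x (v 0) → (∃ y, mem y (v 2) ∧ x = pr 0 y) ∨
    ∃ y, y ≤ x ∧ ∃ u, mem u (v 2) ∧ x = pr 1 y ∧ prt i y ∧ mem (pr y u) (v 1))
    (by exact D0I.out) fun v => forall₂_congr fun x _ => or_congr ?_ ?_⟩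
  · exact exists_congr fun y => and_comm
  · exact exists_congr fun y => ⟨fun ⟨_, u, h0, h1, h2, h3⟩ => ⟨u, h1, h2, h3, h0⟩,
      fun ⟨u, h1, h2, h3, h0⟩ => ⟨h1 ▸ le_pr_right _ _, u, h0, h1, h2, h3⟩⟩

theorem le_of_ap {g x u : M} (h : ap g x u) : x ≤ g := (le_pr_left _ _).trans (lt_of_mem h).le

instance (i : Bool) : D1 (Prt (M := M) i) :=
  ⟨D0.congr (P := fun v => ∀ x, x ≤ v 0 → ∀ u, mem (pr x u) (v 0) → prt i x) (by exact D0I.out)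
    fun _ => ⟨fun H x u h => H x (le_of_ap h) u h, fun H x _ u h => H x u h⟩⟩

theorem rd_s1 (hS : SatM M) (m : Mode M)
    {Ψ : Rel M} (hΨ : S1 fun v => Ψ (v 0) (v 1) (v 2) (v 3)) (i : Bool) :
    ∃ E : M → M → M → M → M → Prop, (S1 fun v => E (v 0) (v 1) (v 2) (v 3) (v 4)) ∧
      ∀ y k₁ k₀, Rd m Ψ i y k₁ k₀ ↔ ∃ n ∈ omega M, ∃ c ∉ omega M, E y k₁ k₀ n c := by
  have : S4 Ψ := ⟨hΨ⟩
  refine ⟨fun y k₁ k₀ n c => ∃ k K a b g z, Ψ k K a b ∧ mem z K ∧ prt (!i) z ∧ Wm m.s z ∧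
    mem (pr m.t y) z ∧ (Rows1 i a g k₁ ∧ Rows0 i b g k₀) ∧ Prt i g ∧ Agree g g ∧
    Leg m.s m.j m.t g y n c, (by exact S1I.out), fun y k₁ k₀ => ⟨?_, ?_⟩⟩
  · rintro ⟨k, K, a, b, g, z, h1, h2, h3, h4, h5, h6, h7, h8, N, h9⟩
    obtain ⟨c, hc, H⟩ := overspill hS.s1.nonstd
      (P := fun c => Leg m.s m.j m.t g y N c) (by exact ArI.out) fun c x _ u hx =>
        (h9 x u hx).imp_right fun ⟨l, u', a1, a2⟩ => ⟨l, a1.lt.1, u', a1.lt.2, a1,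
          a2.imp_right fun a2 => ⟨(nat_lt_of_nonstd a2.1 c).le, a2.2⟩⟩
    exact ⟨N, nat_std N, c, hc, k, K, a, b, g, z, h1, h2, h3, h4, h5, h6, h7, h8, H c le_rfl⟩
  · rintro ⟨_, ⟨N, rfl⟩, c, hc, k, K, a, b, g, z, h1, h2, h3, h4, h5, h6, h7, h8, h9⟩
    exact ⟨k, K, a, b, g, z, h1, h2, h3, h4, h5, h6, h7, h8, N, fun x u hx =>
      (h9 x (le_of_ap hx) u hx).imp_right fun ⟨l, _, u', _, a1, a2⟩ => ⟨l, u', a1,
        a2.imp_right fun a2 => ⟨fun h => hc (std_of_le a2.1 h), a2.2⟩⟩⟩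

/-- a `Σ₁` five-place relation -/
class S5 (W : M → M → M → M → M → Prop) : Prop where
  out : S1 fun v => W (v 0) (v 1) (v 2) (v 3) (v 4)

instance (priority := 66) {a b c d e : (ℕ → M) → M} {W} [h : S5 W] [a1 : TmI a] [a2 : TmI b]
    [a3 : TmI c] [a4 : TmI d] [a5 : TmI e] : S1I fun v => W (a v) (b v) (c v) (d v) (e v) :=
  ⟨h.out.subst (t := fun i => match i with | 0 => a | 1 => b | 2 => c | 3 => d | _ => e) fun i =>
    match i with | 0 => a1.out | 1 => a2.out | 2 => a3.out | 3 => a4.out | _ + 4 => a5.out⟩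

/-- evidence read from a condition of the join with the standard cut -/
def Evd (E : M → M → M → M → M → Prop) (y a b : M) : Prop :=
  ∃ k₁ k₀ n c, E y k₁ k₀ n c ∧ (∀ x, mem x k₁ → mem (pr 0 x) a) ∧
    (∀ x, mem x k₀ → mem (pr 0 x) b) ∧ mem (pr 1 n) a ∧ mem (pr 1 c) b

theorem Evd.mono {E : M → M → M → M → M → Prop} {y a b a' b' : M} (h : Evd E y a b)
    (ha : sub a a') (hb : sub b b') : Evd E y a' b' := by
  obtain ⟨k₁, k₀, n, c, h0, h1, h2, h3, h4⟩ := h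
  exact ⟨k₁, k₀, n, c, h0, fun x hx => ha _ (h1 x hx), fun x hx => hb _ (h2 x hx), ha _ h3, hb _ h4⟩

theorem evd_iff (E : M → M → M → M → M → Prop) (A : Set M) (y : M) :
    (∃ k₁ k₀, Sub k₁ A ∧ Sub k₀ Aᶜ ∧ ∃ n ∈ omega M, ∃ c ∉ omega M, E y k₁ k₀ n c) ↔
      ∃ a b, Sub a (join A (omega M)) ∧ Sub b (join A (omega M))ᶜ ∧ Evd E y a b := by
  have key : ∀ (k n : M) (Z : Set M), (∀ x, mem x k → pr 0 x ∈ Z) → pr 1 n ∈ Z →
      ∃ a, Sub a Z ∧ (∀ x, mem x k → mem (pr 0 x) a) ∧ mem (pr 1 n) a := fun k n Z h1 h2 => by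
    obtain ⟨u, hu⟩ := exists_col 0 k
    obtain ⟨s, hs⟩ := exists_single (pr 1 n)
    obtain ⟨a, a0, a1, a2, -⟩ := union_sub (a := u) (b := s) (A := Z) (fun z hz => by
      obtain ⟨x, hx, rfl⟩ := (hu z).1 hz
      exact h1 x hx) fun z hz => (hs z).1 hz ▸ h2
    exact ⟨a, a0, fun x hx => a1 _ ((hu _).2 ⟨x, hx, rfl⟩), a2 _ ((hs _).2 rfl)⟩
  constructor
  · rintro ⟨k₁, k₀, h1, h0, n, hn, c, hc, h⟩
    obtain ⟨a, a0, a1, a2⟩ := key k₁ n (join A (omega M))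
      (fun x hx => pr0_mem_join.2 (h1 x hx)) (pr1_mem_join.2 hn)
    obtain ⟨b, b0, b1, b2⟩ := key k₀ c (join A (omega M))ᶜ
      (fun x hx h => h0 x hx (pr0_mem_join.1 h)) fun h => hc (pr1_mem_join.1 h)
    exact ⟨a, b, a0, b0, k₁, k₀, n, c, h, a1, b1, a2, b2⟩
  · rintro ⟨a, b, a0, b0, k₁, k₀, n, c, h, a1, b1, a2, b2⟩
    exact ⟨k₁, k₀, fun x hx => pr0_mem_join.1 (a0 _ (a1 x hx)),
      fun x hx h => b0 _ (b1 x hx) (pr0_mem_join.2 h), n, pr1_mem_join.1 (a0 _ a2), c,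
      fun h => b0 _ b2 (pr1_mem_join.2 h), h⟩

theorem red_of_evd {E : M → M → M → M → M → Prop} [S5 E] {X Z : Set M}
    (hX : ∀ k, Sub k X ∨ Sub k Xᶜ → {x | mem x k}.Finite) (p : Bool → Bool → M)
    (h : ∀ v e, (v ∈ X ↔ e = true) ↔
      ∃ e' a b, Sub a Z ∧ Sub b Zᶜ ∧ Evd E (pr v (p e e')) a b) : Red X Z := by
  have key : ∀ v e, (v ∈ X ↔ e = true) ↔ ∃ a b, Sub a Z ∧ Sub b Zᶜ ∧
      (Evd E (pr v (p e false)) a b ∨ Evd E (pr v (p e true)) a b) := fun v e => by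
    rw [h, Bool.exists_bool]
    simp only [and_or_left, exists_or]
  refine red_of_pointwise hX
    (fun e v a b => Evd E (pr v (p e false)) a b ∨ Evd E (pr v (p e true)) a b)
    (fun e => by unfold Evd; exact S1I.out)
    (fun e x a b a' b' H ha hb => H.imp (·.mono ha hb) (·.mono ha hb)) (fun x => ?_) fun x => ?_
  · rw [← key]
    simp
  · rw [← key]
    simp

theorem red_of_reader (hS : SatM M) (m : Mode M)
    {Ψ : Rel M} (hΨ : S1 fun v => Ψ (v 0) (v 1) (v 2) (v 3)) (i : Bool)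
    {A X₀ X₁ : Set M} (f₀ : ∀ k, Sub k X₀ ∨ Sub k X₀ᶜ → {x | mem x k}.Finite)
    (f₁ : ∀ k, Sub k X₁ ∨ Sub k X₁ᶜ → {x | mem x k}.Finite)
    (h : ∀ v b₀ b₁, ((v ∈ X₀ ↔ b₀ = true) ∧ (v ∈ X₁ ↔ b₁ = true)) ↔
      ∃ k₁ k₀, Sub k₁ A ∧ Sub k₀ Aᶜ ∧ Rd m Ψ i (lit (v, b₀, b₁)) k₁ k₀) :
    Red (join X₀ X₁) (join A (omega M)) := by
  classical
  obtain ⟨E, hE, H⟩ := rd_s1 hS m hΨ i
  have : S5 E := ⟨hE⟩
  simp only [H, evd_iff] at h
  refine red_join (red_of_evd (E := E) f₀ (fun e e' => pr (bn e) (bn e')) fun v e => ?_)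
    (red_of_evd (E := E) f₁ (fun e e' => pr (bn e') (bn e)) fun v e => ?_)
  · exact ⟨fun h0 => ⟨decide (v ∈ X₁), (h v e _).1 ⟨h0, decide_eq_true_iff.symm⟩⟩,
      fun ⟨e', h0⟩ => ((h v e e').2 h0).1⟩
  · exact ⟨fun h0 => ⟨decide (v ∈ X₀), (h v _ e).1 ⟨decide_eq_true_iff.symm, h0⟩⟩,
      fun ⟨e', h0⟩ => ((h v e' e).2 h0).2⟩

end Pool.Agent.MP_6072c5_lc.U71
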