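import Pool.Agent.MP_6072c5_lc.U71.Steps
import Pool.Agent.MP_6072c5_lc.U71.Point

/-! Properties of the generic set. -/

set_option linter.unusedSectionVars false
set_option synthInstance.maxSize 100000

namespace Pool.Agent.MP_6072c5_lc.U71

open Cardinal

universe u v

variable {M : Type u} [CommSemiring M] [LinearOrder M] [IsPA M]

theorem red_inter {P : M → Prop} [D1 P] (X : Set M) : Red {x | P x ∧ x ∈ X} X := by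
  obtain ⟨e, he⟩ := exists_empty (M := M)
  refine Red.mk (fun k a _ => ∀ x, mem x k → P x ∧ mem x a)
    (fun k _ b => ∀ x, mem x k → P x → mem x b) (by exact S1I.out) (by exact S1I.out)
    (fun k => ⟨fun h => ?_, ?_⟩) fun k => ⟨fun h => ?_, ?_⟩
  · exact ⟨k, e, fun x hx => (h x hx).2, sub_empty he _, fun x hx => ⟨(h x hx).1, hx⟩⟩
  · rintro ⟨a, b, ha, -, h⟩ x hx
    exact ⟨(h x hx).1, ha x (h x hx).2⟩
  · obtain ⟨b, hb⟩ := compr (P := fun x => mem x k ∧ P x) (by exact ArI.out) k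
    exact ⟨e, b, sub_empty he _, fun x hx hX => h x ((hb x).1 hx).2.1 ⟨((hb x).1 hx).2.2, hX⟩,
      fun x hx hP => (hb x).2 ⟨lt_of_mem hx, hx, hP⟩⟩
  · rintro ⟨a, b, -, hb, h⟩ x hx hX
    exact hb x (h x hx hX.1) hX.2

theorem not_minCover {A B D₁ D₂ : Set M} (hA : Red A B) (h1 : Red D₁ B) (h2 : Red D₂ B)
    (n1 : ¬ Red D₁ (join A D₂)) (n2 : ¬ Red D₂ (join A D₁)) : ¬ MinCover (deg A) (deg B) := by
  rintro ⟨-, -, h⟩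
  rcases h (deg (join A D₁)) (deg_le_iff.2 (red_join_left _ _))
    (deg_le_iff.2 (red_join hA h1)) with h | h
  · exact n1 (((red_join_right _ _).trans (deg_eq_iff.1 h).1).trans (red_join_left _ _))
  · exact n2 (h2.trans (deg_eq_iff.1 h).2)

theorem sub_join {a b : M} {A X : Set M} (ha : Sub a (join A X)) (hb : Sub b (join A X)ᶜ) :
    (∀ y, mem (pr 0 y) a → y ∈ A) ∧ (∀ y, mem (pr 0 y) b → y ∉ A) ∧
      (∀ y, mem (pr 1 y) a → y ∈ X) ∧ ∀ y, mem (pr 1 y) b → y ∉ X :=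
  ⟨fun _ h => pr0_mem_join.1 (ha _ h), fun _ h h' => hb _ h (pr0_mem_join.2 h'),
    fun _ h => pr1_mem_join.1 (ha _ h), fun _ h h' => hb _ h (pr1_mem_join.2 h')⟩

/-- all pairs decided by the generic set -/
def TG (G : Set (Pre M)) : Set (Lit M) := {l | ∃ p ∈ G, l ∈ p.T}

variable {F A : Set M} {G : Set (Pre M)} {p q : Pre M} {C Ψ : Rel M}

namespace Gen

theorem fn (hG : Gen F G) {l l' : Lit M} (h : l ∈ TG G) (h' : l' ∈ TG G) (e : l.1 = l'.1) :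
    l = l' := by
  obtain ⟨p, hp, h⟩ := h
  obtain ⟨q, hq, h'⟩ := h'
  obtain ⟨r, hr, h1, h2⟩ := hG.dir p hp q hq
  exact h1.cond.fn l (h1.T h) l' (h2.T h') e

theorem b0 (hG : Gen F G) {v : M} {b₀ b₁ : Bool} (h : (v, b₀, b₁) ∈ TG G) :
    v ∈ B0 G ↔ b₀ = true := by
  constructor
  · rintro ⟨p, hp, c, hc⟩
    have := hG.fn h ⟨p, hp, hc⟩ rfl
    simp only [Prod.mk.injEq, true_and] at this
    exact this.1
  · rintro rfl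
    obtain ⟨p, hp, h⟩ := h
    exact ⟨p, hp, _, h⟩

theorem b1 (hG : Gen F G) {v : M} {b₀ b₁ : Bool} (h : (v, b₀, b₁) ∈ TG G) :
    v ∈ B1 G ↔ b₁ = true := by
  constructor
  · rintro ⟨p, hp, c, hc⟩
    have := hG.fn h ⟨p, hp, hc⟩ rfl
    simp only [Prod.mk.injEq, true_and] at this
    exact this.2
  · rintro rfl
    obtain ⟨p, hp, h⟩ := h
    exact ⟨p, hp, _, h⟩

theorem total (hG : Gen F G) (v : M) : ∃ b₀ b₁, (v, b₀, b₁) ∈ TG G := by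
  obtain ⟨p, hp, ⟨v, b₀, b₁⟩, hl, rfl⟩ := hG.dec v
  exact ⟨b₀, b₁, p, hp, hl⟩

theorem neg0 (hG : Gen F G) {v : M} (h : v ∉ B0 G) : ∃ c, (v, false, c) ∈ TG G := by
  obtain ⟨b₀, b₁, hl⟩ := hG.total v
  cases b₀
  · exact ⟨b₁, hl⟩
  · exact absurd ((hG.b0 hl).2 rfl) h

theorem neg1 (hG : Gen F G) {v : M} (h : v ∉ B1 G) : ∃ c, (v, c, false) ∈ TG G := by
  obtain ⟨b₀, b₁, hl⟩ := hG.total v
  cases b₁
  · exact ⟨b₀, hl⟩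
  · exact absurd ((hG.b1 hl).2 rfl) h

theorem fin0 (hG : Gen F G) (k : M) (h : Sub k (B0 G) ∨ Sub k (B0 G)ᶜ) :
    {x | mem x k}.Finite := by
  by_contra hk
  rcases h with h | h
  · obtain ⟨p, hp, v, c, hv, hl⟩ := (hG.imm k hk false).1
    simpa using (hG.b0 ⟨p, hp, hl⟩).1 (h v hv)
  · obtain ⟨p, hp, v, c, hv, hl⟩ := (hG.imm k hk true).1
    exact h v hv ⟨p, hp, c, hl⟩

theorem fin1 (hG : Gen F G) (k : M) (h : Sub k (B1 G) ∨ Sub k (B1 G)ᶜ) :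
    {x | mem x k}.Finite := by
  by_contra hk
  rcases h with h | h
  · obtain ⟨p, hp, v, c, hv, hl⟩ := (hG.imm k hk false).2
    simpa using (hG.b1 ⟨p, hp, hl⟩).1 (h v hv)
  · obtain ⟨p, hp, v, c, hv, hl⟩ := (hG.imm k hk true).2
    exact h v hv ⟨p, hp, c, hl⟩

theorem common (hG : Gen F G) (hp : p ∈ G) {S : Set M} (hS : S.Finite) :
    ∃ q ∈ G, Ext F q p ∧ ∀ l ∈ TG G, l.1 ∈ S → l ∈ q.T := by
  induction S, hS using Set.Finite.induction_on with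
  | empty => exact ⟨p, hp, Ext.refl (hG.cond p hp), fun _ _ h => h.elim⟩
  | @insert v S _ _ ih =>
    obtain ⟨q, hq, h1, h2⟩ := ih
    obtain ⟨b₀, b₁, q', hq', h3⟩ := hG.total v
    obtain ⟨r, hr, h4, h5⟩ := hG.dir q hq q' hq'
    refine ⟨r, hr, h4.trans h1, fun l hl h => h.elim (fun e => ?_) fun h => h4.T (h2 l hl h)⟩
    exact hG.fn hl ⟨q', hq', h3⟩ e ▸ h5.T h3

theorem ev_sound (hG : Gen F G) (hp : p ∈ G) {a b : M} (h : Ev p.T a b) :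
    Sub a (BB G) ∧ Sub b (BB G)ᶜ := by
  constructor
  · intro x hx
    obtain ⟨v, c, ⟨rfl, h⟩ | ⟨rfl, h⟩⟩ := h.1 x hx
    · exact pr0_mem_join.2 ⟨p, hp, c, h⟩
    · exact pr1_mem_join.2 ⟨p, hp, c, h⟩
  · rintro x hx (⟨v, hv, rfl⟩ | ⟨v, hv, rfl⟩)
    · obtain ⟨c, hc⟩ := (h.2 v).1 hx
      simpa using (hG.b0 ⟨p, hp, hc⟩).1 hv
    · obtain ⟨c, hc⟩ := (h.2 v).2 hx
      simpa using (hG.b1 ⟨p, hp, hc⟩).1 hv

theorem ev_compl (hG : Gen F G) (hp : p ∈ G) {a b : M} (ha : Sub a (BB G))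
    (hb : Sub b (BB G)ᶜ) : ∃ q ∈ G, Ext F q p ∧ Ev q.T a b := by
  choose r hr using exists_row (M := M)
  obtain ⟨s1, s2, s3, s4⟩ := sub_join ha hb
  obtain ⟨q, hq, h1, h2⟩ := hG.common hp
    (((hG.fin0 (r 0 a) (Or.inl fun x hx => s1 x ((hr _ _ _).1 hx))).union
      (hG.fin0 (r 0 b) (Or.inr fun x hx => s2 x ((hr _ _ _).1 hx)))).union
    ((hG.fin1 (r 1 a) (Or.inl fun x hx => s3 x ((hr _ _ _).1 hx))).union
      (hG.fin1 (r 1 b) (Or.inr fun x hx => s4 x ((hr _ _ _).1 hx)))))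
  refine ⟨q, hq, h1, fun x hx => ?_, fun v => ⟨fun hv => ?_, fun hv => ?_⟩⟩
  · rcases ha x hx with ⟨v, ⟨p', hp', c, hc⟩, rfl⟩ | ⟨v, ⟨p', hp', c, hc⟩, rfl⟩
    · exact ⟨v, c, Or.inl ⟨rfl, h2 _ ⟨p', hp', hc⟩ (Or.inl (Or.inl ((hr _ _ _).2 hx)))⟩⟩
    · exact ⟨v, c, Or.inr ⟨rfl, h2 _ ⟨p', hp', hc⟩ (Or.inr (Or.inl ((hr _ _ _).2 hx)))⟩⟩
  · exact (hG.neg0 (s2 v hv)).imp fun c hc => h2 _ hc (Or.inl (Or.inr ((hr _ _ _).2 hv)))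
  · exact (hG.neg1 (s4 v hv)).imp fun c hc => h2 _ hc (Or.inr (Or.inr ((hr _ _ _).2 hv)))

theorem en_sound (hG : Gen F G) (hC : Conf A (BB G) C) (hp : p ∈ G) {k₁ k₀ : M}
    (h : En p.T C k₁ k₀) : Sub k₁ A ∧ Sub k₀ Aᶜ := by
  obtain ⟨a, b, h1, h2⟩ := h
  exact hC.sound (hG.ev_sound hp h2).1 (hG.ev_sound hp h2).2 h1

theorem en_compl (hG : Gen F G) (hC : Conf A (BB G) C) (hp : p ∈ G) {k₁ k₀ : M}
    (h1 : Sub k₁ A) (h0 : Sub k₀ Aᶜ) : ∃ q ∈ G, Ext F q p ∧ En q.T C k₁ k₀ := by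
  obtain ⟨a, b, ha, hb, h⟩ := hC.compl h1 h0
  obtain ⟨q, hq, h1, h2⟩ := hG.ev_compl hp ha hb
  exact ⟨q, hq, h1, a, b, h, h2⟩

theorem en1_true (hG : Gen F G) (hC : Conf A (BB G) C) (hp : p ∈ G) {w : M}
    (h : En1 p.T C true w) : w ∈ A := by
  obtain ⟨k₁, k₀, h1, h2⟩ := h
  exact (hG.en_sound hC hp h1).1 w h2

theorem en1_false (hG : Gen F G) (hC : Conf A (BB G) C) (hp : p ∈ G) {w : M}
    (h : En1 p.T C false w) : w ∉ A := by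
  obtain ⟨k₁, k₀, h1, h2⟩ := h
  exact (hG.en_sound hC hp h1).2 w h2

theorem not_inv (hG : Gen F G) (hC : Conf A (BB G) C) (hp : p ∈ G) : ¬ Inv F C p := by
  obtain ⟨e, he⟩ := exists_empty (M := M)
  rintro (⟨w, h1, h2⟩ | ⟨k₁, k₀, h⟩)
  · exact hG.en1_false hC hp h2 (hG.en1_true hC hp h1)
  · have h1 : Sub k₁ A := fun w hw => by
      by_contra hA
      obtain ⟨s, hs⟩ := exists_single w
      obtain ⟨q, -, h1, h2⟩ := hG.en_compl hC hp (sub_empty he A)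
        (k₀ := s) fun x hx => (hs x).1 hx ▸ hA
      exact (h q h1).2.1 w hw ⟨e, s, h2, (hs w).2 rfl⟩
    have h0 : Sub k₀ Aᶜ := fun w hw hA => by
      obtain ⟨s, hs⟩ := exists_single w
      obtain ⟨q, -, h1, h2⟩ := hG.en_compl hC hp (k₁ := s) (fun x hx => (hs x).1 hx ▸ hA)
        (sub_empty he _)
      exact (h q h1).2.2 w hw ⟨s, e, h2, (hs w).2 rfl⟩
    obtain ⟨q, -, h2, h3⟩ := hG.en_compl hC hp h1 h0
    exact (h q h2).1 h3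

theorem red_base {C₀ : Set M} (hG : Gen (facts C₀) G) : Red C₀ (BB G) := by
  refine red_of_xor (X := {y | pr 0 y ∈ B0 G})
    ((red_of_row 0 fun _ => Iff.rfl).trans (red_join_left _ _))
    ((red_of_row (Z := B1 G) 0 fun y => ?_).trans (red_join_right _ _))
  obtain ⟨b₀, b₁, hl⟩ := hG.total (pr 0 y)
  obtain ⟨p, hp, hl'⟩ := id hl
  have := (hG.cond p hp).col y b₀ b₁ hl'
  simp only [Set.mem_ofPred_eq, hG.b0 hl, hG.b1 hl, ← this]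
  cases b₀ <;> cases b₁ <;> simp

theorem mask_red (G : Set (Pre M)) (i : Bool) : Red (Mask G i) (BB G) :=
  ((red_inter (P := prt i) {y | pr 0 y ∈ B0 G}).trans
    (red_of_row 0 fun _ => Iff.rfl)).trans (red_join_left _ _)

theorem mask_not (hG : Gen F G) (hC : Conf A (BB G) C) {i : Bool}
    (h : ∀ Ψ : Rel M, (S1 fun v => Ψ (v 0) (v 1) (v 2) (v 3)) → ∃ q ∈ G, MWin F C i Ψ q) :
    ¬ Red (Mask G (!i)) (join A (Mask G i)) := by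
  intro hr
  obtain ⟨Ψ, hΨ⟩ := hr.conf
  obtain ⟨q, hq, y, hy, ⟨⟨k, K, a, b, k₁, k₀, h1, h2, h3, h4⟩, c, hc⟩ | ⟨⟨c, hc⟩, hn⟩⟩ :=
    h Ψ hΨ.s1
  · obtain ⟨e1, e0⟩ := hG.en_sound hC hq h3
    refine (hΨ.sound (fun x hx => ?_) ?_ h1).2 y h2 ⟨hy, q, hq, c, hc⟩
    · rcases h4.1 x hx with ⟨y, rfl, h⟩ | ⟨y, c, rfl, h, h'⟩
      · exact pr0_mem_join.2 (e1 y h)
      · exact pr1_mem_join.2 ⟨h, q, hq, c, h'⟩
    · rintro x hx (⟨y, hy, rfl⟩ | ⟨y, hy, rfl⟩)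
      · exact e0 y (h4.2.1 y hx) hy
      · obtain ⟨c, hc⟩ := h4.2.2 y hx hy.1
        simpa using (hG.b0 ⟨q, hq, hc⟩).1 hy.2
  · obtain ⟨e, he⟩ := exists_empty (M := M)
    obtain ⟨K, hK⟩ := exists_single y
    obtain ⟨a, b, ha, hb, h1⟩ := hΨ.compl (sub_empty he _) (k₀ := K) fun x hx hm => by
      obtain rfl := (hK x).1 hx
      simpa using (hG.b0 ⟨q, hq, hc⟩).1 hm.2
    choose r hr using exists_row (M := M)
    obtain ⟨s1, s2, s3, s4⟩ := sub_join ha hb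
    obtain ⟨q₁, hq₁, e1, e2⟩ := hG.en_compl hC hq (k₁ := r 0 a) (k₀ := r 0 b)
      (fun x hx => s1 x ((hr _ _ _).1 hx)) fun x hx => s2 x ((hr _ _ _).1 hx)
    obtain ⟨u, hu⟩ := exists_col 0 (r 1 a)
    obtain ⟨b', hb'⟩ := compr (P := fun x => mem (pr 1 x) b ∧ prt i x) (by exact ArI.out) b
    obtain ⟨w, hw⟩ := exists_col 0 b'
    obtain ⟨q₂, hq₂, e3, e4⟩ := hG.common hq₁ ((hG.fin0 u (Or.inl fun x hx => by
        obtain ⟨y, hy, rfl⟩ := (hu x).1 hx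
        exact (s3 y ((hr _ _ _).1 hy)).2)).union (hG.fin0 w (Or.inr fun x hx hx' => by
        obtain ⟨y, hy, rfl⟩ := (hw x).1 hx
        exact s4 y ((hb' y).1 hy).2.1 ⟨((hb' y).1 hy).2.2, hx'⟩)))
    refine hn q₂ (e3.trans e1) ⟨e, K, a, b, r 0 a, r 0 b, h1, (hK y).2 rfl, e2.mono e3.T,
      fun x hx => ?_, fun y hy => (hr _ _ _).2 hy, fun y hy hi => ?_⟩
    · rcases ha x hx with ⟨y, -, rfl⟩ | ⟨y, ⟨hi, p', hp', c, hc⟩, rfl⟩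
      · exact Or.inl ⟨y, rfl, (hr _ _ _).2 hx⟩
      · exact Or.inr ⟨y, c, rfl, hi,
          e4 _ ⟨p', hp', hc⟩ (Or.inl ((hu _).2 ⟨y, (hr _ _ _).2 hx, rfl⟩))⟩
    · exact (hG.neg0 fun h => s4 y hy ⟨hi, h⟩).imp fun c hc => e4 _ hc (Or.inr ((hw _).2
        ⟨y, (hb' y).2 ⟨(le_pr_right _ _).trans_lt (lt_of_mem hy), hy, hi⟩, rfl⟩))

section col
variable {j : M}

theorem agree (hG : Gen F G) {H H' : M} (h : H ∈ Facts (TG G) j) (h' : H' ∈ Facts (TG G) j) :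
    Agree H H' := by
  obtain ⟨l, ⟨p, hp, h1⟩, h2⟩ := h
  obtain ⟨l', ⟨q, hq, h1'⟩, h2'⟩ := h'
  obtain ⟨r, hr, a1, a2⟩ := hG.dir p hp q hq
  exact a1.cond.agr j H ⟨l, a1.T h1, h2⟩ H' ⟨l', a2.T h1', h2'⟩

theorem fact (hp : p ∈ G) {H : M} (h : H ∈ Facts p.T j) : H ∈ Facts (TG G) j :=
  Facts.mono (T' := TG G) (fun _ hl => ⟨p, hp, hl⟩) j h

theorem col_iff (hG : Gen F G) {H z u : M} (h : H ∈ Facts (TG G) j) (ha : ap H z u) :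
    z ∈ Col G A j ↔ u ∈ A := by
  constructor
  · rintro ⟨p, hp, H', hH', u', h1, h2⟩
    exact hG.agree (fact hp hH') h z u' u h1 ha ▸ h2
  · intro hu
    obtain ⟨l, ⟨p, hp, h1⟩, h2⟩ := h
    exact ⟨p, hp, H, ⟨l, h1, h2⟩, u, ha, hu⟩

/-- every coded set on which the column set is constant lies in one domain -/
def Cover (G : Set (Pre M)) (A : Set M) (j : M) : Prop :=
  ∀ K, Sub K (Col G A j) ∨ Sub K (Col G A j)ᶜ →
    ∃ H ∈ Facts (TG G) j, ∀ z, mem z K → ∃ u, ap H z u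

theorem cover (hG : Gen F G) (hC : Conf A (BB G) C) {d μ x : M} (hj : j = pr d (pr μ x))
    (hμ : μ ∉ omega M) (hT : ∀ K, ∃ p ∈ G, Tot p j K)
    (hB : ∀ Y, (∀ n, mem n Y → n ≤ μ) → InfStd Y → ∀ e, ∃ s ∈ G,
      ∃ n u, mem n Y ∧ n ∉ omega M ∧ wat d n u ∧ En1 s.T C e u) : Cover G A j := by
  have point : ∀ z, ∃ H ∈ Facts (TG G) j, ∃ u, ap H z u := by
    intro z
    obtain ⟨s, hs⟩ := exists_single z
    obtain ⟨p, hp, ⟨H, hH, h⟩ | h⟩ := hT s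
    · exact ⟨H, fact hp hH, h z ((hs z).2 rfl)⟩
    · obtain ⟨n, -, z₁, u₁, hz₁, l1⟩ := h 0
      obtain ⟨n', hn, z₂, u₂, hz₂, l2⟩ := h (n + 1)
      rw [(hs _).1 hz₁] at l1
      rw [(hs _).1 hz₂] at l2
      have : n = n' := by exact_mod_cast (l1.unique l2).1
      omega
  intro K hK
  obtain ⟨p, hp, ⟨H, hH, h⟩ | h⟩ := hT K
  · exact ⟨H, fact hp hH, h⟩
  · exfalso
    obtain ⟨Y, hY⟩ := compr (P := fun n => ∃ z l u, mem z K ∧ Lab (p.S j) z l u ∧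
      ((l ≤ μ ∧ n = l) ∨ (μ < l ∧ n = μ))) (by exact ArI.out) (μ + 1)
    have key : ∀ e, ∃ z, mem z K ∧ ∃ s ∈ G, ∃ u, En1 s.T C e u ∧ (z ∈ Col G A j ↔ u ∈ A) := by
      intro e
      obtain ⟨s, hs, n, u, a1, a2, a3, a4⟩ := hB Y (fun n hn => lt_succ_iff.1 ((hY n).1 hn).1)
        (fun N => (h N).imp fun n ⟨b1, z, u, b2, b3⟩ =>
          ⟨b1, (hY _).2 ⟨lt_succ_iff.2 (nat_lt_of_nonstd hμ n).le, z, n, u, b2, b3,
            Or.inl ⟨(nat_lt_of_nonstd hμ n).le, rfl⟩⟩⟩) e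
      obtain ⟨-, z, l', u₀, b1, b2, b3⟩ := (hY n).1 a1
      obtain ⟨H, hH, u', hu⟩ := point z
      obtain ⟨l, ⟨p', hp', c1⟩, c2⟩ := id hH
      obtain ⟨q, hq, d1, d2⟩ := hG.dir p hp p' hp'
      have hv : Val j (p.S j) 0 z u := by
        refine ⟨l', u₀, b2, Or.inr ?_⟩
        rcases b3 with ⟨b3, rfl⟩ | ⟨b3, rfl⟩
        · exact ⟨a2, hj ▸ wv_iff.2 (Or.inl ⟨b3, a3⟩)⟩
        · exact ⟨fun h => hμ (std_of_le b3.le h), hj ▸ wv_iff.2 (Or.inr ⟨b3, a3⟩)⟩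
      obtain rfl : u = u' := d1.cond.val_agree (hv.ee (d1.nm.S j)) ⟨l, d2.T c1, c2⟩ hu
      exact ⟨z, b1, s, hs, u, a4, hG.col_iff hH hu⟩
    rcases hK with hK | hK
    · obtain ⟨z, hz, s, hs, u, a1, a2⟩ := key false
      exact hG.en1_false hC hs a1 (a2.1 (hK z hz))
    · obtain ⟨z, hz, s, hs, u, a1, a2⟩ := key true
      exact hK z hz (a2.2 (hG.en1_true hC hs a1))

theorem image (hG : Gen F G) {H K : M} (hH : H ∈ Facts (TG G) j) :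
    ∃ k, (∀ u, mem u k ↔ ∃ z, mem z K ∧ ap H z u) ∧ (Sub K (Col G A j) → Sub k A) ∧
      (Sub K (Col G A j)ᶜ → Sub k Aᶜ) := by
  obtain ⟨k, hk⟩ := exists_image H K
  refine ⟨k, hk, fun h u hu => ?_, fun h u hu hA => ?_⟩
  · obtain ⟨z, h1, h2⟩ := (hk u).1 hu
    exact (hG.col_iff hH h2).1 (h z h1)
  · obtain ⟨z, h1, h2⟩ := (hk u).1 hu
    exact h z h1 ((hG.col_iff hH h2).2 hA)

theorem col_red (hG : Gen F G) (hC : Conf A (BB G) C) (hj : j ≠ 0) (hc : Cover G A j) :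
    Red (Col G A j) (BB G) := by
  have : S4 C := ⟨hC.s1⟩
  obtain ⟨e, he⟩ := exists_empty (M := M)
  have snd : ∀ {H x a b : M}, Sub a (BB G) → Sub b (BB G)ᶜ →
      (mem (pr 0 (pr j (pr H x))) a ∧ mem (pr 1 (pr j (pr H x))) b ∨
        mem (pr 1 (pr j (pr H x))) a ∧ mem (pr 0 (pr j (pr H x))) b) → H ∈ Facts (TG G) j := by
    intro H x a b ha hb h
    obtain ⟨s1, s2, s3, s4⟩ := sub_join ha hb
    obtain ⟨b₀, b₁, hl⟩ := hG.total (pr j (pr H x))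
    refine ⟨_, hl, hj, x, b₀, ?_⟩
    rcases h with h | h
    · have a1 := (hG.b0 hl).1 (s1 _ h.1)
      have a2 := mt (hG.b1 hl).2 (s4 _ h.2)
      simp [a1, a2]
    · have a1 := (hG.b1 hl).1 (s3 _ h.1)
      have a2 := mt (hG.b0 hl).2 (s2 _ h.2)
      simp [a1, a2]
  have cpl : ∀ {H k₁ k₀ : M}, H ∈ Facts (TG G) j → Sub k₁ A → Sub k₀ Aᶜ →
      ∃ a b x, Sub a (BB G) ∧ Sub b (BB G)ᶜ ∧ C k₁ k₀ a b ∧
        (mem (pr 0 (pr j (pr H x))) a ∧ mem (pr 1 (pr j (pr H x))) b ∨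
          mem (pr 1 (pr j (pr H x))) a ∧ mem (pr 0 (pr j (pr H x))) b) := by
    rintro H k₁ k₀ ⟨l, hl, -, x, c, rfl⟩ h1 h0
    obtain ⟨a, b, ha, hb, h⟩ := hC.compl h1 h0
    obtain ⟨s₀, hs₀⟩ := exists_single (pr 0 (pr j (pr H x)))
    obtain ⟨s₁, hs₁⟩ := exists_single (pr 1 (pr j (pr H x)))
    cases c
    · obtain ⟨a', a1, a2, a3, -⟩ := union_sub ha (b := s₁) fun y hy =>
        (hs₁ y).1 hy ▸ pr1_mem_join.2 ((hG.b1 hl).2 rfl)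
      obtain ⟨b', b1, b2, b3, -⟩ := union_sub hb (b := s₀) fun y hy =>
        (hs₀ y).1 hy ▸ fun h => by simpa using (hG.b0 hl).1 (pr0_mem_join.1 h)
      exact ⟨a', b', x, a1, b1, hC.mono h (sub_refl _) (sub_refl _) a2 b2,
        Or.inr ⟨a3 _ ((hs₁ _).2 rfl), b3 _ ((hs₀ _).2 rfl)⟩⟩
    · obtain ⟨a', a1, a2, a3, -⟩ := union_sub ha (b := s₀) fun y hy =>
        (hs₀ y).1 hy ▸ pr0_mem_join.2 ((hG.b0 hl).2 rfl)
      obtain ⟨b', b1, b2, b3, -⟩ := union_sub hb (b := s₁) fun y hy =>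
        (hs₁ y).1 hy ▸ fun h => by simpa using (hG.b1 hl).1 (pr1_mem_join.1 h)
      exact ⟨a', b', x, a1, b1, hC.mono h (sub_refl _) (sub_refl _) a2 b2,
        Or.inl ⟨a3 _ ((hs₀ _).2 rfl), b3 _ ((hs₁ _).2 rfl)⟩⟩
  refine Red.mk
    (fun K a b => ∃ H x k, C k e a b ∧ (∀ z, mem z K → ∃ u, mem (pr z u) H ∧ mem u k) ∧
      (mem (pr 0 (pr j (pr H x))) a ∧ mem (pr 1 (pr j (pr H x))) b ∨
        mem (pr 1 (pr j (pr H x))) a ∧ mem (pr 0 (pr j (pr H x))) b))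
    (fun K a b => ∃ H x k, C e k a b ∧ (∀ z, mem z K → ∃ u, mem (pr z u) H ∧ mem u k) ∧
      (mem (pr 0 (pr j (pr H x))) a ∧ mem (pr 1 (pr j (pr H x))) b ∨
        mem (pr 1 (pr j (pr H x))) a ∧ mem (pr 0 (pr j (pr H x))) b))
    (by exact S1I.out) (by exact S1I.out) (fun K => ⟨fun h => ?_, ?_⟩) fun K => ⟨fun h => ?_, ?_⟩
  · obtain ⟨H, hH, h1⟩ := hc K (Or.inl h)
    obtain ⟨k, hk, h2, -⟩ := hG.image (A := A) (K := K) hH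
    obtain ⟨a, b, x, ha, hb, h3, h4⟩ := cpl hH (h2 h) (sub_empty he _)
    exact ⟨a, b, ha, hb, H, x, k, h3,
      fun z hz => (h1 z hz).imp fun u hu => ⟨hu, (hk u).2 ⟨z, hz, hu⟩⟩, h4⟩
  · rintro ⟨a, b, ha, hb, H, x, k, h1, h2, h3⟩ z hz
    obtain ⟨u, h4, h5⟩ := h2 z hz
    exact (hG.col_iff (snd ha hb h3) h4).2 ((hC.sound ha hb h1).1 u h5)
  · obtain ⟨H, hH, h1⟩ := hc K (Or.inr h)
    obtain ⟨k, hk, -, h2⟩ := hG.image (A := A) (K := K) hH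
    obtain ⟨a, b, x, ha, hb, h3, h4⟩ := cpl hH (sub_empty he _) (h2 h)
    exact ⟨a, b, ha, hb, H, x, k, h3,
      fun z hz => (h1 z hz).imp fun u hu => ⟨hu, (hk u).2 ⟨z, hz, hu⟩⟩, h4⟩
  · rintro ⟨a, b, ha, hb, H, x, k, h1, h2, h3⟩ z hz hz'
    obtain ⟨u, h4, h5⟩ := h2 z hz
    exact (hC.sound ha hb h1).2 u h5 ((hG.col_iff (snd ha hb h3) h4).1 hz')

theorem col_not (hG : Gen F G) (hC : Conf A (BB G) C) (hc : Cover G A j) {i : Bool}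
    (h : ∀ Ψ : Rel M, (S1 fun v => Ψ (v 0) (v 1) (v 2) (v 3)) →
      ∃ q ∈ G, Wrong q.T C j i Ψ ∨ Div F C j i Ψ q) :
    ¬ Red {z | prt (!i) z ∧ z ∈ Col G A j} (join A {z | prt i z ∧ z ∈ Col G A j}) := by
  intro hr
  obtain ⟨Ψ, hΨ⟩ := hr.conf
  obtain ⟨q, hq, ⟨K, ⟨k, a, b, k₁, k₀, h1, h2, G₁, g1, G₀, g0, h3⟩, z, hz, hi, H, hH, u, h4, h5⟩ |
    ⟨K, ⟨H, hH, h1⟩, hn⟩⟩ := h Ψ hΨ.s1
  · obtain ⟨e1, e0⟩ := hG.en_sound hC hq h2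
    refine (hΨ.sound (fun x hx => ?_) ?_ h1).2 z hz
      ⟨hi, (hG.col_iff (fact hq hH) h4).2 (hG.en1_true hC hq h5)⟩
    · rcases h3.1 x hx with ⟨y, rfl, h⟩ | ⟨y, u, rfl, h, h', h''⟩
      · exact pr0_mem_join.2 (e1 y h)
      · exact pr1_mem_join.2 ⟨h, (hG.col_iff (fact hq g1) h').2 (e1 u h'')⟩
    · rintro x hx (⟨y, hy, rfl⟩ | ⟨y, hy, rfl⟩)
      · exact e0 y (h3.2.1 y hx) hy
      · obtain ⟨u, h, h'⟩ := h3.2.2 y hx hy.1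
        exact e0 u h' ((hG.col_iff (fact hq g0) h).1 hy.2)
  · obtain ⟨e, he⟩ := exists_empty (M := M)
    obtain ⟨a, b, ha, hb, h2⟩ := hΨ.compl (sub_empty he _) (k₀ := K) fun z hz hm => by
      obtain ⟨u, h, h'⟩ := h1 z hz
      exact hG.en1_false hC hq h' ((hG.col_iff (fact hq hH) h).1 hm.2)
    choose r hr using exists_row (M := M)
    obtain ⟨s1, s2, s3, s4⟩ := sub_join ha hb
    obtain ⟨b', hb'⟩ := compr (P := fun x => mem (pr 1 x) b ∧ prt i x) (by exact ArI.out) b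
    have c1 : Sub (r 1 a) (Col G A j) := fun x hx => (s3 x ((hr _ _ _).1 hx)).2
    have c0 : Sub b' (Col G A j)ᶜ := fun x hx hx' =>
      s4 x ((hb' x).1 hx).2.1 ⟨((hb' x).1 hx).2.2, hx'⟩
    obtain ⟨G₁, g1, t1⟩ := hc _ (Or.inl c1)
    obtain ⟨G₀, g0, t0⟩ := hc _ (Or.inr c0)
    obtain ⟨m₁, hm₁, u1, -⟩ := hG.image (A := A) (K := r 1 a) g1
    obtain ⟨m₀, hm₀, -, u0⟩ := hG.image (A := A) (K := b') g0
    obtain ⟨k₁, v1, v2, v3, -⟩ := union_sub (a := r 0 a)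
      (fun x hx => s1 x ((hr _ _ _).1 hx)) (u1 c1)
    obtain ⟨k₀, w1, w2, w3, -⟩ := union_sub (a := r 0 b) (A := Aᶜ)
      (fun x hx => s2 x ((hr _ _ _).1 hx)) (u0 c0)
    obtain ⟨q₁, hq₁, e1, e2⟩ := hG.en_compl hC hq v1 w1
    obtain ⟨l₁, x1, y1⟩ := g1
    obtain ⟨l₀, x0, y0⟩ := g0
    obtain ⟨q₂, hq₂, e3, e4⟩ := hG.common hq₁ (Set.toFinite {l₁.1, l₀.1})
    refine hn q₂ (e3.trans e1) ⟨e, a, b, k₁, k₀, h2, e2.mono e3.T, G₁,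
      ⟨l₁, e4 _ x1 (Or.inl rfl), y1⟩, G₀, ⟨l₀, e4 _ x0 (Or.inr rfl), y0⟩, fun x hx => ?_,
      fun y hy => w2 y ((hr _ _ _).2 hy), fun y hy hi => ?_⟩
    · rcases ha x hx with ⟨y, -, rfl⟩ | ⟨y, hy, rfl⟩
      · exact Or.inl ⟨y, rfl, v2 y ((hr _ _ _).2 hx)⟩
      · obtain ⟨u, hu⟩ := t1 y ((hr _ _ _).2 hx)
        exact Or.inr ⟨y, u, rfl, hy.1, hu, v3 u ((hm₁ u).2 ⟨y, (hr _ _ _).2 hx, hu⟩)⟩
    · have hy' := (hb' y).2 ⟨(le_pr_right _ _).trans_lt (lt_of_mem hy), hy, hi⟩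
      obtain ⟨u, hu⟩ := t0 y hy'
      exact ⟨u, hu, w3 u ((hm₀ u).2 ⟨y, hy', hu⟩)⟩

theorem win (hS : SatM M) (hG : Gen F G) (hC : Conf A (BB G) C) {b : Pre M} {t a₁ : M}
    {i : Bool} (hΨ : S1 fun v => Ψ (v 0) (v 1) (v 2) (v 3)) (hb : IsCond F b) (hj : j ∈ b.Z)
    (hj0 : j ≠ 0) (hm : modeOn b j t ∈ G) (ha : En1 b.T C true a₁)
    (hW : ∀ r, Ext F r b → ¬ Wrong r.T C j i Ψ)
    (hR : ∀ l ∈ TG G, ∃ r ∈ G, ∃ k₁ k₀, En r.T C k₁ k₀ ∧ Rd (modeAt b j t) Ψ i (lit l) k₁ k₀) :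
    Red (BB G) (join A (omega M)) := by
  refine red_of_reader hS (modeAt b j t) hΨ i hG.fin0 hG.fin1
    fun v b₀ b₁ => ?_
  obtain ⟨c₀, c₁, hl⟩ := hG.total v
  rw [hG.b0 hl, hG.b1 hl]
  constructor
  · rintro ⟨h0, h1⟩
    obtain rfl : c₀ = b₀ := Bool.eq_iff_iff.2 h0
    obtain rfl : c₁ = b₁ := Bool.eq_iff_iff.2 h1
    obtain ⟨r, hr, k₁, k₀, h2, h3⟩ := hR _ hl
    exact ⟨k₁, k₀, (hG.en_sound hC hr h2).1, (hG.en_sound hC hr h2).2, h3⟩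
  · rintro ⟨k₁, k₀, h1, h0, h⟩
    obtain ⟨q₁, hq₁, e1, e2⟩ := hG.en_compl hC hm h1 h0
    obtain ⟨q₂, hq₂, e3, e4⟩ := hG.common hq₁ (Set.finite_singleton v)
    have := rd_sound hS hb hj hj0 ha hW (e3.trans e1) (l := (v, b₀, b₁)) (e4 _ hl rfl) rfl
      (e2.mono e3.T) h
    simp only [Prod.mk.injEq, true_and] at this
    simp [this.1, this.2]

end col

end Gen

end Pool.Agent.MP_6072c5_lc.U71
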