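import Pool.Agent.MP_6072c5_lc.U71.Force

/-! Generic sets for `<κ`-closed orders; the number of `Σ₁` relations. -/

set_option linter.unusedSectionVars false
set_option synthInstance.maxSize 100000

namespace Pool.Agent.MP_6072c5_lc.U71

open Cardinal

universe u

variable {M : Type u} [CommSemiring M] [LinearOrder M] [IsPA M]

theorem exists_generic {P ι : Type u} {κ : Cardinal.{u}} (hκ : ℵ₀ ≤ κ) (le : P → P → Prop)
    (hr : ∀ p, le p p) (ht : ∀ p q r, le p q → le q r → le p r)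
    (hσ : ∀ S : Set P, #S < κ → S.Nonempty → (∀ a ∈ S, ∀ b ∈ S, le a b ∨ le b a) →
      ∃ q, ∀ a ∈ S, le q a)
    (hι : #ι ≤ κ) (D : ι → P → Prop) (p₀ : P) :
    ∃ G : Set P, p₀ ∈ G ∧ (∀ p ∈ G, ∀ q ∈ G, ∃ r ∈ G, le r p ∧ le r q) ∧
      ∀ i, ∀ q₀ ∈ G, (∀ q, le q q₀ → ∃ r, le r q ∧ D i r) → ∃ q ∈ G, D i q := by
  classical
  obtain ⟨lt, wo, hlt⟩ := Cardinal.exists_ord_eq ι
  have hcount : ∀ i, #{j | lt j i} < κ := fun i =>
    lt_of_lt_of_le (Cardinal.card_typein_lt (r := lt) i hlt) hι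
  -- one step
  have step : ∀ (i : ι) (S : Set P), ∃ r, (∃ q, ∀ a ∈ S, le q a) →
      (∀ a ∈ S, le r a) ∧ (D i r ∨ ∀ r', le r' r → ¬ D i r') := by
    intro i S
    by_cases h : ∃ q, ∀ a ∈ S, le q a
    · obtain ⟨q, hq⟩ := h
      by_cases h2 : ∃ r, le r q ∧ D i r
      · obtain ⟨r, h3, h4⟩ := h2
        exact ⟨r, fun _ => ⟨fun a ha => ht _ _ _ h3 (hq a ha), Or.inl h4⟩⟩
      · exact ⟨q, fun _ => ⟨hq, Or.inr fun r' h3 h4 => h2 ⟨r', h3, h4⟩⟩⟩
    · exact ⟨p₀, fun h' => absurd h' h⟩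
  choose st hst using step
  let g : ι → P := wo.wf.fix fun i h => st i (insert p₀ {a | ∃ j, ∃ hj : lt j i, a = h j hj})
  have hg : ∀ i, g i = st i (insert p₀ {a | ∃ j, lt j i ∧ a = g j}) := by
    intro i
    have := wo.wf.fix_eq
      (fun i (h : ∀ j, lt j i → P) => st i (insert p₀ {a | ∃ j, ∃ hj : lt j i, a = h j hj})) i
    simpa only [exists_prop] using this
  have key : ∀ i, (∀ a ∈ insert p₀ {a | ∃ j, lt j i ∧ a = g j}, le (g i) a) ∧
      (D i (g i) ∨ ∀ r', le r' (g i) → ¬ D i r') := by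
    intro i
    refine wo.wf.induction
      (C := fun i => (∀ a ∈ insert p₀ {a | ∃ j, lt j i ∧ a = g j}, le (g i) a) ∧
        (D i (g i) ∨ ∀ r', le r' (g i) → ¬ D i r')) i ?_
    intro i ih
    rw [hg i]
    refine hst i _ (hσ _ ?_ ⟨p₀, Set.mem_insert _ _⟩ ?_)
    · refine mk_insert_le.trans_lt (add_lt_of_lt hκ (lt_of_le_of_lt ?_ (hcount i))
        (one_lt_aleph0.trans_le hκ))
      refine le_trans (mk_le_mk_of_subset ?_) (mk_image_le (f := g) (s := {j | lt j i}))
      rintro a ⟨j, hj, rfl⟩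
      exact ⟨j, hj, rfl⟩
    · rintro a (rfl | ⟨j, hj, rfl⟩) b (rfl | ⟨k, hk, rfl⟩)
      · exact Or.inl (hr _)
      · exact Or.inr ((ih k hk).1 _ (Set.mem_insert _ _))
      · exact Or.inl ((ih j hj).1 _ (Set.mem_insert _ _))
      · rcases trichotomous_of lt j k with h | h | h
        · exact Or.inr ((ih k hk).1 _ (Set.mem_insert_of_mem _ ⟨j, h, rfl⟩))
        · subst h
          exact Or.inl (hr _)
        · exact Or.inl ((ih j hj).1 _ (Set.mem_insert_of_mem _ ⟨k, h, rfl⟩))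
  have hch : ∀ a ∈ insert p₀ (Set.range g), ∀ b ∈ insert p₀ (Set.range g), le a b ∨ le b a := by
    rintro a (rfl | ⟨j, rfl⟩) b (rfl | ⟨k, rfl⟩)
    · exact Or.inl (hr _)
    · exact Or.inr ((key k).1 _ (Set.mem_insert _ _))
    · exact Or.inl ((key j).1 _ (Set.mem_insert _ _))
    · rcases trichotomous_of lt j k with h | h | h
      · exact Or.inr ((key k).1 _ (Set.mem_insert_of_mem _ ⟨j, h, rfl⟩))
      · subst h
        exact Or.inl (hr _)
      · exact Or.inl ((key j).1 _ (Set.mem_insert_of_mem _ ⟨k, h, rfl⟩))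
  refine ⟨insert p₀ (Set.range g), Set.mem_insert _ _, ?_, ?_⟩
  · intro p hp q hq
    rcases hch p hp q hq with h | h
    · exact ⟨p, hp, hr _, h⟩
    · exact ⟨q, hq, h, hr _⟩
  · intro i q₀ hq₀ hd
    have hi : g i ∈ insert p₀ (Set.range g) := Set.mem_insert_of_mem _ ⟨i, rfl⟩
    rcases (key i).2 with h | h
    · exact ⟨g i, hi, h⟩
    · rcases hch _ hi _ hq₀ with h1 | h1
      · obtain ⟨r, h2, h3⟩ := hd _ h1
        exact absurd h3 (h r h2)
      · obtain ⟨r, h2, h3⟩ := hd _ (hr _)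
        exact absurd h3 (h r (ht _ _ _ h2 h1))

/-- the levels of the closure of `range b` under the operations `f j` -/
def clev {X J : Type u} (b : J → X) (f : J → X → X → X) : ℕ → Set X
  | 0 => Set.range b
  | n + 1 => clev b f n ∪
      Set.range fun z : J × clev b f n × clev b f n => f z.1 z.2.1.1 z.2.2.1

theorem clev_mono {X J : Type u} (b : J → X) (f : J → X → X → X) : Monotone (clev b f) :=
  monotone_nat_of_le_succ fun _ => Set.subset_union_left

theorem card_clev {X J : Type u} (b : J → X) (f : J → X → X → X) {κ : Cardinal.{u}}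
    (hκ : ℵ₀ ≤ κ) (hJ : #J ≤ κ) (n : ℕ) : #(clev b f n) ≤ κ := by
  induction n with
  | zero => exact mk_range_le.trans hJ
  | succ n ih =>
    refine (mk_union_le _ _).trans (add_le_of_le hκ ih (mk_range_le.trans ?_))
    simp only [mk_prod, lift_id]
    exact mul_le_of_le hκ hJ (mul_le_of_le hκ ih ih)

theorem card_closure {X J : Type u} (b : J → X) (f : J → X → X → X) {κ : Cardinal.{u}}
    (hκ : ℵ₀ ≤ κ) (hJ : #J ≤ κ) (S : X → Prop)
    (hS : ∀ Q : X → Prop, (∀ j, Q (b j)) → (∀ j x y, Q x → Q y → Q (f j x y)) →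
      ∀ x, S x → Q x) : #{x // S x} ≤ κ := by
  have h1 : {x | S x} ⊆ ⋃ n, clev b f n := by
    intro x hx
    refine hS (fun x => x ∈ ⋃ n, clev b f n) ?_ ?_ x hx
    · intro j
      exact Set.mem_iUnion.2 ⟨0, ⟨j, rfl⟩⟩
    · intro j x y hx hy
      obtain ⟨m, hm⟩ := Set.mem_iUnion.1 hx
      obtain ⟨n, hn⟩ := Set.mem_iUnion.1 hy
      refine Set.mem_iUnion.2 ⟨max m n + 1, Or.inr ?_⟩
      exact ⟨(j, ⟨x, clev_mono b f (le_max_left m n) hm⟩,
        ⟨y, clev_mono b f (le_max_right m n) hn⟩), rfl⟩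
  refine (mk_le_mk_of_subset h1).trans ?_
  have := mk_iUnion_le_sum_mk_lift (f := fun n => clev b f n)
  rw [lift_uzero] at this
  refine this.trans ((sum_le_sum _ (fun _ => κ) (card_clev b f hκ hJ)).trans ?_)
  simp only [sum_const, mk_nat, lift_aleph0, lift_uzero]
  exact mul_le_of_le hκ hκ le_rfl

theorem card_tm (hM : ℵ₀ ≤ #M) : #{t : (ℕ → M) → M // Tm t} ≤ #M := by
  refine card_closure (J := Option ℕ × M)
    (fun j => match j with
      | (none, c) => fun _ => c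
      | (some i, _) => fun v => v i)
    (fun j s t => match j with
      | (none, _) => fun v => s v + t v
      | (some _, _) => fun v => s v * t v) hM ?_ _ ?_
  · simp only [mk_prod, lift_uzero]
    exact mul_le_of_le hM (le_trans (by simp) hM) le_rfl
  · intro Q hb hf x hx
    induction hx with
    | var i => exact hb (some i, 0)
    | const c => exact hb (none, c)
    | add _ _ h1 h2 => exact hf (none, 0) _ _ h1 h2
    | mul _ _ h1 h2 => exact hf (some 0, 0) _ _ h1 h2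

theorem card_d0 (hM : ℵ₀ ≤ #M) : #{P : (ℕ → M) → Prop // D0 P} ≤ #M := by
  refine card_closure
    (J := Option Bool × {t : (ℕ → M) → M // Tm t} × {t : (ℕ → M) → M // Tm t})
    (fun j => match j with
      | (none, s, t) => fun v => s.1 v = t.1 v
      | (some _, s, t) => fun v => s.1 v < t.1 v)
    (fun j P Q => match j with
      | (none, s, _) => fun v => ∃ x < s.1 v, P (cons x v)
      | (some true, _, _) => fun v => ¬ P v
      | (some false, _, _) => fun v => P v ∧ Q v) hM ?_ _ ?_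
  · simp only [mk_prod, lift_id, lift_uzero]
    exact mul_le_of_le hM (le_trans (lift_le_aleph0.2 mk_le_aleph0) hM)
      (mul_le_of_le hM (card_tm hM) (card_tm hM))
  · intro Q hb hf x hx
    have z : {t : (ℕ → M) → M // Tm t} := ⟨_, Tm.var 0⟩
    induction hx with
    | eq hs ht => exact hb (none, ⟨_, hs⟩, ⟨_, ht⟩)
    | lt hs ht => exact hb (some true, ⟨_, hs⟩, ⟨_, ht⟩)
    | not _ h1 => exact hf (some true, z, z) _ _ h1 h1
    | and _ _ h1 h2 => exact hf (some false, z, z) _ _ h1 h2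
    | bex ht _ h1 => exact hf (none, ⟨_, ht⟩, z) _ _ h1 h1

theorem card_s1 (hM : ℵ₀ ≤ #M) : #{P : (ℕ → M) → Prop // S1 P} ≤ #M := by
  refine card_closure (J := {P : (ℕ → M) → Prop // D0 P}) (fun j => j.1)
    (fun _ P _ => fun v => ∃ x, P (cons x v)) hM (card_d0 hM) _ ?_
  intro Q hb hf x hx
  induction hx with
  | d0 h => exact hb ⟨_, h⟩
  | ex _ h1 => exact hf ⟨_, D0.eq (Tm.var 0) (Tm.var 0)⟩ _ _ h1 h1

theorem card_rel (hM : ℵ₀ ≤ #M) :
    #{C : Rel M // S1 fun v => C (v 0) (v 1) (v 2) (v 3)} ≤ #M := by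
  refine le_trans (mk_le_of_injective
    (f := fun C : {C : Rel M // S1 fun v => C (v 0) (v 1) (v 2) (v 3)} =>
      (⟨_, C.2⟩ : {P : (ℕ → M) → Prop // S1 P})) ?_) (card_s1 hM)
  intro C C' h
  have h1 := congrArg Subtype.val h
  apply Subtype.ext
  funext a b c d
  exact congrFun h1 (cons a (cons b (cons c (cons d fun _ => 0))))

end Pool.Agent.MP_6072c5_lc.U71
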