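import Pool.Agent.MP_6072c5_lc.U71.WorldsA

/-! Coherent worlds: a mask can be forced. -/

set_option linter.unusedSectionVars false
set_option synthInstance.maxSize 100000

namespace Pool.Agent.MP_6072c5_lc.U71

open Cardinal

universe u v

variable {M : Type u} [CommSemiring M] [LinearOrder M] [IsPA M]
variable {F : Set M} {p : Pre M} {C : Rel M}

namespace WorldsB

theorem consis {s : Pre M} (h : ¬ Inv F C s) {b : Bool} {w : M} (h1 : En1 s.T C b w)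
    (h2 : En1 s.T C (!b) w) : False := by
  cases b
  · exact h (Or.inl ⟨w, h2, h1⟩)
  · exact h (Or.inl ⟨w, h1, h2⟩)

theorem dich (hS : SatM M) {r : Pre M} (h : ¬ Inv F C r) (K : M) (b : Bool) :
    ∃ s, Ext F s r ∧ ∃ Δ, Δ.Finite ∧ Δ ⊆ s.T ∧ Closed s.Md Δ ∧
      ((∀ w, mem w K → En1 Δ C b w) ∨ ∃ w, mem w K ∧ En1 Δ C (!b) w) := by
  obtain ⟨o, ho⟩ := exists_code_of_finite (M := M) Set.finite_empty
  have h0 : ∀ w, ¬ mem w o := fun w hw => (ho w).1 hw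
  have key : ∀ k₁ k₀, ∃ s, Ext F s r ∧ (En s.T C k₁ k₀ ∨ (∃ w, mem w k₁ ∧ En1 s.T C false w) ∨
      ∃ w, mem w k₀ ∧ En1 s.T C true w) := by
    intro k₁ k₀
    by_contra hn
    refine h (Or.inr ⟨k₁, k₀, fun s hs => ⟨fun h1 => hn ⟨s, hs, Or.inl h1⟩,
      fun w hw h1 => hn ⟨s, hs, Or.inr (Or.inl ⟨w, hw, h1⟩)⟩,
      fun w hw h1 => hn ⟨s, hs, Or.inr (Or.inr ⟨w, hw, h1⟩)⟩⟩⟩)
  cases b
  · obtain ⟨s, hs, h1 | ⟨w, hw, -⟩ | ⟨w, hw, h1⟩⟩ := key o K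
    · obtain ⟨Δ, f, a, c, e⟩ := h1.closed hS hs.cond
      exact ⟨s, hs, Δ, f, a, c, Or.inl fun w hw => ⟨_, _, e, hw⟩⟩
    · exact absurd hw (h0 w)
    · obtain ⟨Δ, f, a, c, e⟩ := h1.closed hS hs.cond
      exact ⟨s, hs, Δ, f, a, c, Or.inr ⟨w, hw, e⟩⟩
  · obtain ⟨s, hs, h1 | ⟨w, hw, h1⟩ | ⟨w, hw, -⟩⟩ := key K o
    · obtain ⟨Δ, f, a, c, e⟩ := h1.closed hS hs.cond
      exact ⟨s, hs, Δ, f, a, c, Or.inl fun w hw => ⟨_, _, e, hw⟩⟩
    · obtain ⟨Δ, f, a, c, e⟩ := h1.closed hS hs.cond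
      exact ⟨s, hs, Δ, f, a, c, Or.inr ⟨w, hw, e⟩⟩
    · exact absurd hw (h0 w)

theorem late {α : Type v} {A : Set α} (hA : A.Finite) {B : ℕ → Set α}
    (hB : ∀ n m, n ≠ m → Disjoint (B n) (B m)) : ∃ N, ∀ n, N ≤ n → Disjoint A (B n) := by
  have hf : (⋃ a ∈ A, {n | a ∈ B n}).Finite := hA.biUnion fun a _ =>
    Set.Subsingleton.finite fun n hn m hm => by
      by_contra h
      exact Set.disjoint_left.1 (hB n m h) hn hm
  obtain ⟨N, hN⟩ := hf.bddAbove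
  refine ⟨N + 1, fun n hn => Set.disjoint_left.2 fun a ha hb => ?_⟩
  have := hN (Set.mem_biUnion ha (show n ∈ {n | a ∈ B n} from hb))
  omega

/-- the invariant of the construction -/
def St (F : Set M) (C : Rel M) (p u : Pre M) (e : Bool) (π : ℕ → Petal M) (m : ℕ) (a : Pre M) :
    Prop :=
  Ext F a p ∧ ∀ n, m ≤ n → Ready F C e a (π n) ∧ (π n).G0 \ a.T = (π n).G0 \ u.T

/-- the value `v` is not given to the nonstandard part of `Y` below `r` -/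
def No (F : Set M) (C : Rel M) (d : M) (r : Pre M) (Y : M) (v : Bool) : Prop :=
  ∀ s, Ext F s r → ∀ n x, mem n Y → n ∉ omega M → wat d n x → ¬ En1 s.T C v x

variable {u a b : Pre M} {e : Bool} {π : ℕ → Petal M} {m : ℕ}

theorem St.ext (h : St F C p u e π m a) (hb : Ext F b a) : St F C p u e π m b :=
  ⟨hb.trans h.1, fun n hn => ⟨(h.2 n hn).1.ext h.1.cond hb, ((h.2 n hn).1.diff_ext hb).trans (h.2 n hn).2⟩⟩

end WorldsB

open WorldsB in
theorem exists_bmy (hS : SatM M) (hp : IsCond F p)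
    (hI : ∀ q, Ext F q p → ¬ Inv F C q) {u : Pre M} {e : Bool} {π : ℕ → Petal M}
    (hu : Ext F u p) (hr : ∀ n, Ready F C e u (π n))
    (hd : ∀ n, Disjoint (keys p.T) (keys ((π n).G0 \ u.T)))
    (hd' : ∀ n m, n ≠ m → Disjoint (keys ((π n).G0 ∪ (π n).G1)) (keys ((π m).G0 \ u.T))) :
    ∃ q d Y, Ext F q p ∧ InfStd Y ∧ (∀ n : ℕ, ∃ w, wat d (n : M) w) ∧ BMY F C q d Y := by
  obtain ⟨d, hdc⟩ := hS.s1.code fun n => (π n).w
  have hw : ∀ n : ℕ, wat d (n : M) (π n).w := fun n =>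
    ⟨(hdc n _).2 rfl, fun x hx h => hx.ne ((hdc n x).1 h)⟩
  by_contra hn
  have hd0 : ∀ n m, n ≠ m → Disjoint (keys (π n).G0) (keys ((π m).G0 \ u.T)) := fun n m h =>
    (hd' n m h).mono_left (keys_mono Set.subset_union_left)
  have sw : ∀ {m n : ℕ} {a : Pre M}, St F C p u e π m a → m ≤ n →
      ∃ a', Sw F a (π n).G0 a' ∧ Ext F a' p := by
    intro m n a ha h
    obtain ⟨a', h'⟩ := exists_sw hS ha.1.cond ((ha.2 n h).1.alt ha.1.cond)
    exact ⟨a', h', h'.ext hp ha.1 ((ha.2 n h).2 ▸ hd n)⟩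
  have step : ∀ (m : ℕ) (x : Pre M × M), St F C p u e π m x.1 ∧ InfStd x.2 →
      ∃ (r : Pre M) (y : Pre M × M), Ext F r x.1 ∧ sub y.2 x.2 ∧ No F C d r y.2 e ∧
        Sw F r (π m).G0 y.1 ∧ (St F C p u e π (m + 1) y.1 ∧ InfStd y.2) := by
    rintro m ⟨a, Y⟩ ⟨ha, hY⟩
    obtain ⟨r, hra, Y', h1, h2, v, hv⟩ : ∃ r, Ext F r a ∧ ∃ Y', sub Y' Y ∧ InfStd Y' ∧
        ∃ v, No F C d r Y' v := by
      by_contra h
      refine hn ⟨a, d, Y, ha.1, hY, fun n => ⟨_, hw n⟩, fun r h1 Y' h2 h3 v => ?_⟩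
      by_contra h'
      exact h ⟨r, h1, Y', h2, h3, v, fun s hs n x a1 a2 a3 a4 => h' ⟨s, hs, n, x, a1, a2, a3, a4⟩⟩
    have hst := St.ext ha hra
    obtain rfl : v = e := by
      by_contra hve
      obtain rfl : v = !e := by cases v <;> cases e <;> simp at hve ⊢
      obtain ⟨K, hK⟩ := exists_watimage d Y' (m : M)
      obtain ⟨s, hs, Δ, f, c1, c2, h3 | ⟨w, h3, h4⟩⟩ := dich hS (hI r hst.1) K e
      · obtain ⟨N, hN⟩ := late (keys_finite f) (B := fun n => keys ((π n).G0 \ u.T))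
          fun n m h => (hd0 n m h).mono_left (keys_mono Set.sdiff_subset)
        obtain ⟨n, h4, h5⟩ := h2 (max N m)
        have hmn : m ≤ n := (le_max_right _ _).trans h4
        have hs' := hst.ext hs
        obtain ⟨s', h6, h7⟩ := sw hs' hmn
        have h8 := h6.keep Δ c1 c2 ((hs'.2 n hmn).2 ▸ hN n ((le_max_left _ _).trans h4))
        exact consis (hI s' h7) ((h3 _ ((hK _).2 ⟨n, h5, by exact_mod_cast hmn, hw n⟩)).mono h8)
          ((hr n).en0.mono h6.sub)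
      · obtain ⟨n, h5, h6, h7⟩ := (hK w).1 h3
        by_cases h8 : n ∈ omega M
        · obtain ⟨n, rfl⟩ := h8
          obtain rfl := wat_unique h7 (hw n)
          have hs' := hst.ext hs
          have h9 := (hs'.2 n (by exact_mod_cast h6)).1
          exact consis (hI s hs'.1) (h9.en1.mono h9.sub) (h4.mono c1)
        · exact hv s hs n w h5 h8 h7 (h4.mono c1)
    obtain ⟨a', h3, h4⟩ := sw hst le_rfl
    refine ⟨r, (a', Y'), hra, h1, hv, h3, ⟨h4, fun n hn' => ?_⟩, h2⟩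
    have h5 := hst.2 n (by omega)
    have h6 : Disjoint (keys ((π n).G0 ∪ (π n).G1)) (keys ((π m).G0 \ r.T)) :=
      (hst.2 m le_rfl).2 ▸ hd' n m (by omega)
    exact ⟨h5.1.sw hst.1.cond h3 h6, (h5.1.diff_sw hst.1.cond h3 h6).trans h5.2⟩
  have : Nonempty (Pre M) := ⟨p⟩
  choose! R nx h1 h2 h3 h4 h5 using step
  obtain ⟨Y₀, hY₀⟩ := exists_infStd hS.s1
  let x : ℕ → Pre M × M := fun n => Nat.rec (u, Y₀) nx n
  have hx : ∀ n, St F C p u e π n (x n).1 ∧ InfStd (x n).2 := by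
    intro n
    induction n with
    | zero => exact ⟨⟨hu, fun n _ => ⟨hr n, rfl⟩⟩, hY₀⟩
    | succ n ih => exact h5 n _ ih
  let r : ℕ → Pre M := fun n => R n (x n)
  have hst : ∀ n, St F C p u e π n (r n) := fun n => (hx n).1.ext (h1 n _ (hx n))
  obtain ⟨L, l1, l2, l3, l0, l4⟩ := amalg_lim hS (r := r) (u := fun n => (x (n + 1)).1)
    (Γ := fun n => (π n).G0) (fun n => (hst n).1.cond)
    (fun n => ((hst n).2 n le_rfl).1.alt (hst n).1.cond) (fun n => h4 n _ (hx n))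
    (fun n => h1 (n + 1) _ (hx (n + 1))) (fun n m h => ((hst m).2 m le_rfl).2 ▸ hd0 n m h) (by
      intro n m h l hl hk j G
      rw [((hst m).2 m le_rfl).2, ← ((hst n).2 m h).2] at hk
      obtain ⟨l₀, ⟨a1, a2⟩, a3⟩ := hk
      rcases ((hst n).2 m h).1.new l₀ a1 a2 with ⟨y, b₀, b₁, c, rfl, -⟩ | ⟨_, -, _, -, ⟨b, a4⟩, -⟩
      · obtain ⟨v, c'⟩ := l
        obtain rfl : pr 0 y = v := a3
        exact IsFact.not_col
      · rw [(hst n).1.cond.fn l hl _ a4 a3.symm]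
        exact IsFact.not_neg)
  have hL : Ext F L p :=
    ⟨l1, fun l hl => l0 l fun m => (hst m).1.T hl, (hst 0).1.nm.trans (l2 0)⟩
  obtain ⟨Z, hZ, hZ'⟩ := pseudo hS.s1 (fun n => (x n).2) (fun n => (hx n).2) fun n => h2 n _ (hx n)
  obtain ⟨K, hK⟩ := exists_watimage d Z 0
  obtain ⟨s, hs, Δ, f, c1, c2, h6⟩ := dich hS (hI _ hL) K (!e)
  obtain ⟨N, hN⟩ := l4 s hs Δ f c1 c2
  rcases h6 with h6 | ⟨w, h6, h7⟩
  · obtain ⟨n, a1, a2⟩ := hZ N
    have a3 := ((hst n).2 n le_rfl).1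
    obtain ⟨s', b1, b2⟩ := hN n a1
    exact consis (hI _ (b1.trans (hst n).1)) (a3.en1.mono (a3.sub.trans b1.T))
      ((h6 _ ((hK _).2 ⟨n, a2, IsPA.nonneg _, hw n⟩)).mono b2)
  · rw [Bool.not_not] at h7
    obtain ⟨n, a1, -, a2⟩ := (hK w).1 h6
    by_cases h8 : n ∈ omega M
    · obtain ⟨n, rfl⟩ := h8
      obtain rfl := wat_unique a2 (hw n)
      exact consis (hI s (hs.trans hL)) (h7.mono c1) ((hr n).en0.mono ((l3 n).trans hs.T))
    · obtain ⟨s', b1, b2⟩ := hN N le_rfl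
      exact h3 N _ (hx N) _ b1 n w (hZ' (N + 1) n a1 h8) h8 a2 (h7.mono b2)

end Pool.Agent.MP_6072c5_lc.U71
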