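import Pool.Agent.MP_6072c5_lc.U71.Final
import Pool.Agent.MP_6072c5_lc.U71.GenL
import Pool.Agent.MP_6072c5_lc.U71.Petals
import Pool.Agent.MP_6072c5_lc.U71.Worlds
import Pool.Agent.MP_6072c5_lc.U71.Baire

/-! No cone of minimal covers. -/

set_option linter.unusedSectionVars false
set_option synthInstance.maxSize 100000

namespace Pool.Agent.MP_6072c5_lc.U71

open Cardinal

universe u v

variable {M : Type u} [CommSemiring M] [LinearOrder M] [IsPA M]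
variable {F : Set M} {p q : Pre M} {C : Rel M}

theorem exists_gen (hS : SatM M) (F : Set M) {ι : Type u}
    (hι : #ι ≤ #M) (D : ι → Pre M → Prop) : ∃ G, Gen F G ∧ ∀ i, Meets F G (D i) := by
  obtain ⟨o, ho⟩ := exists_empty (M := M)
  have h0 : IsCond F (⟨∅, fun _ => o, ∅, ∅⟩ : Pre M) := by
    have e : ∀ j : M, Facts (∅ : Set (Lit M)) j = ∅ := fun j => by simp [Facts]
    have : 0 < #M := aleph0_pos.trans hS.unc
    constructor <;> simp [e, this, Good, ho]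
  let E : ι ⊕ (M × Bool × ℕ) → Pre M → Prop := fun x p =>
    match x with
    | .inl i => D i p
    | .inr (v, _, 0) => v ∈ keys p.T
    | .inr (k, b, 1) => ∃ v c, mem v k ∧ (v, b, c) ∈ p.T
    | .inr (k, b, _ + 2) => ∃ v c, mem v k ∧ (v, c, b) ∈ p.T
  have hc : #(ι ⊕ (M × Bool × ℕ)) ≤ #M := by
    simp only [mk_sum, mk_prod _ (Bool × ℕ), lift_id, lift_uzero]
    exact add_le_of_le hS.unc.le hι (mul_le_of_le hS.unc.le le_rfl
      ((lift_le_aleph0.2 mk_le_aleph0).trans hS.unc.le))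
  obtain ⟨G, h1, h2, h3⟩ := exists_generic (P := {p : Pre M // IsCond F p}) hS.unc.le
    (fun q p => Ext F q.1 p.1) (fun p => Ext.refl p.2) (fun _ _ _ => Ext.trans)
    (fun S h hne hch => by
      obtain ⟨q, a1, a2⟩ := chain_bound hS Subtype.val h hne (fun a _ => a.2) hch
      exact ⟨⟨q, a1⟩, a2⟩)
    hc (fun i p => E i p.1) ⟨_, h0⟩
  have meets : ∀ i, Meets F (Subtype.val '' G) (E i) := by
    rintro i _ ⟨q₀, hq, rfl⟩ h
    obtain ⟨q, hq, h⟩ := h3 i q₀ hq fun q hq => by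
      obtain ⟨r, a, b⟩ := h q.1 hq
      exact ⟨⟨r, a.cond⟩, a, b⟩
    exact ⟨q.1, ⟨q, hq, rfl⟩, h⟩
  refine ⟨Subtype.val '' G, ⟨?_, ⟨_, _, h1, rfl⟩, ?_, fun v => ?_, fun k hk b => ⟨?_, ?_⟩⟩,
    fun i => meets (.inl i)⟩
  · rintro _ ⟨p, -, rfl⟩
    exact p.2
  · rintro _ ⟨p, hp, rfl⟩ _ ⟨q, hq, rfl⟩
    obtain ⟨r, hr, h⟩ := h2 p hp q hq
    exact ⟨r.1, ⟨r, hr, rfl⟩, h⟩
  · refine meets (.inr (v, true, 0)) _ ⟨_, h1, rfl⟩ fun q hq => ?_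
    by_cases hv : v ∈ keys q.T
    · exact ⟨q, Ext.refl hq.cond, hv⟩
    · obtain ⟨c, hc⟩ := (dec_ext hS hq.cond hv true).1
      exact ⟨_, hc, _, Or.inr rfl, rfl⟩
  · refine meets (.inr (k, b, 1)) _ ⟨_, h1, rfl⟩ fun q hq => ?_
    obtain ⟨v, hv, hv'⟩ := exists_fresh hS hk (keys_small hq.cond.cT)
    obtain ⟨c, hc⟩ := (dec_ext hS hq.cond hv' b).1
    exact ⟨_, hc, v, c, hv, Or.inr rfl⟩
  · refine meets (.inr (k, b, 2)) _ ⟨_, h1, rfl⟩ fun q hq => ?_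
    obtain ⟨v, hv, hv'⟩ := exists_fresh hS hk (keys_small hq.cond.cT)
    obtain ⟨c, hc⟩ := (dec_ext hS hq.cond hv' b).2
    exact ⟨_, hc, v, c, hv, Or.inr rfl⟩

theorem BMF.ext {d μ : M} (h : BMF F C p d μ) (hq : Ext F q p) : BMF F C q d μ :=
  ⟨h.1, h.2.1, fun r hr => h.2.2 r (hr.trans hq)⟩

/-- the four outcomes for the functional `C` -/
def Ph (F : Set M) (C : Rel M) (q : Pre M) : Prop :=
  Inv F C q ∨ (∀ q', Ext F q' q → Ins F C q') ∨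
    (∃ d μ x, pr d (pr μ x) ≠ 0 ∧ pr d (pr μ x) ∈ q.Z ∧ BMF F C q d μ ∧
      ∀ Ψ : Rel M, (S1 fun v => Ψ (v 0) (v 1) (v 2) (v 3)) → ∀ i b, Ext F b q → ∃ r, Ext F r b ∧
        (Wrong r.T C (pr d (pr μ x)) i Ψ ∨ Div F C (pr d (pr μ x)) i Ψ r)) ∨
    ∃ (b : Pre M) (j t a₁ : M) (Ψ : Rel M) (i : Bool), (S1 fun v => Ψ (v 0) (v 1) (v 2) (v 3)) ∧
      IsCond F b ∧ j ∈ b.Z ∧ j ≠ 0 ∧ q = modeOn b j t ∧ En1 b.T C true a₁ ∧
      (∀ r, Ext F r b → ¬ Wrong r.T C j i Ψ) ∧ RdDense F C b j t i Ψ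

theorem ph_dense (hS : SatM M) (hp : IsCond F p) (C : Rel M) :
    ∃ q, Ext F q p ∧ Ph F C q := by
  by_cases h1 : ∃ q, Ext F q p ∧ Inv F C q
  · exact h1.imp fun q h => ⟨h.1, Or.inl h.2⟩
  by_cases h2 : ∃ q, Ext F q p ∧ ∀ q', Ext F q' q → Ins F C q'
  · exact h2.imp fun q h => ⟨h.1, Or.inr (Or.inl h.2)⟩
  push Not at h1 h2
  obtain ⟨u, e, π, a1, a2, a3, a4⟩ := exists_petals hS hp h1 h2
  obtain ⟨q, d₀, Y₀, b1, b2, b3, b4⟩ := exists_bmy hS hp h1 a1 a2 a3 a4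
  obtain ⟨d, μ, hB⟩ := reindex hS.s1 b2 b3 b4
  obtain ⟨Y, hY⟩ := compr (P := fun x : M => x = x) (by exact ArI.out) μ
  have y1 : ∀ n, mem n Y → n ≤ μ := fun n hn => ((hY n).1 hn).1.le
  have y2 : InfStd Y := fun N => ⟨N, le_rfl, (hY _).2 ⟨nat_lt_of_nonstd hB.1 N, rfl⟩⟩
  obtain ⟨s₀, c1, -, a₀, -, -, -, c2⟩ := hB.2.2 q (Ext.refl b1.cond) Y y1 y2 false
  obtain ⟨s, c3, -, a₁, -, -, -, c4⟩ := hB.2.2 s₀ c1 Y y1 y2 true
  obtain ⟨x, hx⟩ := exists_not_mem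
    (hS.insert (hS.union c3.cond.cZ (small_image c3.cond.cM Mode.j)) 0) (f := fun x => pr d (pr μ x))
    fun x y e => (pr_inj.1 (pr_inj.1 e).2).2
  have hf : Free s (pr d (pr μ x)) := fun m hm e => hx (Or.inr (Or.inr ⟨m, hm, e⟩))
  have h0 : pr d (pr μ x) ≠ 0 := fun e => hx (Or.inl e)
  have hs : Ext F s p := (c3.trans c1).trans b1
  have hp' := protect_ext hS c3.cond hf
  by_cases h3 : ∀ Ψ : Rel M, (S1 fun v => Ψ (v 0) (v 1) (v 2) (v 3)) → ∀ i b,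
      Ext F b (protect s (pr d (pr μ x))) → ∃ r, Ext F r b ∧
        (Wrong r.T C (pr d (pr μ x)) i Ψ ∨ Div F C (pr d (pr μ x)) i Ψ r)
  · exact ⟨_, hp'.trans hs, Or.inr (Or.inr (Or.inl ⟨d, μ, x, h0, Or.inl rfl,
      hB.ext (hp'.trans (c3.trans c1)), h3⟩))⟩
  · push Not at h3
    obtain ⟨Ψ, hΨ, i, b, hb, h3⟩ := h3
    obtain ⟨b', t, d1, d2⟩ := baire hS hb.cond (hb.nm.Z (Or.inl rfl)) h0
      ((c2.mono c3.T).mono hb.T) fun r hr => (h3 r hr).2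
    exact ⟨_, (modeOn_ext hS (fun h => hx (Or.inr (Or.inl h))) (d1.trans hb)).trans hs,
      Or.inr (Or.inr (Or.inr ⟨b', _, t, a₁, Ψ, i, hΨ, d1.cond, (d1.trans hb).nm.Z (Or.inl rfl),
        h0, rfl, c4.mono (d1.trans hb).T, fun r hr => (h3 r (hr.trans d1)).1, d2⟩))⟩

/-- the dense sets -/
def Task (F : Set M) (C Ψ : Rel M) (i : Bool) (x : ℕ → M) (c : Bool × Bool) :
    ℕ → Pre M → Prop
  | 0, p => Ph F C p
  | 1, p => MWin F C i Ψ p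
  | 2, p => ∃ n u, mem n (x 0) ∧ n ∉ omega M ∧ wat (x 1) n u ∧ En1 p.T C i u
  | 3, p => Tot p (x 0) (x 1)
  | 4, p => Wrong p.T C (x 0) i Ψ ∨ Div F C (x 0) i Ψ p
  | _ + 5, p => ∃ m ∈ p.Md, m.j = x 0 ∧ ∃ k₁ k₀, En p.T C k₁ k₀ ∧ Rd m Ψ i (lit (x 1, c)) k₁ k₀

theorem exists_top (hS : SatM M) (C₀ : Set M) :
    ∃ B, Red C₀ B ∧ ∀ A, Red (omega M) A → ¬ MinCover (deg A) (deg B) := by
  let S := {C : Rel M // S1 fun v => C (v 0) (v 1) (v 2) (v 3)}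
  have hc : #(S × S × M × M × (ℕ × Bool × (Bool × Bool))) ≤ #M := by
    have h0 : ℵ₀ ≤ #M := hS.unc.le
    have hr : #S ≤ #M := card_rel h0
    have key : ∀ {α β : Type u}, #α ≤ #M → #β ≤ #M → #(α × β) ≤ #M := fun h1 h2 => by
      simpa using mul_le_of_le h0 h1 h2
    refine key hr (key hr (key le_rfl ?_))
    rw [mk_prod, lift_uzero]
    exact mul_le_of_le h0 le_rfl ((lift_le_aleph0.2 mk_le_aleph0).trans h0)
  obtain ⟨G, hG, hD⟩ := exists_gen hS (facts C₀) hc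
    fun ⟨C, Ψ, x₀, x₁, n, i, c⟩ => Task (facts C₀) C.1 Ψ.1 i
      (fun k => match k with | 0 => x₀ | _ => x₁) c n
  refine ⟨BB G, hG.red_base, fun A hA hm => ?_⟩
  have hAB : Red A (BB G) := deg_le_iff.1 hm.1
  obtain ⟨C, hC⟩ := hAB.conf
  let C' : S := ⟨C, hC.s1⟩
  obtain ⟨p₀, hp₀⟩ := hG.ne
  obtain ⟨q, hq, h | h | ⟨d, μ, x, h0, hZ, hB, h⟩ |
    ⟨b, j, t, a₁, Ψ, i, hΨ, hb, hj, h0, rfl, e1, hW, hR⟩⟩ :=
    hD (C', C', 0, 0, 0, true, (true, true)) p₀ hp₀ fun q hq => ph_dense hS hq.cond C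
  · exact hG.not_inv hC hq h
  · have key : ∀ i, ¬ Red (Mask G (!i)) (join A (Mask G i)) := fun i =>
      hG.mask_not hC fun Ψ hΨ => hD (C', ⟨Ψ, hΨ⟩, 0, 0, 1, i, (true, true)) q hq
        fun r hr => mask_dense hS hr.cond (h r hr) i Ψ
    exact not_minCover hAB (Gen.mask_red G true) (Gen.mask_red G false) (key false) (key true) hm
  · have hcov : Gen.Cover G A (pr d (pr μ x)) :=
      hG.cover hC rfl hB.1
        (fun K => hD (C', C', _, K, 3, true, (true, true)) q hq fun r hr =>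
          tot_dense hS hr.cond rfl h0 (hr.cond.free_of_mem (hr.nm.Z hZ)) hB.2.1 K)
        fun Y y1 y2 e => hD (C', C', Y, d, 2, e, (true, true)) q hq fun r hr =>
          hB.2.2 r hr Y y1 y2 e
    have key : ∀ i, ¬ Red {z | prt (!i) z ∧ z ∈ Col G A (pr d (pr μ x))}
        (join A {z | prt i z ∧ z ∈ Col G A (pr d (pr μ x))}) := fun i =>
      hG.col_not hC hcov fun Ψ hΨ =>
        hD (C', ⟨Ψ, hΨ⟩, _, 0, 4, i, (true, true)) q hq fun r hr => h Ψ hΨ i r hr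
    have hr := hG.col_red hC h0 hcov
    exact not_minCover hAB ((red_inter (P := prt true) _).trans hr)
      ((red_inter (P := prt false) _).trans hr) (key false) (key true) hm
  · refine hm.2.1 (deg_eq_iff.2 ⟨hAB, (hG.win hS hC hΨ hb hj h0 hq e1 hW ?_).trans
      (red_join (Red.refl A) hA)⟩)
    rintro ⟨v, c⟩ ⟨p, hp, hl⟩
    obtain ⟨q₀, hq₀, a1, a2⟩ := hG.dir _ hq p hp
    obtain ⟨r, hr, m, hm, e, k₁, k₀, a3, a4⟩ :=
      hD (C', ⟨Ψ, hΨ⟩, j, v, 5, i, c) q₀ hq₀ fun r hr => by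
        obtain ⟨s, b1, b2⟩ := hR r (hr.trans a1) _ (hr.T (a2.T hl))
        exact ⟨s, b1, modeAt b j t, (b1.trans (hr.trans a1)).nm.Md (Or.inl rfl), rfl, b2⟩
    obtain ⟨s, -, b1, b2⟩ := hG.dir _ hq r hr
    obtain rfl := b1.cond.mfn m (b2.nm.Md hm) _ (b1.nm.Md (Or.inl rfl)) e
    exact ⟨r, hr, k₁, k₀, a3, a4⟩

theorem no_cone (hS : SatM M) (c : Deg M) :
    ∃ b, c ≤ b ∧ ∀ a, ¬ MinCover a b := by
  obtain ⟨C₀⟩ := c
  obtain ⟨U, hU⟩ := exists_not_red hS.s1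
  obtain ⟨B, h1, h2⟩ := exists_top hS (join C₀ (join U (omega M)))
  refine ⟨deg B, deg_le_iff.2 ((red_join_left _ _).trans h1), ?_⟩
  rintro ⟨X⟩ hm
  have hb : Red (join U (omega M)) B := (red_join_right _ _).trans h1
  have h3 : Red X B := deg_le_iff.1 hm.1
  refine h2 X ?_ hm
  by_contra hn
  rcases hm.2.2 (deg (join X (omega M))) (deg_le_iff.2 (red_join_left _ _))
    (deg_le_iff.2 (red_join h3 ((red_join_right _ _).trans hb))) with h | h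
  · exact hn ((red_join_right _ _).trans (deg_eq_iff.1 h).1)
  · exact hU X (dir_of_not_red hS.s1 hn) (((red_join_left _ _).trans hb).trans (deg_eq_iff.1 h).2)

end Pool.Agent.MP_6072c5_lc.U71
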