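import Pool.Agent.MP_6072c5_lc.U71.GenL

/-! Saturated models of arithmetic exist in every uncountable cardinal `κ` with `κ ^ <κ = κ`. -/

namespace Pool.Agent.MP_6072c5_lc.U71

open Cardinal Filter

universe u

namespace Mdl

variable {I : Type u}

/-- functions depending on finitely many coordinates -/
def FS {α : Type} (f : (I → ℕ) → α) : Prop :=
  ∃ A : Set I, A.Finite ∧ ∀ x y, (∀ i ∈ A, x i = y i) → f x = f y

def FS2 {α : Type} (f : (I → ℕ) → (ℕ → ℕ) → α) : Prop :=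
  ∃ A : Set I, A.Finite ∧ ∃ n : ℕ, ∀ x y w w', (∀ i ∈ A, x i = y i) → (∀ i < n, w i = w' i) →
    f x w = f y w'

variable {α β γ : Type}

theorem FS.const (a : α) : FS fun _ : I → ℕ => a := ⟨∅, Set.finite_empty, fun _ _ _ => rfl⟩

theorem FS.op (g : α → β → γ) {a : (I → ℕ) → α} {b : (I → ℕ) → β} (ha : FS a) (hb : FS b) :
    FS fun x => g (a x) (b x) := by
  obtain ⟨A, hA, h1⟩ := ha
  obtain ⟨B, hB, h2⟩ := hb
  exact ⟨A ∪ B, hA.union hB, fun x y h => by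
    beta_reduce
    rw [h1 x y fun i hi => h i (Or.inl hi), h2 x y fun i hi => h i (Or.inr hi)]⟩

theorem FS.map (g : α → β) {a : (I → ℕ) → α} (ha : FS a) : FS fun x => g (a x) :=
  FS.op (fun s _ => g s) ha ha

theorem FS.proj (c : I) : FS fun x : I → ℕ => x c :=
  ⟨{c}, Set.finite_singleton c, fun _ _ h => h c rfl⟩

theorem FS2.op (g : α → β → γ) {a : (I → ℕ) → (ℕ → ℕ) → α} {b : (I → ℕ) → (ℕ → ℕ) → β}
    (ha : FS2 a) (hb : FS2 b) : FS2 fun x w => g (a x w) (b x w) := by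
  obtain ⟨A, hA, m, h1⟩ := ha
  obtain ⟨B, hB, n, h2⟩ := hb
  exact ⟨A ∪ B, hA.union hB, m + n, fun x y w w' h h' => by
    beta_reduce
    rw [h1 x y w w' (fun i hi => h i (Or.inl hi)) fun i hi => h' i (by omega),
      h2 x y w w' (fun i hi => h i (Or.inr hi)) fun i hi => h' i (by omega)]⟩

theorem FS2.cons {a : (I → ℕ) → (ℕ → ℕ) → α} (ha : FS2 a) :
    FS2 fun x w m => a x (cons m w) := by
  obtain ⟨A, hA, n, h⟩ := ha
  refine ⟨A, hA, n, fun x y w w' h1 h2 => funext fun m => h _ _ _ _ h1 fun i hi => ?_⟩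
  cases i with
  | zero => rfl
  | succ i => exact h2 i (by omega)

theorem FS2.subst {a : (I → ℕ) → (ℕ → ℕ) → α} (ha : FS2 a) {f : ℕ → (I → ℕ) → ℕ}
    (hf : ∀ i, FS (f i)) : FS fun x => a x fun i => f i x := by
  obtain ⟨A, hA, n, h⟩ := ha
  choose B hB h2 using hf
  refine ⟨A ∪ ⋃ i ∈ Set.Iio n, B i, hA.union ((Set.finite_Iio n).biUnion fun i _ => hB i),
    fun x y h1 => h _ _ _ _ (fun i hi => h1 i (Or.inl hi)) fun i hi =>
      h2 i x y fun j hj => h1 j (Or.inr (Set.mem_biUnion hi hj))⟩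

theorem card_FS {κ : Cardinal.{u}} (h0 : ℵ₀ ≤ κ) (hc : 𝔠 ≤ κ) (hI : #I ≤ κ) (hα : #α ≤ 𝔠) :
    #{f : (I → ℕ) → α // FS f} ≤ κ := by
  classical
  have h1 : {f : (I → ℕ) → α | FS f} ⊆
      Set.range fun q : List I × (List ℕ → α) => fun x => q.2 (q.1.map x) := by
    rintro f ⟨A, hA, h⟩
    refine ⟨(hA.toFinset.toList, fun w =>
      f (if h : ∃ x : I → ℕ, hA.toFinset.toList.map x = w then h.choose else 0)), funext fun x => ?_⟩
    have h2 : ∃ y : I → ℕ, hA.toFinset.toList.map y = hA.toFinset.toList.map x := ⟨x, rfl⟩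
    simp only [dif_pos h2]
    exact h _ _ fun i hi => List.map_inj_left.1 h2.choose_spec i (by simpa using hi)
  refine (mk_le_mk_of_subset h1).trans (mk_range_le.trans ?_)
  simp only [mk_prod, lift_uzero]
  refine mul_le_of_le h0 ((mk_list_le_max I).trans (max_le h0 hI)) (le_trans ?_ hc)
  rw [← lift_continuum.{u, 0}, Cardinal.lift_le, ← power_def]
  refine (power_le_power_right hα).trans ?_
  simp

theorem card_small {T : Type u} {κ : Cardinal.{u}} (h0 : ℵ₀ ≤ κ) (h : ∀ μ < κ, κ ^ μ ≤ κ)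
    (hT : #T ≤ κ) : #{R : Set T // #R < κ} ≤ κ := by
  obtain ⟨lt, wo, hlt⟩ := Cardinal.exists_ord_eq κ.out
  have h1 : {R : Set T | #R < κ} ⊆ ⋃ i : κ.out, {R | #R ≤ (Ordinal.typein lt i).card} := by
    intro R hR
    obtain ⟨i, hi⟩ := Ordinal.typein_surj lt (o := (#R).ord) (by
      rw [← hlt, mk_out]; exact ord_lt_ord.2 hR)
    exact Set.mem_iUnion.2 ⟨i, by simp [hi]⟩
  refine (mk_le_mk_of_subset h1).trans (mk_iUnion_le_sum_mk.trans
    ((sum_le_sum _ (fun _ => κ) fun i => ?_).trans ?_))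
  · refine le_trans (mk_bounded_set_le T (Ordinal.typein lt i).card)
      ((power_le_power_right (max_le hT h0)).trans (h _ ?_))
    simpa using card_typein_lt (r := lt) i hlt
  · simp [mul_eq_self h0]

/-- the finite intersection property -/
def FIP (p : Set (Set (I → ℕ))) : Prop := ∀ t ⊆ p, t.Finite → (⋂₀ t).Nonempty

theorem exists_ultra {κ : Cardinal.{u}} (h0 : ℵ₀ < κ) (h : ∀ μ < κ, κ ^ μ ≤ κ) (hc : 𝔠 ≤ κ)
    (hI : #I = κ) : ∃ D : Ultrafilter (I → ℕ), ∀ R : Set {r : (I → ℕ) → ℕ → Prop // FS r}, #R < κ →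
      (∀ J ⊆ R, J.Finite → ∀ᶠ x in D, ∃ n, ∀ r ∈ J, r.1 x n) →
        ∃ c, ∀ r ∈ R, ∀ᶠ x in D, r.1 x (x c) := by
  classical
  have hreg : κ.IsRegular := ⟨h0.le, le_of_not_gt fun hh =>
    absurd (h _ hh) (not_le.2 (lt_power_cof_ord h0.le))⟩
  let P := {p : Set (Set (I → ℕ)) // #p < κ ∧ (∀ s ∈ p, FS fun x => x ∈ s) ∧ FIP p}
  let T := {r : (I → ℕ) → ℕ → Prop // FS r}
  have hT : #T ≤ κ := card_FS h0.le hc hI.le (by simp)
  obtain ⟨G, h1, h2, h3⟩ := exists_generic (P := P) (ι := {R : Set T // #R < κ}) h0.le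
    (fun q p => p.1 ⊆ q.1) (fun _ => subset_rfl) (fun _ _ _ a b => b.trans a)
    (fun S hS hne hch => ⟨⟨⋃ a ∈ S, a.1,
      (card_biUnion_lt_iff_forall_of_isRegular hreg hS).2 fun a _ => a.2.1,
      fun s hs => by
        obtain ⟨a, _, h⟩ := Set.mem_iUnion₂.1 hs
        exact a.2.2.1 s h,
      fun t ht hf => by
        obtain ⟨a, _, h⟩ := DirectedOn.exists_mem_subset_of_finset_subset_biUnion
          (f := fun a : P => a.1) hne (fun a ha b hb => (hch a ha b hb).elim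
            (fun e => ⟨a, ha, subset_rfl, e⟩) fun e => ⟨b, hb, e, subset_rfl⟩)
          (s := hf.toFinset) (by simpa using ht)
        exact a.2.2.2 t (by simpa using h) hf⟩,
      fun a ha => Set.subset_biUnion_of_mem (u := fun a : P => a.1) ha⟩)
    (card_small h0.le h hT)
    (fun R q => (∃ J ⊆ R.1, J.Finite ∧ {x | ¬ ∃ n, ∀ r ∈ J, r.1 x n} ∈ q.1) ∨
      ∃ c, ∀ r ∈ R.1, {x | r.1 x (x c)} ∈ q.1)
    ⟨∅, by simpa using aleph0_pos.trans h0, fun _ h => h.elim, fun t ht _ => by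
      simp [Set.subset_empty_iff.1 ht]⟩
  have hne : (generate (⋃ a ∈ G, a.1)).NeBot := generate_neBot_iff.2 fun t ht hf => by
    obtain ⟨a, _, h⟩ := DirectedOn.exists_mem_subset_of_finset_subset_biUnion
      (f := fun a : P => a.1) ⟨_, h1⟩ (fun a ha b hb => h2 a ha b hb)
      (s := hf.toFinset) (by simpa using ht)
    exact a.2.2.2 t (by simpa using h) hf
  have hD : ∀ q ∈ G, ∀ s ∈ q.1, s ∈ Ultrafilter.of (generate (⋃ a ∈ G, a.1)) :=
    fun q hq s hs => Ultrafilter.of_le _ (mem_generate_of_mem (Set.mem_biUnion hq hs))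
  refine ⟨Ultrafilter.of (generate (⋃ a ∈ G, a.1)), fun R hR hF => ?_⟩
  refine (h3 ⟨R, hR⟩ _ h1 fun q _ => ?_).elim ?_
  swap
  · rintro q ⟨hq, ⟨J, j1, j2, j3⟩ | ⟨c, h4⟩⟩
    · obtain ⟨x, x1, x2⟩ := ((hF J j1 j2).and (hD q hq _ j3)).exists
      exact absurd x1 x2
    · exact ⟨c, fun r hr => hD q hq _ (h4 r hr)⟩
  choose sr sr1 sr2 using fun r : T => r.2
  by_cases hJ : ∃ J ⊆ R, J.Finite ∧ FIP (insert {x | ¬ ∃ n, ∀ r ∈ J, r.1 x n} q.1)
  · obtain ⟨J, j1, j2, j3⟩ := hJ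
    refine ⟨⟨insert _ q.1, mk_insert_le.trans_lt (add_lt_of_lt h0.le q.2.1
      (one_lt_aleph0.trans h0)), ?_, j3⟩, Set.subset_insert _ _,
      Or.inl ⟨J, j1, j2, Set.mem_insert _ _⟩⟩
    rintro s (rfl | hs)
    · refine ⟨⋃ r ∈ J, sr r, j2.biUnion fun r _ => sr1 r, fun x y hxy => ?_⟩
      have : ∀ r ∈ J, r.1 x = r.1 y := fun r hr =>
        sr2 r x y fun i hi => hxy i (Set.mem_biUnion hr hi)
      exact propext (not_congr (exists_congr fun n => forall₂_congr fun r hr => by rw [this r hr]))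
    · exact q.2.2.1 s hs
  choose sq sq1 sq2 using fun s : q.1 => q.2.2.1 s.1 s.2
  have hsm : #((⋃ r ∈ R, sr r) ∪ ⋃ s, sq s : Set I) < κ :=
    (mk_union_le _ _).trans_lt (add_lt_of_lt h0.le
      ((card_biUnion_lt_iff_forall_of_isRegular hreg hR).2 fun r _ =>
        (sr1 r).lt_aleph0.trans h0)
      ((card_iUnion_lt_iff_forall_of_isRegular hreg q.2.1).2 fun s => (sq1 s).lt_aleph0.trans h0))
  obtain ⟨c, hc'⟩ : ∃ c, c ∉ ((⋃ r ∈ R, sr r) ∪ ⋃ s, sq s : Set I) := by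
    by_contra! hh
    rw [Set.eq_univ_of_forall hh, mk_univ, hI] at hsm
    exact lt_irrefl _ hsm
  refine ⟨⟨q.1 ∪ (fun r : T => {x | r.1 x (x c)}) '' R, (mk_union_le _ _).trans_lt
    (add_lt_of_lt h0.le q.2.1 (mk_image_le.trans_lt hR)), ?_, fun t ht hf => ?_⟩,
    Set.subset_union_left, Or.inr ⟨c, fun r hr => Or.inr ⟨r, hr, rfl⟩⟩⟩
  · rintro s (hs | ⟨r, _, rfl⟩)
    · exact q.2.2.1 s hs
    · exact FS.op (fun a b => a b) r.2 (FS.proj c)
  obtain ⟨J, j1, j2, j3⟩ := Set.Finite.exists_subset_finite_image_eq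
    (f := fun r : T => {x | r.1 x (x c)}) (s := R) (hf.subset (Set.diff_subset (t := q.1)))
    (fun s hs => (ht hs.1).resolve_left hs.2)
  have h5 : ¬ FIP (insert {x | ¬ ∃ n, ∀ r ∈ J, r.1 x n} q.1) := fun e => hJ ⟨J, j1, j2, e⟩
  obtain ⟨t', t1, t2, t3⟩ : ∃ t' ⊆ insert {x | ¬ ∃ n, ∀ r ∈ J, r.1 x n} q.1, t'.Finite ∧
      ¬ (⋂₀ t').Nonempty := by simpa [FIP] using h5
  obtain ⟨x, hx⟩ := q.2.2.2 ((t ∪ t') ∩ q.1) Set.inter_subset_right
    ((hf.union t2).inter_of_left _)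
  obtain ⟨n, hn⟩ : ∃ n, ∀ r ∈ J, r.1 x n := by
    by_contra hh
    refine t3 ⟨x, fun s hs => ?_⟩
    rcases t1 hs with rfl | e
    · exact hh
    · exact hx s ⟨Or.inr hs, e⟩
  have hu : ∀ A : Set I, c ∉ A → ∀ i ∈ A, Function.update x c n i = x i := fun A hA i hi =>
    Function.update_of_ne (fun e : i = c => hA (e ▸ hi)) _ _
  refine ⟨Function.update x c n, fun s hs => ?_⟩
  by_cases e : s ∈ q.1
  · have := sq2 ⟨s, e⟩ _ _ (hu _ fun hh => hc' (Or.inr (Set.mem_iUnion.2 ⟨⟨s, e⟩, hh⟩)))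
    exact this.mpr (hx s ⟨Or.inl hs, e⟩)
  · obtain ⟨r, hr, rfl⟩ : s ∈ (fun r : T => {x | r.1 x (x c)}) '' J := j3 ▸ ⟨hs, e⟩
    show r.1 _ (Function.update x c n c)
    rw [sr2 r _ _ (hu _ fun hh => hc' (Or.inl (Set.mem_biUnion (j1 hr) hh))), Function.update_self]
    exact hn r hr

variable (D : Ultrafilter (I → ℕ))

/-- germs of finitely supported functions -/
def LU : Subsemiring (Germ (D : Filter (I → ℕ)) ℕ) where
  carrier := {z | ∃ f : (I → ℕ) → ℕ, FS f ∧ z = f}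
  mul_mem' := by
    rintro _ _ ⟨f, hf, rfl⟩ ⟨g, hg, rfl⟩
    exact ⟨_, FS.op (· * ·) hf hg, rfl⟩
  add_mem' := by
    rintro _ _ ⟨f, hf, rfl⟩ ⟨g, hg, rfl⟩
    exact ⟨_, FS.op (· + ·) hf hg, rfl⟩
  one_mem' := ⟨_, FS.const 1, rfl⟩
  zero_mem' := ⟨_, FS.const 0, rfl⟩

variable {D}

/-- the germ of a finitely supported function -/
def ge {f : (I → ℕ) → ℕ} (hf : FS f) : LU D := ⟨f, f, hf, rfl⟩

theorem ge_ind {p : LU D → Prop} (h : ∀ f (hf : FS f), p (ge hf)) (z : LU D) : p z := by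
  obtain ⟨_, f, hf, rfl⟩ := z
  exact h f hf

theorem los_tm {s : (ℕ → LU D) → LU D} (hs : Tm s) : ∃ s' : (I → ℕ) → (ℕ → ℕ) → ℕ, FS2 s' ∧
    ∀ (f : ℕ → (I → ℕ) → ℕ) (hf : ∀ i, FS (f i)),
      (s fun i => ge (hf i)).1 = ((fun x => s' x fun i => f i x : (I → ℕ) → ℕ) : Germ _ ℕ) := by
  induction hs with
  | var i => exact ⟨fun _ w => w i, ⟨∅, Set.finite_empty, i + 1, fun _ _ _ _ _ h =>
      h i (Nat.lt_succ_self i)⟩, fun f _ => rfl⟩
  | const c =>
    obtain ⟨_, g, ⟨A, hA, h⟩, rfl⟩ := c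
    exact ⟨fun n _ => g n, ⟨A, hA, 0, fun x y _ _ e _ => h x y e⟩, fun f _ => rfl⟩
  | add _ _ ih1 ih2 =>
    obtain ⟨a, a1, ha⟩ := ih1
    obtain ⟨b, b1, hb⟩ := ih2
    exact ⟨_, FS2.op (· + ·) a1 b1, fun f hf => by
      simp only [Subsemiring.coe_add, ha, hb]; rfl⟩
  | mul _ _ ih1 ih2 =>
    obtain ⟨a, a1, ha⟩ := ih1
    obtain ⟨b, b1, hb⟩ := ih2
    exact ⟨_, FS2.op (· * ·) a1 b1, fun f hf => by
      simp only [Subsemiring.coe_mul, ha, hb]; rfl⟩

theorem los {P : (ℕ → LU D) → Prop} (hP : Ar P) : ∃ P' : (I → ℕ) → (ℕ → ℕ) → Prop, FS2 P' ∧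
    ∀ (f : ℕ → (I → ℕ) → ℕ) (hf : ∀ i, FS (f i)),
      P (fun i => ge (hf i)) ↔ ∀ᶠ x in (D : Filter (I → ℕ)), P' x fun i => f i x := by
  induction hP with
  | eq h1 h2 =>
    obtain ⟨a, a1, ha⟩ := los_tm h1
    obtain ⟨b, b1, hb⟩ := los_tm h2
    exact ⟨_, FS2.op (· = ·) a1 b1, fun f hf => by
      simp only [Subtype.ext_iff, ha, hb]; exact Germ.coe_eq⟩
  | lt h1 h2 =>
    obtain ⟨a, a1, ha⟩ := los_tm h1
    obtain ⟨b, b1, hb⟩ := los_tm h2
    exact ⟨_, FS2.op (· < ·) a1 b1, fun f hf => by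
      simp only [← Subtype.coe_lt_coe, ha, hb]; exact Germ.coe_lt⟩
  | not _ ih =>
    obtain ⟨a, a1, ha⟩ := ih
    exact ⟨_, FS2.op (fun s _ => ¬ s) a1 a1, fun f hf => by
      simp only [ha]; exact Ultrafilter.eventually_not.symm⟩
  | and _ _ ih1 ih2 =>
    obtain ⟨a, a1, ha⟩ := ih1
    obtain ⟨b, b1, hb⟩ := ih2
    exact ⟨_, FS2.op (· ∧ ·) a1 b1, fun f hf => by
      simp only [ha, hb]; exact eventually_and.symm⟩
  | @ex P _ ih =>
    obtain ⟨a, a1, ha⟩ := ih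
    have key : ∀ (f : ℕ → (I → ℕ) → ℕ) (hf : ∀ i, FS (f i)) (g : (I → ℕ) → ℕ) (hg : FS g),
        P (cons (ge hg) fun i => ge (hf i)) ↔
          ∀ᶠ x in (D : Filter (I → ℕ)), a x (cons (g x) fun i => f i x) := by
      intro f hf g hg
      have h1 : ∀ i, FS fun x => cons (g x) (fun k => f k x) i := fun i => by
        cases i with
        | zero => exact hg
        | succ i => exact hf i
      rw [← ha _ h1]
      congr! with i
      cases i <;> rfl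
    refine ⟨_, FS2.op (fun s _ => ∃ m, s m) a1.cons a1, fun f hf => ⟨?_, fun h => ?_⟩⟩
    · rintro ⟨z, hz⟩
      induction z using ge_ind with
      | h g hg => exact ((key f hf g hg).1 hz).mono fun n hn => ⟨g n, hn⟩
    · exact ⟨_, (key f hf _ ((a1.cons.subst hf).map (@Classical.epsilon ℕ ⟨0⟩))).2
        (h.mono fun n hn => Classical.epsilon_spec hn)⟩

theorem los1 {P : LU D → Prop} (hP : Ar fun v => P (v 0)) : ∃ S : (I → ℕ) → ℕ → Prop, FS S ∧
    ∀ (g : (I → ℕ) → ℕ) (hg : FS g), P (ge hg) ↔ ∀ᶠ x in (D : Filter (I → ℕ)), S x (g x) := by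
  obtain ⟨a, ⟨A, hA, n, h⟩, ha⟩ := los hP
  exact ⟨fun x m => a x fun _ => m, ⟨A, hA, fun x y e => funext fun m =>
    h _ _ _ _ e fun _ _ => rfl⟩, fun g hg => ha (fun _ => g) fun _ => hg⟩

instance : IsPA (LU D) where
  nonneg x := by
    induction x using ge_ind with
    | h g hg => exact Germ.coe_le.2 (Eventually.of_forall fun n => Nat.zero_le _)
  discrete x hx := by
    induction x using ge_ind with
    | h g hg => exact Germ.coe_le.2 ((Germ.coe_lt.1 hx).mono fun n hn => hn)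
  sub x y h := by
    induction x using ge_ind with
    | h f hf =>
      induction y using ge_ind with
      | h g hg =>
        exact ⟨ge (FS.op (· - ·) hg hf), Subtype.ext (Germ.coe_eq.2
          ((Germ.coe_le.1 h).mono fun n hn => Nat.add_sub_cancel' hn))⟩
  ind P hP h0 hs x := by
    obtain ⟨S, S1, hS⟩ := los1 hP
    induction x using ge_ind with
    | h f hf =>
      by_contra hn
      rw [hS, ← Ultrafilter.eventually_not] at hn
      let g : (I → ℕ) → ℕ := fun n => sInf {m | ¬ S n m}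
      have hg : FS g := S1.map fun s => sInf {m | ¬ s m}
      have h1 : ∀ᶠ n in (D : Filter (I → ℕ)), ¬ S n (g n) ∧ ∀ m < g n, S n m :=
        hn.mono fun n h => ⟨Nat.sInf_mem (s := {m | ¬ S n m}) ⟨f n, h⟩,
          fun m hm => not_not.1 (Nat.notMem_of_lt_sInf hm)⟩
      have h2 : ∀ᶠ n in (D : Filter (I → ℕ)), S n 0 := (hS _ (FS.const 0)).1 h0
      have h3 : ∀ᶠ n in (D : Filter (I → ℕ)), 0 < g n :=
        (h1.and h2).mono fun n h => Nat.pos_of_ne_zero fun e => h.1.1 (e ▸ h.2)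
      have h4 := hs _ ((hS _ (hg.map (· - 1))).2
        ((h1.and h3).mono fun n h => h.1.2 _ (by omega)))
      have h5 := (hS _ (hg.map (· - 1 + 1))).1 h4
      obtain ⟨n, h⟩ := ((h1.and h3).and h5).exists
      exact h.1.1.1 (by have := h.2; rwa [Nat.sub_add_cancel h.1.2] at this)

end Mdl

theorem exists_sat {κ : Cardinal.{u}} (h0 : ℵ₀ < κ) (h : ∀ μ < κ, κ ^ μ ≤ κ) :
    ∃ (M : Type u) (_ : CommSemiring M) (_ : LinearOrder M) (_ : IsPA M), Sat κ M ∧ #M = κ := by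
  classical
  have hc : 𝔠 ≤ κ := (power_le_power_right (two_le_iff_one_lt.2
    (one_lt_aleph0.trans h0))).trans (h _ h0)
  obtain ⟨D, hD⟩ := Mdl.exists_ultra h0 h hc (mk_out κ)
  have hs : Sat κ (Mdl.LU D) := by
    intro ι S hι hA hF
    choose T T1 hT using fun i => Mdl.los1 (hA i)
    obtain ⟨c, h1⟩ := hD (Set.range fun i => ⟨T i, T1 i⟩) (mk_range_le.trans_lt hι)
      fun J j1 j2 => by
        choose e he using j1
        obtain ⟨x, hx⟩ := hF (j2.toFinset.attach.image fun r => e (j2.mem_toFinset.1 r.2))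
        induction x using Mdl.ge_ind with
        | h g hg =>
          refine ((eventually_all_finite j2).2 fun r hr => ?_).mono fun n hn => ⟨g n, hn⟩
          rw [← he hr]
          exact (hT _ g hg).1 (hx _ (Finset.mem_image.2
            ⟨⟨r, j2.mem_toFinset.2 hr⟩, Finset.mem_attach _ _, rfl⟩))
    exact ⟨Mdl.ge (Mdl.FS.proj c), fun i => (hT i _ _).2 (h1 _ ⟨i, rfl⟩)⟩
  refine ⟨Mdl.LU D, inferInstance, inferInstance, inferInstance, hs, le_antisymm ?_ ?_⟩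
  · refine le_trans (mk_le_of_surjective (f := fun f : {f // Mdl.FS f} => Mdl.ge f.2)
      (Mdl.ge_ind fun f hf => ⟨⟨f, hf⟩, rfl⟩)) (Mdl.card_FS h0.le hc (mk_out κ).le ?_)
    simpa using aleph0_le_continuum
  · by_contra! hlt
    obtain ⟨x, hx⟩ := hs _ (fun a y => ¬ y = a) hlt
      (fun a => Ar.not (Ar.eq (Tm.var 0) (Tm.const a))) fun F => by
        have : Infinite (Mdl.LU D) := Infinite.of_injective _ Nat.cast_injective
        obtain ⟨x, hx⟩ := Infinite.exists_notMem_finset F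
        exact ⟨x, fun i hi e => hx (e ▸ hi)⟩
    exact hx x rfl

theorem univ_pow (μ : Cardinal.{u + 1}) (h : μ < Cardinal.univ.{u, u + 1}) :
    Cardinal.univ.{u, u + 1} ^ μ ≤ Cardinal.univ.{u, u + 1} := by
  have hi := IsInaccessible.univ.{u, u + 1}
  generalize Cardinal.univ.{u, u + 1} = κ at *
  induction κ using Cardinal.inductionOn with | _ A => ?_
  induction μ using Cardinal.inductionOn with | _ B => ?_
  obtain ⟨e⟩ := (Cardinal.le_def _ _).1 h.le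
  have hA : #(A × A) = #A := by simp [mul_eq_self hi.aleph0_lt.le]
  have h1 := mk_subset_mk_lt_cof (α := A × A) (hA ▸ hi.isStrongPrelimit)
  rw [hA, hi.isRegular.cof_ord] at h1
  rw [power_def, ← h1]
  refine mk_le_of_injective (f := fun f => ⟨Set.range fun b => (e b, f b),
    mk_range_le.trans_lt h⟩) fun f g hfg => funext fun b => ?_
  obtain ⟨b', hb⟩ : (e b, f b) ∈ Set.range fun b => (e b, g b) :=
    (congrArg Subtype.val hfg).le ⟨b, rfl⟩
  obtain rfl := e.injective (congrArg Prod.fst hb)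
  exact (congrArg Prod.snd hb).symm

theorem exists_sat_univ : ∃ (M : Type (u + 1)) (_ : CommSemiring M) (_ : LinearOrder M)
    (_ : IsPA M), Sat #M M ∧ ℵ₀ < #M := by
  obtain ⟨M, a, b, c, h1, h2⟩ :=
    exists_sat (IsInaccessible.univ.{u, u + 1}).aleph0_lt univ_pow
  exact ⟨M, a, b, c, h2 ▸ h1, h2 ▸ (IsInaccessible.univ.{u, u + 1}).aleph0_lt⟩

end Pool.Agent.MP_6072c5_lc.U71
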