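import Pool.Agent.MP_6072c5_lc.U71.Basic

/-! States, modes and limits. -/

set_option linter.unusedSectionVars false
set_option synthInstance.maxSize 100000

namespace Pool.Agent.MP_6072c5_lc.U71

open Cardinal

universe u v

variable {M : Type u} [CommSemiring M] [LinearOrder M] [IsPA M]
variable {F : Set M} {p q b : Pre M} {j t s : M}

theorem setS_self (p : Pre M) (j s : M) : (setS p j s).S j = s := if_pos rfl

theorem setS_ne (p : Pre M) {i j : M} (h : i ≠ j) (s : M) : (setS p j s).S i = p.S i := if_neg h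

theorem setS_ee (he : EE (p.S j) s) (i : M) : EE (p.S i) ((setS p j s).S i) := by
  by_cases h : i = j
  · rw [h, setS_self]
    exact he
  · rw [setS_ne p h]
    exact EE.refl _

theorem setS_good (hp : ∀ i, Good (p.S i)) (hg : Good s) (i : M) : Good ((setS p j s).S i) := by
  by_cases h : i = j
  · rw [h, setS_self]
    exact hg
  · rw [setS_ne p h]
    exact hp i

theorem setS_ext (hp : IsCond F p) (hf : Free p j) (he : EE (p.S j) s) (hg : Good s) :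
    Ext F (setS p j s) p :=
  ⟨⟨hp.cT, hp.cM, hp.cZ, hp.fn, hp.col, hp.agr,
    fun i hi G hG => (hp.fit i hi G hG).ee (setS_ee he i), setS_good hp.good hg, hp.mfn,
    fun m hm => (setS_ne p (hf m hm) s).trans (hp.mS m hm), hp.mL, hp.mZ, hp.fc⟩,
    subset_rfl, setS_ee he, subset_rfl, subset_rfl⟩

/-- a new piece of a free column, with a new clause -/
theorem fire (hS : SatM M) (hp : IsCond F p) (hj : j ≠ 0) (hf : Free p j) {g : M}
    (hg : Agree g g) (hL : FitsW (Wm (p.S j)) j (p.S j) g) :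
    ∃ q, Ext F q p ∧ g ∈ Facts q.T j ∧ Free q j ∧ Snoc (p.S j) ((0 : ℕ) : M) (pr 0 g) (q.S j) := by
  obtain ⟨s, hs⟩ := exists_snoc (p.S j) ((0 : ℕ) : M) (pr 0 g)
  have h1 := setS_ext hp hf hs.ee (hs.good_fun (hp.good j))
  obtain ⟨l, h2, h3⟩ := fact_ext hS h1.cond hj hf (g := g)
    (by rw [setS_self]; exact hL.snoc hs fun z u h _ => wat_of_agree hg h)
  exact ⟨_, h3.trans h1, ⟨l, Or.inr rfl, h2⟩, hf, (setS_self p j s).symm ▸ hs⟩

theorem protect_ext (hS : SatM M) (hp : IsCond F p) (hf : Free p j) : Ext F (protect p j) p :=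
  ⟨⟨hp.cT, hp.cM, hS.insert hp.cZ j, hp.fn, hp.col, hp.agr, hp.fit, hp.good,
      hp.mfn, hp.mS, hp.mL, fun m hm h => h.elim (hf m hm) (hp.mZ m hm), hp.fc⟩,
    subset_rfl, fun _ => EE.refl _, subset_rfl, Set.subset_insert _ _⟩

theorem modeOn_cond (hS : SatM M) (hb : IsCond F b) (hj : j ∈ b.Z) : IsCond F (modeOn b j t) := by
  have hf := hb.free_of_mem hj
  refine ⟨hb.cT, hS.insert hb.cM _, small_mono hb.cZ Set.sdiff_subset, hb.fn, hb.col, hb.agr,
    fun i hi => hb.fit i (hi.anti (Set.subset_insert _ _)), hb.good, ?_, ?_, ?_, ?_,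
    fun l hl => ?_⟩
  · rintro m (rfl | hm) m' (rfl | hm') e
    · rfl
    · exact absurd e.symm (hf m' hm')
    · exact absurd e (hf m hm)
    · exact hb.mfn m hm m' hm' e
  · rintro m (rfl | hm)
    · rfl
    · exact hb.mS m hm
  · rintro m (rfl | hm)
    · exact fun G hG => (hb.fit j hf G hG).w
    · exact hb.mL m hm
  · rintro m (rfl | hm)
    · exact fun h => h.2 rfl
    · exact fun h => hb.mZ m hm h.1
  · obtain ⟨Δ, h1, h2, h3, h4⟩ := hb.fc l hl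
    refine ⟨Δ, h1, h2, h3, ?_⟩
    rintro l' hl' y ⟨m, rfl | hm, G, z, u, a1, a2, a3, a4⟩
    · obtain ⟨n, hn⟩ := hb.fit j hf G ⟨l', h2 hl', a1⟩
      exact absurd a3 (hn z u a2).not_wm
    · exact h4 l' hl' y ⟨m, hm, G, z, u, a1, a2, a3, a4⟩

theorem modeOn_ext (hS : SatM M) (hj : j ∉ q.Z) (h : Ext F b (protect q j)) :
    Ext F (modeOn b j t) q :=
  ⟨modeOn_cond hS h.cond (h.nm.Z (Or.inl rfl)), h.T, h.nm.S,
    h.nm.Md.trans (Set.subset_insert _ _),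
    fun x hx => ⟨h.nm.Z (Or.inr hx), fun e => hj ((show x = j from e) ▸ hx)⟩⟩

theorem unmode_cond (hS : SatM M) (hp : IsCond F p) (hg : Good s)
    (hs : ∀ G ∈ Facts p.T j, Fits j s G) : IsCond F (unmode p j s) := by
  refine ⟨hp.cT, small_mono hp.cM fun _ h => h.1, hS.insert hp.cZ j, hp.fn, hp.col, hp.agr,
    fun i hi G hG => ?_, setS_good hp.good hg, fun m hm m' hm' => hp.mfn m hm.1 m' hm'.1,
    fun m hm => (setS_ne p hm.2 s).trans (hp.mS m hm.1), fun m hm => hp.mL m hm.1,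
    fun m hm h => h.elim hm.2 (hp.mZ m hm.1), fun l hl => ?_⟩
  · by_cases e : i = j
    · subst e
      exact (setS_self p i s).symm ▸ hs G hG
    · exact (setS_ne p e s).symm ▸ hp.fit i (fun m hm e' => hi m ⟨hm, e' ▸ e⟩ e') G hG
  · obtain ⟨Δ, h1, h2, h3, h4⟩ := hp.fc l hl
    exact ⟨Δ, h1, h2, h3, h4.anti fun _ h => h.1⟩

theorem unmode_ext (hb : IsCond F b) (hj : j ∈ b.Z) (h : Ext F p (modeOn b j t))
    (hu : IsCond F (unmode p j s)) (he : EE (p.S j) s) : Ext F (unmode p j s) b := by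
  have hf := hb.free_of_mem hj
  refine ⟨hu, h.T, fun i => (h.nm.S i).trans (setS_ee he i),
    fun m hm => ⟨h.nm.Md (Or.inr hm), hf m hm⟩, fun x hx => ?_⟩
  by_cases e : x = j
  · exact Or.inl e
  · exact Or.inr (h.nm.Z ⟨hx, e⟩)

/-- leaving message mode: all pieces are absorbed by one clause of label `n` that catches points
of `W` only -/
theorem exists_unmode (hS : SatM M) (hb : IsCond F b) (hj : j ∈ b.Z)
    (h : Ext F p (modeOn b j t)) (n : ℕ) {W : M → Prop} (hW : Ar fun v => W (v 0))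
    (hw : ∀ G ∈ Facts p.T j, ∀ z u, ap G z u → Wm (b.S j) z → W z) :
    ∃ a s, Snoc (b.S j) (n : M) (pr 0 a) s ∧ (∀ z u, ap a z u → W z) ∧
      IsCond F (unmode p j s) ∧ Ext F (unmode p j s) b := by
  obtain ⟨a, a1, a2⟩ := absorb hS (Facts.small hS h.cond.cT j) (h.cond.agr j) hW
  obtain ⟨s, hs⟩ := exists_snoc (b.S j) (n : M) (pr 0 a)
  have hm : modeAt b j t ∈ p.Md := h.nm.Md (Or.inl rfl)
  have hu : IsCond F (unmode p j s) := unmode_cond hS h.cond (hs.good_fun (hb.good j)) fun G hG =>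
    (h.cond.mL _ hm G hG).snoc hs fun z u h1 h2 => a2 G hG z u h1 (hw G hG z u h1 h2)
  exact ⟨a, s, hs, a1, hu, unmode_ext hb hj h hu (h.cond.mS _ hm ▸ hs.ee)⟩

/-! ### Limits -/

section lim
variable {ι : Type v} {le : ι → ι → Prop} {r : ι → Pre M} {S : M → M}

/-- a directed family of few conditions -/
structure Sys (F : Set M) (le : ι → ι → Prop) (r : ι → Pre M) : Prop where
  ne : Nonempty ι
  small : SmallT M ι
  refl : ∀ n, le n n
  trans : ∀ n m k, le n m → le m k → le n k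
  dir : ∀ n m, ∃ k, le n k ∧ le m k
  cond : ∀ n, IsCond F (r n)
  nm : ∀ n m, le n m → NM (r n) (r m)

theorem Sys.top (hS : SatM M) (h : Sys F le r) : ∃ S, Top r S := by
  have := h.ne
  have key : ∀ j, ∃ s, Good s ∧ (∀ n, EE ((r n).S j) s) ∧
      ∀ n, ∀ m ∈ (r n).Md, m.j = j → s = m.s := by
    intro j
    by_cases hf : ∃ n, ∃ m ∈ (r n).Md, m.j = j
    · obtain ⟨n, m, hm, rfl⟩ := hf
      refine ⟨m.s, (h.cond n).mS m hm ▸ (h.cond n).good _, fun n' => ?_, fun n' m' hm' e => ?_⟩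
      · obtain ⟨k, h1, h2⟩ := h.dir n n'
        exact (h.cond k).mS m ((h.nm _ _ h1).Md hm) ▸ (h.nm _ _ h2).S _
      · obtain ⟨k, h1, h2⟩ := h.dir n n'
        rw [(h.cond k).mfn m' ((h.nm _ _ h2).Md hm') m ((h.nm _ _ h1).Md hm) e]
    · obtain ⟨s, h1, h2⟩ := exists_bound hS h.small (fun n => (r n).S j) (fun n m => by
        obtain ⟨k, h1, h2⟩ := h.dir n m
        exact ⟨k, (h.nm _ _ h1).S j, (h.nm _ _ h2).S j⟩) (P := Good) (by exact ArI.out)
        fun n => ⟨_, (h.cond n).good j, EE.refl _⟩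
      exact ⟨s, h1, h2, fun n m hm e => absurd ⟨n, m, hm, e⟩ hf⟩
  choose S h1 h2 h3 using key
  exact ⟨S, h1, h2, fun n m hm => h3 _ n m hm rfl⟩

theorem lim_nm (hT : Top r S) (n : ι) : NM (r n) (lim le r S) :=
  ⟨fun j => hT.ee j n, fun _ hm => ⟨n, hm⟩, fun _ hj => ⟨n, hj⟩⟩

theorem Sys.fact (h : Sys F le r) {G : M} (hG : G ∈ Facts (lim le r S).T j) (n : ι) :
    ∃ k, le n k ∧ ∀ m, le k m → G ∈ Facts (r m).T j := by
  obtain ⟨l, ⟨k, hk⟩, hG⟩ := hG
  obtain ⟨k', h1, h2⟩ := h.dir n k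
  exact ⟨k', h1, fun m hm => ⟨l, hk m (h.trans _ _ _ h2 hm), hG⟩⟩

theorem Sys.says (h : Sys F le r) {n : ι} {l : Lit M} (hl : l ∈ (r n).T) {y : M}
    (hy : Says (lim le r S).Md l y) : Says (r n).Md l y := by
  obtain ⟨m, ⟨k, hm⟩, hy⟩ := hy
  obtain ⟨k', h1, h2⟩ := h.dir n k
  exact says_nm (h.cond _) (h.cond _) (h.nm _ _ h1) hl ⟨m, (h.nm _ _ h2).Md hm, hy⟩

theorem Sys.lim_cond (hS : SatM M) (h : Sys F le r) (hT : Top r S) : IsCond F (lim le r S) := by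
  have hc := h.cond
  refine ⟨small_mono (hS.iUnion h.small fun n => (hc n).cT)
      fun l ⟨n, hn⟩ => Set.mem_iUnion.2 ⟨n, hn n (h.refl n)⟩,
    small_mono (hS.iUnion h.small fun n => (hc n).cM) fun l h => Set.mem_iUnion.2 h,
    small_mono (hS.iUnion h.small fun n => (hc n).cZ) fun l h => Set.mem_iUnion.2 h,
    ?_, ?_, ?_, ?_, hT.good, ?_, ?_, ?_, ?_, ?_⟩
  · rintro l ⟨n, a⟩ l' ⟨n', a'⟩
    obtain ⟨k, h1, h2⟩ := h.dir n n'
    exact (hc k).fn l (a _ h1) l' (a' _ h2)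
  · rintro y b₀ b₁ ⟨n, a⟩
    exact (hc n).col y b₀ b₁ (a n (h.refl n))
  · intro j G hG H hH
    obtain ⟨n⟩ := h.ne
    obtain ⟨k, -, h2⟩ := h.fact hG n
    obtain ⟨k', h3, h4⟩ := h.fact hH k
    exact (hc k').agr j G (h2 _ h3) H (h4 _ (h.refl _))
  · intro j hf G hG
    obtain ⟨n⟩ := h.ne
    obtain ⟨k, -, h2⟩ := h.fact hG n
    exact (lim_nm hT k).fit (hc k) hf (h2 _ (h.refl _))
  · rintro m ⟨n, hm⟩ m' ⟨n', hm'⟩
    obtain ⟨k, h1, h2⟩ := h.dir n n'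
    exact (hc k).mfn m ((h.nm _ _ h1).Md hm) m' ((h.nm _ _ h2).Md hm')
  · rintro m ⟨n, hm⟩
    exact hT.md n m hm
  · rintro m ⟨n, hm⟩ G hG
    obtain ⟨k, h1, h2⟩ := h.fact hG n
    exact (hc k).mL m ((h.nm _ _ h1).Md hm) G (h2 _ (h.refl _))
  · rintro m ⟨n, hm⟩ ⟨n', hk⟩
    obtain ⟨k, h1, h2⟩ := h.dir n n'
    exact (hc k).mZ m ((h.nm _ _ h1).Md hm) ((h.nm _ _ h2).Z hk)
  · rintro l ⟨n, a⟩
    have cl : ∀ k, le n k → ∃ Δ, Δ.Finite ∧ Δ ⊆ (r k).T ∧ l ∈ Δ ∧ Closed (lim le r S).Md Δ := by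
      intro k hk
      obtain ⟨Δ, h1, h2, h3, h4⟩ := (hc k).fc l (a k hk)
      exact ⟨Δ, h1, h2, h3, fun l' hl' y hy => h4 l' hl' y (h.says (h2 hl') hy)⟩
    choose! Δ h1 h2 h3 h4 using cl
    refine ⟨{x | ∀ k, le n k → x ∈ Δ k}, (h1 n (h.refl n)).subset fun x hx => hx n (h.refl n),
      fun x hx => ⟨n, fun k hk => h2 k hk (hx k hk)⟩, h3, fun l' hl' y hy => ?_⟩
    obtain ⟨l'', -, rfl⟩ := h4 n (h.refl n) l' (hl' n (h.refl n)) y hy
    exact ⟨l'', fun k hk => (h4 k hk).mem (hl' k hk) hy, rfl⟩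

theorem Sys.lim_ext (hS : SatM M) (h : Sys F le r) (hT : Top r S)
    (he : ∀ n m, le n m → (r n).T ⊆ (r m).T) (n : ι) : Ext F (lim le r S) (r n) :=
  ⟨h.lim_cond hS hT, fun _ hl => ⟨n, fun m hm => he n m hm hl⟩, lim_nm hT n⟩

theorem Top.set (hT : Top r S) (hf : ∀ n, Free (r n) j) (hg : Good s)
    (he : ∀ n, EE ((r n).S j) s) : ∃ S', Top r S' ∧ S' j = s := by
  classical
  refine ⟨fun i => if i = j then s else S i, ⟨fun i => ?_, fun i n => ?_, fun n m hm => ?_⟩,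
    if_pos rfl⟩
  · split_ifs
    · exact hg
    · exact hT.good i
  · split_ifs with e
    · exact e ▸ he n
    · exact hT.ee i n
  · exact (if_neg (hf n m hm)).trans (hT.md n m hm)

end lim

/-- chains of few conditions have lower bounds -/
theorem chain_bound (hS : SatM M) {X : Type u} {S : Set X} (r : X → Pre M) (h : #S < #M)
    (hne : S.Nonempty) (hc : ∀ a ∈ S, IsCond F (r a))
    (hch : ∀ a ∈ S, ∀ b ∈ S, Ext F (r a) (r b) ∨ Ext F (r b) (r a)) :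
    ∃ q, IsCond F q ∧ ∀ a ∈ S, Ext F q (r a) := by
  have hs : Sys F (fun a b : S => Ext F (r b) (r a)) fun a => r a :=
    ⟨hne.to_subtype, smallT_set h, fun a => Ext.refl (hc a a.2), fun _ _ _ h1 h2 => h2.trans h1,
      fun a b => (hch a a.2 b b.2).elim (fun h => ⟨a, Ext.refl h.cond, h⟩)
        fun h => ⟨b, h, Ext.refl h.cond⟩, fun a => hc a a.2, fun _ _ h => h.nm⟩
  obtain ⟨T, hT⟩ := hs.top hS
  exact ⟨_, hs.lim_cond hS hT, fun a ha => hs.lim_ext hS hT (fun _ _ h => h.T) ⟨a, ha⟩⟩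

section seq
variable {r : ℕ → Pre M}

theorem nm_le (hn : ∀ n, NM (r n) (r (n + 1))) {n m : ℕ} (h : n ≤ m) : NM (r n) (r m) := by
  induction h with
  | refl => exact NM.refl _
  | step _ ih => exact ih.trans (hn _)

theorem sys_nat (hS : SatM M) (hc : ∀ n, IsCond F (r n)) (hn : ∀ n, NM (r n) (r (n + 1))) :
    Sys F (· ≤ ·) r :=
  ⟨⟨0⟩, hS.nat, le_refl, fun _ _ _ => le_trans,
    fun n m => ⟨max n m, le_max_left _ _, le_max_right _ _⟩, hc, fun _ _ h => nm_le hn h⟩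

theorem ext_le (h0 : IsCond F (r 0)) (h : ∀ n, Ext F (r (n + 1)) (r n)) {n m : ℕ} (hm : n ≤ m) :
    Ext F (r m) (r n) := by
  induction hm with
  | refl => exact Ext.refl (by cases n; exacts [h0, (h _).cond])
  | step _ ih => exact (h _).trans ih

theorem exists_lim (hS : SatM M) (h0 : IsCond F (r 0)) (h : ∀ n, Ext F (r (n + 1)) (r n)) :
    ∃ q, ∀ n, Ext F q (r n) := by
  have hs := sys_nat hS (fun n => (ext_le h0 h le_rfl).cond) fun n => (h n).nm
  obtain ⟨S, hT⟩ := hs.top hS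
  exact ⟨_, hs.lim_ext hS hT fun n m hm => (ext_le h0 h hm).T⟩

end seq

end Pool.Agent.MP_6072c5_lc.U71
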