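import Pool.Agent.MP_6072c5_lc.U71.Arith

/-! Basic facts on the reducibility; countably directed sets and the standard cut. -/

set_option linter.unusedSectionVars false
set_option synthInstance.maxSize 100000

namespace Pool.Agent.MP_6072c5_lc.U71

universe u

variable {M : Type u} [CommSemiring M] [LinearOrder M] [IsPA M]

theorem Red.mk {A B : Set M} (W₁ W₀ : M → M → M → Prop)
    (h₁ : S1 fun v => W₁ (v 0) (v 2) (v 3)) (h₀ : S1 fun v => W₀ (v 0) (v 2) (v 3))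
    (e₁ : ∀ k, Sub k A ↔ ∃ a b, Sub a B ∧ Sub b Bᶜ ∧ W₁ k a b)
    (e₀ : ∀ k, Sub k Aᶜ ↔ ∃ a b, Sub a B ∧ Sub b Bᶜ ∧ W₀ k a b) : Red A B := by
  refine ⟨fun k i a b => (i = 1 ∧ W₁ k a b) ∨ (i = 0 ∧ W₀ k a b),
    (S1.and (by exact S1I.out) h₁).or (S1.and (by exact S1I.out) h₀), fun k => ?_⟩
  simp only [one_ne_zero, zero_ne_one, true_and, false_and, or_false, false_or]
  exact ⟨e₁ k, e₀ k⟩

theorem sub_empty {e : M} (he : ∀ x, ¬ mem x e) (A : Set M) : Sub e A := fun x h => absurd h (he x)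

theorem Red.refl (A : Set M) : Red A A := by
  obtain ⟨e, he⟩ := exists_empty (M := M)
  refine Red.mk (fun k a _ => sub k a) (fun k _ b => sub k b) (by exact S1I.out) (by exact S1I.out) (fun k => ?_)
    fun k => ?_
  · exact ⟨fun h => ⟨k, e, h, sub_empty he _, sub_refl k⟩, fun ⟨a, _, h, _, h'⟩ => h.mono h'⟩
  · exact ⟨fun h => ⟨e, k, sub_empty he _, h, sub_refl k⟩, fun ⟨_, b, _, h, h'⟩ => h.mono h'⟩

theorem union_sub {a b : M} {A : Set M} (ha : Sub a A) (hb : Sub b A) :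
    ∃ u, Sub u A ∧ sub a u ∧ sub b u ∧ ∀ x, mem x u ↔ mem x a ∨ mem x b := by
  obtain ⟨u, hu⟩ := exists_union a b
  exact ⟨u, fun x h => ((hu x).1 h).elim (ha x) (hb x), fun x h => (hu x).2 (Or.inl h),
    fun x h => (hu x).2 (Or.inr h), hu⟩

theorem Red.trans {A B C : Set M} (h1 : Red A B) (h2 : Red B C) : Red A C := by
  obtain ⟨W, hW, eW⟩ := h1
  obtain ⟨V, hV, eV⟩ := h2
  have : S4 W := ⟨hW⟩
  have : S4 V := ⟨hV⟩
  have key : ∀ k i, (∃ g₀ g₁, Sub g₀ B ∧ Sub g₁ Bᶜ ∧ W k i g₀ g₁) ↔ ∃ h₀ h₁, Sub h₀ C ∧ Sub h₁ Cᶜ ∧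
      ∃ g₀ g₁ a₀ a₁ b₀ b₁, W k i g₀ g₁ ∧ V g₀ 1 a₀ a₁ ∧ V g₁ 0 b₀ b₁ ∧
        sub a₀ h₀ ∧ sub b₀ h₀ ∧ sub a₁ h₁ ∧ sub b₁ h₁ := by
    intro k i
    constructor
    · rintro ⟨g₀, g₁, s₀, s₁, hw⟩
      obtain ⟨a₀, a₁, p₀, p₁, ha⟩ := (eV g₀).1.1 s₀
      obtain ⟨b₀, b₁, q₀, q₁, hb⟩ := (eV g₁).2.1 s₁
      obtain ⟨h₀, r₀, r₁, r₂, -⟩ := union_sub p₀ q₀
      obtain ⟨h₁, t₀, t₁, t₂, -⟩ := union_sub p₁ q₁
      exact ⟨h₀, h₁, r₀, t₀, g₀, g₁, a₀, a₁, b₀, b₁, hw, ha, hb, r₁, r₂, t₁, t₂⟩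
    · rintro ⟨h₀, h₁, r₀, t₀, g₀, g₁, a₀, a₁, b₀, b₁, hw, ha, hb, r₁, r₂, t₁, t₂⟩
      exact ⟨g₀, g₁, (eV g₀).1.2 ⟨a₀, a₁, r₀.mono r₁, t₀.mono t₁, ha⟩,
        (eV g₁).2.2 ⟨b₀, b₁, r₀.mono r₂, t₀.mono t₂, hb⟩, hw⟩
  refine ⟨fun k i h₀ h₁ => ∃ g₀ g₁ a₀ a₁ b₀ b₁, W k i g₀ g₁ ∧ V g₀ 1 a₀ a₁ ∧ V g₁ 0 b₀ b₁ ∧
        sub a₀ h₀ ∧ sub b₀ h₀ ∧ sub a₁ h₁ ∧ sub b₁ h₁, (by exact S1I.out), fun k => ?_⟩
  exact ⟨(eW k).1.trans (key k 1), (eW k).2.trans (key k 0)⟩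

theorem red_empty (Z : Set M) : Red ∅ Z := by
  obtain ⟨e, he⟩ := exists_empty (M := M)
  refine Red.mk (fun k _ _ => sub k e) (fun k _ _ => k = k) (by exact S1I.out) (by exact S1I.out) (fun k => ?_)
    fun k => ?_
  · exact ⟨fun h => ⟨e, e, sub_empty he _, sub_empty he _, fun x hx => (h x hx).elim⟩,
      fun ⟨_, _, _, _, h⟩ x hx => he x (h x hx)⟩
  · exact ⟨fun _ => ⟨e, e, sub_empty he _, sub_empty he _, rfl⟩, fun _ x _ => by simp⟩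

theorem deg_eq_iff {A B : Set M} : deg A = deg B ↔ Red A B ∧ Red B A := by
  refine ⟨fun h => ?_, fun h => Quot.sound h⟩
  have e : Equivalence fun A B : Set M => Red A B ∧ Red B A :=
    ⟨fun A => ⟨Red.refl A, Red.refl A⟩, fun h => h.symm,
      fun h1 h2 => ⟨h1.1.trans h2.1, h2.2.trans h1.2⟩⟩
  exact e.eqvGen_iff.1 (Quot.eqvGen_exact h)

theorem deg_le_iff {A B : Set M} : deg A ≤ deg B ↔ Red A B := by
  refine ⟨?_, fun h => ⟨A, B, rfl, rfl, h⟩⟩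
  rintro ⟨A', B', h1, h2, h⟩
  exact ((deg_eq_iff.1 h1).1.trans h).trans (deg_eq_iff.1 h2).2

/-! ### Saturation -/

theorem Sat.seq (hS : Sat (Cardinal.aleph 1) M) (S : ℕ → M → Prop)
    (h1 : ∀ n, Ar fun v => S n (v 0)) (h2 : ∀ N, ∃ x, ∀ n < N, S n x) : ∃ x, ∀ n, S n x := by
  obtain ⟨x, hx⟩ := hS (ULift.{u} ℕ) (fun n => S n.down) (by simp) (fun n => h1 n.down) fun F => by
    obtain ⟨x, hx⟩ := h2 (F.sup ULift.down + 1)
    exact ⟨x, fun i hi => hx i.down (Nat.lt_succ_of_le (Finset.le_sup (f := ULift.down) hi))⟩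
  exact ⟨x, fun n => hx ⟨n⟩⟩

theorem Sat.nonstd (hS : Sat (Cardinal.aleph 1) M) : ∃ a : M, a ∉ omega M := by
  obtain ⟨a, ha⟩ := hS.seq (fun n x => (n : M) < x) (fun n => (by exact ArI.out))
    fun N => ⟨N, fun n hn => by exact_mod_cast hn⟩
  exact ⟨a, fun ⟨n, hn⟩ => absurd (ha n) (by rw [hn]; exact lt_irrefl a)⟩

/-- every `ω`-sequence is coded -/
theorem Sat.code (hS : Sat (Cardinal.aleph 1) M) (f : ℕ → M) :
    ∃ d : M, ∀ n : ℕ, ∀ x : M, mem (pr (n : M) x) d ↔ x = f n := by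
  refine hS.seq (fun n d => ∀ x : M, mem (pr (n : M) x) d ↔ x = f n) (fun n => (by exact ArI.out)) fun N => ?_
  obtain ⟨d, hd⟩ := exists_code_of_finite
    ((Set.finite_Iio N).image fun n : ℕ => pr (n : M) (f n))
  refine ⟨d, fun n hn x => (hd _).trans ⟨?_, fun h => ⟨n, hn, by rw [h]⟩⟩⟩
  rintro ⟨m, -, hm⟩
  obtain ⟨h1, h2⟩ := pr_inj.1 hm
  obtain rfl : m = n := by exact_mod_cast h1
  exact h2.symm

/-- Every countable family of `M`-finite neighbourhood conditions of `X` has an upper bound. -/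
def Dir (X : Set M) : Prop :=
  ∀ a b : ℕ → M, (∀ n, Sub (a n) X) → (∀ n, Sub (b n) Xᶜ) →
    ∃ a' b', Sub a' X ∧ Sub b' Xᶜ ∧ (∀ n, sub (a n) a') ∧ ∀ n, sub (b n) b'

/-- `x` lies in one of the first `c` sets listed by `d`. -/
def upto (d c x : M) : Prop := ∃ i, i ≤ c ∧ ∃ h, mem (pr i h) d ∧ mem x h

theorem upto_lt {d c x : M} (h : upto d c x) : x < d := by
  obtain ⟨i, -, h, h1, h2⟩ := h
  exact (lt_of_mem h2).trans ((le_pr_right _ _).trans_lt (lt_of_mem h1))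

theorem exists_max_bound (k : M) : ∃ c, (∀ x, mem x k → x ≤ c) ∧ (c = 0 ∨ mem c k) := by
  obtain ⟨c, hc, hmin⟩ := exists_least (P := fun c => ∀ x, mem x k → x ≤ c) (by exact ArI.out) (x := k)
    fun x hx => (lt_of_mem hx).le
  refine ⟨c, hc, ?_⟩
  by_contra hn
  push Not at hn
  obtain ⟨z, hz⟩ := IsPA.sub 1 c (IsPA.discrete c (lt_of_le_of_ne (IsPA.nonneg c) hn.1.symm))
  have : c ≤ z := hmin z fun x hx => by
    have : x < c := lt_of_le_of_ne (hc x hx) fun h => hn.2 (h ▸ hx)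
    rw [← hz, add_comm] at this
    exact lt_succ_iff.1 this
  rw [← hz, add_comm] at this
  exact absurd (lt_add_one z) (not_lt.2 this)

theorem red_omega_of_not_dir (hS : Sat (Cardinal.aleph 1) M) {X : Set M} (h : ¬ Dir X) :
    Red (omega M) X := by
  simp only [Dir, not_forall] at h
  obtain ⟨a, b, ha, hb, hn⟩ := h
  obtain ⟨d₀, hd₀⟩ := hS.code a
  obtain ⟨d₁, hd₁⟩ := hS.code b
  obtain ⟨e, he⟩ := exists_empty (M := M)
  have std : ∀ {d : M} {f : ℕ → M} {A : Set M}, (∀ n : ℕ, ∀ x : M, mem (pr (n : M) x) d ↔ x = f n) →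
      (∀ n, Sub (f n) A) → ∀ c ∈ omega M, ∀ x, upto d c x → x ∈ A := by
    rintro d f A hd hf c hc x ⟨i, hi, h, h1, h2⟩
    obtain ⟨n, rfl⟩ := std_of_le hi hc
    rw [hd] at h1
    exact hf n x (h1 ▸ h2)
  have code : ∀ d c : M, ∃ k, ∀ x, mem x k ↔ upto d c x := fun d c => by
    obtain ⟨k, hk⟩ := compr (P := fun x => upto d c x) (by unfold upto; exact ArI.out) d
    exact ⟨k, fun x => (hk x).trans ⟨fun h => h.2, fun h => ⟨upto_lt h, h⟩⟩⟩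
  have nstd : ∀ c ∉ omega M, (∃ x, upto d₀ c x ∧ x ∉ X) ∨ ∃ x, upto d₁ c x ∧ x ∈ X := by
    intro c hc
    by_contra hh
    push Not at hh
    obtain ⟨a', ha'⟩ := code d₀ c
    obtain ⟨b', hb'⟩ := code d₁ c
    exact hn ⟨a', b', fun x hx => hh.1 x ((ha' x).1 hx), fun x hx => hh.2 x ((hb' x).1 hx),
      fun n x hx => (ha' x).2 ⟨n, le_of_nonstd (nat_std n) hc, a n, (hd₀ n _).2 rfl, hx⟩,
      fun n x hx => (hb' x).2 ⟨n, le_of_nonstd (nat_std n) hc, b n, (hd₁ n _).2 rfl, hx⟩⟩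
  refine Red.mk
    (fun k h₀ h₁ => ∃ c, (∀ x, mem x k → x ≤ c) ∧ (∀ x, x < d₀ → upto d₀ c x → mem x h₀) ∧
      ∀ x, x < d₁ → upto d₁ c x → mem x h₁)
    (fun k h₀ h₁ => ∃ c, (∀ x, mem x k → c ≤ x) ∧ ((∃ x, mem x h₁ ∧ upto d₀ c x) ∨
      ∃ x, mem x h₀ ∧ upto d₁ c x)) (by unfold upto; exact S1I.out) (by unfold upto; exact S1I.out) (fun k => ?_)
    fun k => ?_
  · constructor
    · intro hk
      obtain ⟨c, hc, hc'⟩ := exists_max_bound k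
      have hcs : c ∈ omega M := hc'.elim (fun h => ⟨0, by simp [h]⟩) (hk c)
      obtain ⟨a', ha'⟩ := code d₀ c
      obtain ⟨b', hb'⟩ := code d₁ c
      exact ⟨a', b', fun x hx => std hd₀ ha c hcs x ((ha' x).1 hx),
        fun x hx => std hd₁ hb c hcs x ((hb' x).1 hx), c, hc, fun x _ h => (ha' x).2 h,
        fun x _ h => (hb' x).2 h⟩
    · rintro ⟨h₀, h₁, s₀, s₁, c, hc, t₀, t₁⟩ x hx
      refine std_of_le (hc x hx) ?_
      by_contra hcs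
      rcases nstd c hcs with ⟨y, hy, hy'⟩ | ⟨y, hy, hy'⟩
      · exact hy' (s₀ y (t₀ y (upto_lt hy) hy))
      · exact s₁ y (t₁ y (upto_lt hy) hy) hy'
  · constructor
    · intro hk
      obtain ⟨c, hc, hcs⟩ : ∃ c, (∀ x, mem x k → c ≤ x) ∧ c ∉ omega M := by
        by_cases hk' : ∃ x, mem x k
        · obtain ⟨x, hx⟩ := hk'
          obtain ⟨c, hc, hmin⟩ := exists_least (P := fun x => mem x k) (by exact ArI.out) hx
          exact ⟨c, hmin, hk c hc⟩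
        · obtain ⟨c, hc⟩ := hS.nonstd
          exact ⟨c, fun x hx => absurd ⟨x, hx⟩ hk', hc⟩
      rcases nstd c hcs with ⟨y, hy, hy'⟩ | ⟨y, hy, hy'⟩
      · obtain ⟨s, hs⟩ := exists_single y
        exact ⟨e, s, sub_empty he _, fun x hx => (hs x).1 hx ▸ hy', c, hc,
          Or.inl ⟨y, (hs y).2 rfl, hy⟩⟩
      · obtain ⟨s, hs⟩ := exists_single y
        exact ⟨s, e, fun x hx => (hs x).1 hx ▸ hy', sub_empty he _, c, hc,
          Or.inr ⟨y, (hs y).2 rfl, hy⟩⟩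
    · rintro ⟨h₀, h₁, s₀, s₁, c, hc, t⟩ x hx hxs
      have hcs := std_of_le (hc x hx) hxs
      rcases t with ⟨y, hy, hy'⟩ | ⟨y, hy, hy'⟩
      · exact s₁ y hy (std hd₀ ha c hcs y hy')
      · exact std hd₁ hb c hcs y hy' (s₀ y hy)

theorem not_red_omega_of_dir (hS : Sat (Cardinal.aleph 1) M) {X : Set M} (h : Dir X) :
    ¬ Red (omega M) X := by
  rintro ⟨W, hW, eW⟩
  have hA : Ar4 W := ⟨hW.ar⟩
  have : ∀ n : ℕ, ∃ s a b, mem (n : M) s ∧ Sub a X ∧ Sub b Xᶜ ∧ W s 1 a b := fun n => by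
    obtain ⟨s, hs⟩ := exists_single (n : M)
    obtain ⟨a, b, h⟩ := (eW s).1.1 fun x hx => (hs x).1 hx ▸ nat_std n
    exact ⟨s, a, b, (hs _).2 rfl, h⟩
  choose s a b hs ha hb hw using this
  obtain ⟨a', b', ha', hb', h1, h2⟩ := h a b ha hb
  obtain ⟨c, hc, H⟩ := overspill hS.nonstd
    (P := fun c => ∃ s a b, mem c s ∧ sub a a' ∧ sub b b' ∧ W s 1 a b) (by exact ArI.out)
    fun n => ⟨s n, a n, b n, hs n, h1 n, h2 n, hw n⟩
  obtain ⟨s, a, b, hs, h1, h2, hw⟩ := H c le_rfl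
  exact hc ((eW s).1.2 ⟨a, b, ha'.mono h1, hb'.mono h2, hw⟩ c hs)

theorem Sat.bound (hS : Sat (Cardinal.aleph 1) M) (f : ℕ → M) : ∃ d, ∀ n, f n < d := by
  obtain ⟨d, hd⟩ := hS.code f
  exact ⟨d, fun n => (le_pr_right _ _).trans_lt (lt_of_mem ((hd n _).2 rfl))⟩

theorem dir_empty (hS : Sat (Cardinal.aleph 1) M) : Dir (∅ : Set M) := by
  intro a b ha _
  obtain ⟨d, hd⟩ := hS.bound b
  obtain ⟨e, he⟩ := exists_empty (M := M)
  obtain ⟨k, hk⟩ := compr (P := fun x : M => x = x) (by exact ArI.out) d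
  exact ⟨e, k, sub_empty he _, fun x _ => by simp, fun n x hx => (ha n x hx).elim,
    fun n x hx => (hk x).2 ⟨(lt_of_mem hx).trans (hd n), rfl⟩⟩

/-- The join of two sets. -/
def join (X Y : Set M) : Set M := {z | (∃ x ∈ X, z = pr 0 x) ∨ ∃ y ∈ Y, z = pr 1 y}

theorem pr0_mem_join {X Y : Set M} {x : M} : pr 0 x ∈ join X Y ↔ x ∈ X := by
  simp [join, pr_inj]

theorem pr1_mem_join {X Y : Set M} {x : M} : pr 1 x ∈ join X Y ↔ x ∈ Y := by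
  simp [join, pr_inj]

theorem exists_row (i h : M) : ∃ k, ∀ x, mem x k ↔ mem (pr i x) h := by
  obtain ⟨k, hk⟩ := compr (P := fun x : M => mem (pr i x) h) (by exact ArI.out) h
  exact ⟨k, fun x => (hk x).trans
    ⟨fun h => h.2, fun h => ⟨(le_pr_right _ _).trans_lt (lt_of_mem h), h⟩⟩⟩

theorem pr_mono {x y x' y' : M} (h1 : x ≤ x') (h2 : y ≤ y') : pr x y ≤ pr x' y' := by
  unfold pr
  gcongr

theorem exists_col (i k : M) : ∃ h, ∀ z, mem z h ↔ ∃ x, mem x k ∧ z = pr i x := by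
  obtain ⟨h, hh⟩ := compr (P := fun z : M => ∃ x, mem x k ∧ z = pr i x) (by exact ArI.out) (pr i k + 1)
  refine ⟨h, fun z => (hh z).trans ⟨fun h => h.2, fun h => ⟨?_, h⟩⟩⟩
  obtain ⟨x, hx, rfl⟩ := h
  exact lt_succ_iff.2 (pr_mono le_rfl (lt_of_mem hx).le)

theorem red_of_row {X Z : Set M} (i : M) (h : ∀ x, pr i x ∈ Z ↔ x ∈ X) : Red X Z := by
  obtain ⟨e, he⟩ := exists_empty (M := M)
  refine Red.mk (fun k a _ => ∀ x, mem x k → mem (pr i x) a)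
    (fun k _ b => ∀ x, mem x k → mem (pr i x) b) (by exact S1I.out) (by exact S1I.out) (fun k => ?_) fun k => ?_
  · obtain ⟨u, hu⟩ := exists_col i k
    refine ⟨fun H => ⟨u, e, fun z hz => ?_, sub_empty he _, fun x hx => (hu _).2 ⟨x, hx, rfl⟩⟩,
      fun ⟨a, _, ha, _, H⟩ x hx => (h x).1 (ha _ (H x hx))⟩
    obtain ⟨x, hx, rfl⟩ := (hu z).1 hz
    exact (h x).2 (H x hx)
  · obtain ⟨u, hu⟩ := exists_col i k
    refine ⟨fun H => ⟨e, u, sub_empty he _, fun z hz => ?_, fun x hx => (hu _).2 ⟨x, hx, rfl⟩⟩,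
      fun ⟨_, b, _, hb, H⟩ x hx hx' => hb _ (H x hx) ((h x).2 hx')⟩
    obtain ⟨x, hx, rfl⟩ := (hu z).1 hz
    exact fun h' => H x hx ((h x).1 h')

theorem red_join_left (X Y : Set M) : Red X (join X Y) := red_of_row 0 fun _ => pr0_mem_join
theorem red_join_right (X Y : Set M) : Red Y (join X Y) := red_of_row 1 fun _ => pr1_mem_join

theorem Dir.join (hS : Sat (Cardinal.aleph 1) M) {X Y : Set M} (hX : Dir X) (hY : Dir Y) :
    Dir (join X Y) := by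
  intro a b ha hb
  choose r hr using exists_row (M := M)
  obtain ⟨a₀, b₀, p₀, q₀, s₀, t₀⟩ := hX (fun n => r 0 (a n)) (fun n => r 0 (b n))
    (fun n x hx => pr0_mem_join.1 (ha n _ ((hr _ _ _).1 hx)))
    (fun n x hx hx' => hb n _ ((hr _ _ _).1 hx) (pr0_mem_join.2 hx'))
  obtain ⟨a₁, b₁, p₁, q₁, s₁, t₁⟩ := hY (fun n => r 1 (a n)) (fun n => r 1 (b n))
    (fun n x hx => pr1_mem_join.1 (ha n _ ((hr _ _ _).1 hx)))
    (fun n x hx hx' => hb n _ ((hr _ _ _).1 hx) (pr1_mem_join.2 hx'))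
  obtain ⟨da, hda⟩ := hS.bound a
  obtain ⟨db, hdb⟩ := hS.bound b
  obtain ⟨a', ha'⟩ := compr (P := fun z : M => (∃ x, mem x a₀ ∧ z = pr 0 x) ∨
    ∃ x, mem x a₁ ∧ z = pr 1 x) (by exact ArI.out) da
  obtain ⟨b', hb'⟩ := compr (P := fun z : M => (∀ x, z = pr 0 x → mem x b₀) ∧
    ∀ x, z = pr 1 x → mem x b₁) (by exact ArI.out) db
  refine ⟨a', b', fun z hz => ?_, fun z hz => ?_, fun n z hz => ?_, fun n z hz => ?_⟩
  · rcases ((ha' z).1 hz).2 with ⟨x, hx, rfl⟩ | ⟨x, hx, rfl⟩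
    · exact pr0_mem_join.2 (p₀ x hx)
    · exact pr1_mem_join.2 (p₁ x hx)
  · obtain ⟨h0, h1⟩ := ((hb' z).1 hz).2
    rintro (⟨x, hx, e⟩ | ⟨x, hx, e⟩)
    · exact q₀ x (h0 x e) hx
    · exact q₁ x (h1 x e) hx
  · refine (ha' z).2 ⟨(lt_of_mem hz).trans (hda n), ?_⟩
    rcases ha n z hz with ⟨x, -, rfl⟩ | ⟨x, -, rfl⟩
    · exact Or.inl ⟨x, s₀ n x ((hr _ _ _).2 hz), rfl⟩
    · exact Or.inr ⟨x, s₁ n x ((hr _ _ _).2 hz), rfl⟩
  · refine (hb' z).2 ⟨(lt_of_mem hz).trans (hdb n), ?_, ?_⟩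
    · rintro x rfl; exact t₀ n x ((hr _ _ _).2 hz)
    · rintro x rfl; exact t₁ n x ((hr _ _ _).2 hz)

/-- The standard cut is join-prime. -/
theorem omega_prime (hS : Sat (Cardinal.aleph 1) M) {X Y : Set M}
    (h : Red (omega M) (join X Y)) : Red (omega M) X ∨ Red (omega M) Y := by
  by_contra hn
  push Not at hn
  have hX : Dir X := by_contra fun h => hn.1 (red_omega_of_not_dir hS h)
  have hY : Dir Y := by_contra fun h => hn.2 (red_omega_of_not_dir hS h)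
  exact not_red_omega_of_dir hS (hX.join hS hY) h

end Pool.Agent.MP_6072c5_lc.U71
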