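import Pool.Agent.MP_6072c5_lc.U71.Dz

/-! Consequences of saturation. -/

set_option linter.unusedSectionVars false
set_option synthInstance.maxSize 100000

namespace Pool.Agent.MP_6072c5_lc.U71

open Cardinal

universe u v

variable {M : Type u} [CommSemiring M] [LinearOrder M] [IsPA M]

/-- index types with fewer elements than `M` -/
def SmallT (M : Type u) (ι : Type v) : Prop := Cardinal.lift.{u} #ι < Cardinal.lift.{v} #M

theorem SatM.s1 (hS : SatM M) : Sat (aleph 1) M := fun ι S hι =>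
  hS.sat ι S (hι.trans_le (by rw [← succ_aleph0]; exact Order.succ_le_of_lt hS.unc))

theorem SatM.nat (hS : SatM M) : SmallT M ℕ := by simpa [SmallT] using hS.unc

theorem smallT_set {X : Type u} {S : Set X} (h : #S < #M) : SmallT M S := lift_lt.2 h

theorem SatM.fam (hS : SatM M) {ι : Type v} (hι : SmallT M ι) (S : ι → M → Prop)
    (hA : ∀ i, Ar fun v => S i (v 0)) (h : ∀ J : Set ι, J.Finite → ∃ x, ∀ i ∈ J, S i x) :
    ∃ x, ∀ i, S i x := by
  obtain ⟨e⟩ := lift_mk_le'.1 (le_of_lt hι)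
  let f := Equiv.ofInjective e e.injective
  obtain ⟨x, hx⟩ := hS.sat (Set.range e) (fun i => S (f.symm i))
    (lift_lt.1 ((mk_range_eq_of_injective e.injective).trans_lt hι)) (fun i => hA _) fun F => by
      obtain ⟨x, hx⟩ := h (f.symm '' F) (F.finite_toSet.image _)
      exact ⟨x, fun i hi => hx _ ⟨i, hi, rfl⟩⟩
  exact ⟨x, fun i => by simpa using hx (f i)⟩

/-- the same with one more fixed condition -/
theorem SatM.base (hS : SatM M) {P : M → Prop} (hP : Ar fun v => P (v 0)) {ι : Type v}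
    (hι : SmallT M ι) (S : ι → M → Prop) (hA : ∀ i, Ar fun v => S i (v 0))
    (h : ∀ J : Set ι, J.Finite → ∃ x, P x ∧ ∀ i ∈ J, S i x) : ∃ x, P x ∧ ∀ i, S i x := by
  rcases isEmpty_or_nonempty ι with hι' | ⟨⟨i₀⟩⟩
  · exact (h ∅ Set.finite_empty).imp fun x hx => ⟨hx.1, fun i => isEmptyElim i⟩
  · obtain ⟨x, hx⟩ := hS.fam hι (fun i x => P x ∧ S i x) (fun i => hP.and (hA i)) fun J hf => by
      obtain ⟨x, hx, hx'⟩ := h J hf
      exact ⟨x, fun i hi => ⟨hx, hx' i hi⟩⟩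
    exact ⟨x, (hx i₀).1, fun i => (hx i).2⟩

theorem SatM.bound (hS : SatM M) {ι : Type v} (hι : SmallT M ι) (f : ι → M) :
    ∃ b, ∀ i, f i < b :=
  hS.fam hι (fun i x => f i < x) (fun i => by exact ArI.out) fun J hJ => by
    obtain ⟨b, hb⟩ := (hJ.image f).bddAbove
    exact ⟨b + 1, fun i hi => lt_succ_iff.2 (hb ⟨i, hi, rfl⟩)⟩

section small
variable {X Y : Type u} {A B : Set X}

theorem SatM.iUnion (hS : SatM M) {ι : Type v} (hι : SmallT M ι) {A : ι → Set X}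
    (h : ∀ i, #(A i) < #M) : #(⋃ i, A i) < #M := by
  by_contra hn
  obtain ⟨f⟩ := (Cardinal.le_def _ _).1 (not_lt.1 hn)
  have hB : ∀ i, #{m | (f m).1 ∈ A i} < #M := fun i => lt_of_le_of_lt
    (mk_le_of_injective (f := fun m : {m | (f m).1 ∈ A i} => (⟨(f m).1, m.2⟩ : A i))
      fun a b e => Subtype.ext (f.injective (Subtype.ext (congrArg Subtype.val e :)))) (h i)
  choose b hb using fun i => hS.bound (smallT_set (hB i)) Subtype.val
  obtain ⟨c, hc⟩ := hS.bound hι b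
  obtain ⟨i, hi⟩ := Set.mem_iUnion.1 (f c).2
  exact lt_asymm (hc i) (hb i ⟨c, hi⟩)

theorem small_mono (h : #B < #M) (hs : A ⊆ B) : #A < #M := (mk_le_mk_of_subset hs).trans_lt h

theorem small_image (h : #A < #M) (f : X → Y) : #(f '' A) < #M := mk_image_le.trans_lt h

theorem SatM.fin (hS : SatM M) (h : A.Finite) : #A < #M := h.lt_aleph0.trans hS.unc

theorem SatM.union (hS : SatM M) (h : #A < #M) (h' : #B < #M) : #(A ∪ B : Set X) < #M :=
  (mk_union_le _ _).trans_lt (add_lt_of_lt hS.unc.le h h')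

theorem SatM.insert (hS : SatM M) (h : #A < #M) (a : X) : #(insert a A : Set X) < #M :=
  hS.union (hS.fin (Set.finite_singleton a)) h

end small

/-- comprehension for a bounded definable set -/
theorem compr_bd {P : M → Prop} (hP : Ar fun v => P (v 0)) (n : M) (hb : ∀ x, P x → x < n) :
    ∃ k, ∀ x, mem x k ↔ P x := by
  obtain ⟨k, hk⟩ := compr hP n
  exact ⟨k, fun x => (hk x).trans ⟨fun h => h.2, fun h => ⟨hb x h, h⟩⟩⟩

theorem exists_not_mem {S : Set M} (h : #S < #M) {f : M → M}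
    (hf : Function.Injective f) : ∃ x, f x ∉ S := by
  by_contra hn
  push Not at hn
  exact absurd (mk_le_of_injective (f := fun x => (⟨f x, hn x⟩ : S))
    fun a b e => hf (congrArg Subtype.val e :)) (not_le.2 h)

theorem exists_fresh (hS : SatM M) {k : M} (hk : {x | mem x k}.Infinite) {S : Set M}
    (h : #S < #M) : ∃ x, mem x k ∧ x ∉ S := by
  obtain ⟨x, h1, h2⟩ := hS.base (P := fun x => mem x k) (by exact ArI.out) (smallT_set h)
    (fun i x => x ≠ i.1) (fun i => by exact ArI.out) fun J hJ => by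
      obtain ⟨x, h1, h2⟩ := hk.exists_notMem_finite (hJ.image Subtype.val)
      exact ⟨x, h1, fun i hi e => h2 ⟨i, hi, e.symm⟩⟩
  exact ⟨x, h1, fun hx => h2 ⟨x, hx⟩ rfl⟩

theorem finite_of_small (hS : SatM M) {k : M} (h : #{x | mem x k} < #M) :
    {x | mem x k}.Finite := by
  by_contra hn
  obtain ⟨x, h1, h2⟩ := exists_fresh hS hn h
  exact h2 h1

theorem rich {s t : M} (hs : Good s) (ht : Fresh s t) (i : Bool) (Y : M) :
    ∃ z, Wm s z ∧ prt i z ∧ ∀ y, say t z y ↔ mem y Y := by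
  obtain ⟨w, hw⟩ : ∃ w : M, w = t + s + 1 := ⟨_, rfl⟩
  have st : t < w := hw ▸ lt_succ_iff.2 le_self_add
  have sk : s < w := hw ▸ lt_succ_iff.2 le_add_self
  have s0 : w ≠ 0 := ((IsPA.nonneg t).trans_lt st).ne'
  have lk : ∀ {x l t' Y' c : M}, mem (pr x (pr l (pr 1 (pr (pr t' Y') c)))) s →
      t' < s ∧ Y' < s := fun h => by
    have := ((((le_pr_left _ _).trans (le_pr_right _ _)).trans (le_pr_right _ _)).trans
      (le_pr_right _ _)).trans_lt (lt_of_mem h)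
    exact ⟨(le_pr_left _ _).trans_lt this, (le_pr_right _ _).trans_lt this⟩
  have hi : ArI fun _ : ℕ → M => i = true := ⟨Ar.const _⟩
  obtain ⟨z, hz⟩ := compr_bd (P := fun x : M => (x = pr 0 0 ∧ i = true) ∨
      (∃ y, mem y Y ∧ x = pr t y) ∨
      (∃ a l t' Y' c y, mem (pr a (pr l (pr 1 (pr (pr t' Y') c)))) s ∧ mem y Y' ∧ x = pr t' y) ∨
      x = pr w 0)
    (by exact ArI.out) (pr t Y + pr s s + pr w 0 + 1) (by
      rintro x (⟨rfl, -⟩ | ⟨y, hy, rfl⟩ | ⟨a, l, t', Y', c, y, h1, h2, rfl⟩ | rfl) <;>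
        rw [lt_succ_iff]
      · exact (pr_mono (IsPA.nonneg w) le_rfl).trans le_add_self
      · exact ((pr_mono le_rfl (lt_of_mem hy).le).trans le_self_add).trans le_self_add
      · exact ((pr_mono (lk h1).1.le ((lt_of_mem h2).trans (lk h1).2).le).trans
          le_add_self).trans le_self_add
      · exact le_add_self)
  have sz : w < z := (le_pr_left _ _).trans_lt (lt_of_mem ((hz _).2 (Or.inr (Or.inr (Or.inr rfl)))))
  refine ⟨z, ?_, ?_, fun y => ?_⟩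
  · rintro y hy ⟨l₁, u₁, x₁, c₁, rfl, ⟨g, rfl, hg⟩ | ⟨t₁, Y₁, rfl, hf⟩⟩
    · have h1 : z < g := (le_pr_left _ _).trans_lt (lt_of_mem hg.1)
      have h2 : g < s := (((le_pr_right _ _).trans (le_pr_right _ _)).trans
        (le_pr_right _ _)).trans_lt (lt_of_mem hy)
      exact absurd ((h1.trans h2).trans sk) (not_lt.2 sz.le)
    · refine hf fun y => (hz _).trans
        ⟨?_, fun h => Or.inr (Or.inr (Or.inl ⟨_, _, t₁, Y₁, _, y, hy, h, rfl⟩))⟩
      rintro (⟨e, -⟩ | ⟨y', h, e⟩ | ⟨a, l, t', Y', c, y', h1, h2, e⟩ | e)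
      · exact absurd (pr_inj.1 e).1 (hs _ _ _ _ _ hy).1
      · obtain rfl := (pr_inj.1 e).1
        exact absurd hy (ht.2 _ _ _ _)
      · obtain ⟨rfl, rfl⟩ := pr_inj.1 e
        rw [(hs _ _ _ _ _ hy).2 _ _ _ _ h1]
        exact h2
      · exact absurd (pr_inj.1 e).1 ((lk hy).1.trans sk).ne
  · refine (hz _).trans ⟨?_, fun h => Or.inl ⟨rfl, h⟩⟩
    rintro (⟨-, h⟩ | ⟨y, -, e⟩ | ⟨a, l, t', Y', c, y, h1, -, e⟩ | e)
    · exact h
    · exact absurd (pr_inj.1 e).1.symm ht.1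
    · exact absurd (pr_inj.1 e).1.symm (hs _ _ _ _ _ h1).1
    · exact absurd (pr_inj.1 e).1.symm s0
  · refine (hz _).trans ⟨?_, fun h => Or.inr (Or.inl ⟨y, h, rfl⟩)⟩
    rintro (⟨e, -⟩ | ⟨y', h, e⟩ | ⟨a, l, t', Y', c, y', h1, -, e⟩ | e)
    · exact absurd (pr_inj.1 e).1 ht.1
    · exact (pr_inj.1 e).2 ▸ h
    · obtain rfl := (pr_inj.1 e).1
      exact absurd h1 (ht.2 _ _ _ _)
    · exact absurd (pr_inj.1 e).1 st.ne

/-- one coded function extends few agreeing functions on a definable set -/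
theorem absorb (hS : SatM M) {D : Set M} (hD : #D < #M) (ha : ∀ G ∈ D, ∀ H ∈ D, Agree G H)
    {W : M → Prop} (hW : Ar fun v => W (v 0)) :
    ∃ a, (∀ z u, ap a z u → W z) ∧ ∀ G ∈ D, ∀ z u, ap G z u → W z → wat a z u := by
  have : Ar1 W := ⟨hW⟩
  obtain ⟨a, h1, h2⟩ := hS.base (P := fun a => ∀ z u, mem (pr z u) a → W z) (by exact ArI.out)
    (smallT_set hD) (fun G a => ∀ z u, mem (pr z u) G.1 → W z → wat a z u)
    (fun G => by exact ArI.out) fun J hJ => by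
      obtain ⟨k, hk⟩ := exists_code_of_finite (hJ.image Subtype.val)
      obtain ⟨a, ha'⟩ := compr_bd
        (P := fun x : M => ∃ z u G, x = pr z u ∧ W z ∧ mem G k ∧ mem x G) (by exact ArI.out) k
        fun x ⟨_, _, G, _, _, h1, h2⟩ => (lt_of_mem h2).trans (lt_of_mem h1)
      have key : ∀ z u, mem (pr z u) a → W z ∧ ∃ G ∈ D, ap G z u := fun z u h => by
        obtain ⟨z', u', G, e, h1, h2, h3⟩ := (ha' _).1 h
        obtain ⟨G, -, rfl⟩ := (hk G).1 h2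
        exact ⟨(pr_inj.1 e).1 ▸ h1, G.1, G.2, h3⟩
      refine ⟨a, fun z u h => (key z u h).1, fun G hG z u h1 h2 =>
        ⟨(ha' _).2 ⟨z, u, G, rfl, h2, (hk _).2 ⟨G, hG, rfl⟩, h1⟩, fun u' hl h => ?_⟩⟩
      obtain ⟨-, H, hH, h3⟩ := key z u' h
      exact hl.ne (ha H hH G.1 G.2 z u' u h3 h1)
  exact ⟨a, h1, fun G hG => h2 ⟨G, hG⟩⟩

/-- a directed family of few lists of clauses has a common end-extension -/
theorem exists_bound (hS : SatM M) {ι : Type v} [Nonempty ι] (hι : SmallT M ι) (s : ι → M)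
    (dir : ∀ n m, ∃ k, EE (s n) (s k) ∧ EE (s m) (s k)) {P : M → Prop}
    (hP : Ar fun v => P (v 0)) (h : ∀ n, ∃ x, P x ∧ EE (s n) x) : ∃ x, P x ∧ ∀ n, EE (s n) x := by
  refine hS.base hP hι (fun n x => EE (s n) x) (fun n => by exact ArI.out) fun J hJ => ?_
  have : ∃ k, ∀ n ∈ J, EE (s n) (s k) := by
    induction J, hJ using Set.Finite.induction_on with
    | empty => exact ⟨Classical.arbitrary ι, fun _ h => h.elim⟩
    | @insert a J _ _ ih =>
      obtain ⟨k, hk⟩ := ih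
      obtain ⟨k', h1, h2⟩ := dir a k
      exact ⟨k', fun n hn => hn.elim (fun e => e ▸ h1) fun hn => (hk n hn).trans h2⟩
  obtain ⟨k, hk⟩ := this
  obtain ⟨x, h1, h2⟩ := h k
  exact ⟨x, h1, fun n hn => (hk n hn).trans h2⟩

theorem block (hS : SatM M) (s z : ℕ → M) 
    (hz : ∀ k n, k ≤ n → Wm (s k) (z n)) :
    ∃ K, (∀ n, mem (z n) K) ∧ ∀ k x, mem x K → Wm (s k) x ∨ ∃ n < k, x = z n := by
  choose e he using fun k : ℕ => exists_code_of_finite ((Set.finite_Iio k).image z)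
  obtain ⟨K, h⟩ := hS.s1.seq
    (fun k K => mem (z k) K ∧ ∀ x, mem x K → Wm (s k) x ∨ mem x (e k))
    (fun k => by exact ArI.out) fun N => by
      refine ⟨e N, fun k hk => ⟨(he _ _).2 ⟨k, hk, rfl⟩, fun x hx => ?_⟩⟩
      obtain ⟨n, -, rfl⟩ := (he _ _).1 hx
      rcases lt_or_ge n k with h | h
      · exact Or.inr ((he _ _).2 ⟨n, h, rfl⟩)
      · exact Or.inl (hz k n h)
  refine ⟨K, fun n => (h n).1, fun k x hx => ((h k).2 x hx).imp_right fun h => ?_⟩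
  obtain ⟨n, hn, rfl⟩ := (he _ _).1 h
  exact ⟨n, hn, rfl⟩

theorem pseudo (hS : Sat (aleph 1) M) (Y : ℕ → M) (hY : ∀ n, InfStd (Y n))
    (hd : ∀ n, sub (Y (n + 1)) (Y n)) :
    ∃ Z, InfStd Z ∧ ∀ n x, mem x Z → x ∉ omega M → mem x (Y n) := by
  have mono : ∀ k j, k ≤ j → sub (Y j) (Y k) := fun k j h => by
    induction j, h using Nat.le_induction with
    | base => exact sub_refl _
    | succ j _ ih => exact (hd j).trans ih
  choose a ha ha' using fun k => hY k k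
  choose e he using fun k : ℕ =>
    exists_code_of_finite ((Set.finite_Iio k).image fun j => (a j : M))
  obtain ⟨Z, hZ⟩ := hS.seq (fun k Z => mem (a k : M) Z ∧ ∀ x, mem x Z → mem x (Y k) ∨ mem x (e k))
    (fun k => by exact ArI.out) fun N => by
      refine ⟨e N, fun k hk => ⟨(he _ _).2 ⟨k, hk, rfl⟩, fun x hx => ?_⟩⟩
      obtain ⟨j, -, rfl⟩ := (he _ _).1 hx
      rcases lt_or_ge j k with h | h
      · exact Or.inr ((he _ _).2 ⟨j, h, rfl⟩)
      · exact Or.inl (mono k j h _ (ha' j))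
  refine ⟨Z, fun N => ⟨a N, ha N, (hZ N).1⟩, fun n x hx hs => ((hZ n).2 x hx).resolve_right ?_⟩
  intro h
  obtain ⟨j, -, rfl⟩ := (he _ _).1 h
  exact hs (nat_std _)

theorem exists_infStd (hS : Sat (aleph 1) M) : ∃ Y : M, InfStd Y := by
  obtain ⟨a, ha⟩ := hS.nonstd
  obtain ⟨k, hk⟩ := compr (P := fun x : M => x = x) (by exact ArI.out) a
  exact ⟨k, fun N => ⟨N, le_rfl, (hk _).2 ⟨nat_lt_of_nonstd ha N, rfl⟩⟩⟩

theorem exists_const (K a : M) : ∃ G, ∀ z u, ap G z u ↔ mem z K ∧ u = a := by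
  obtain ⟨G, hG⟩ := compr_bd (P := fun x : M => ∃ z, mem z K ∧ x = pr z a) (by exact ArI.out)
    (pr K a + 1) (by
      rintro x ⟨z, hz, rfl⟩
      exact lt_succ_iff.2 (pr_mono (lt_of_mem hz).le le_rfl))
  refine ⟨G, fun z u => (hG _).trans ⟨?_, ?_⟩⟩
  · rintro ⟨z', hz, e⟩
    obtain ⟨rfl, rfl⟩ := pr_inj.1 e
    exact ⟨hz, rfl⟩
  · rintro ⟨hz, rfl⟩
    exact ⟨z, hz, rfl⟩

theorem exists_image (G K : M) : ∃ k, ∀ u, mem u k ↔ ∃ z, mem z K ∧ ap G z u :=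
  compr_bd (P := fun u : M => ∃ z, mem z K ∧ mem (pr z u) G) (by exact ArI.out) G
    fun _ ⟨_, _, h⟩ => (le_pr_right _ _).trans_lt (lt_of_mem h)

theorem exists_watimage (d Y m : M) :
    ∃ K, ∀ u, mem u K ↔ ∃ n, mem n Y ∧ m ≤ n ∧ wat d n u :=
  compr_bd (P := fun u : M => ∃ n, mem n Y ∧ m ≤ n ∧ wat d n u) (by exact ArI.out) d
    fun _ ⟨_, _, _, h⟩ => (le_pr_right _ _).trans_lt (lt_of_mem h.1)

theorem exists_restrict (G : M) {P : M → Prop} (hP : Ar fun v => P (v 0)) :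
    ∃ H, ∀ z u, ap H z u ↔ ap G z u ∧ P z := by
  have : Ar1 P := ⟨hP⟩
  obtain ⟨H, hH⟩ := compr_bd (P := fun x : M => mem x G ∧ ∃ z u, x = pr z u ∧ P z)
    (by exact ArI.out) G fun _ h => lt_of_mem h.1
  refine ⟨H, fun z u => (hH _).trans ⟨?_, fun h => ⟨h.1, z, u, rfl, h.2⟩⟩⟩
  rintro ⟨h, z', u', e, hz⟩
  obtain ⟨rfl, rfl⟩ := pr_inj.1 e
  exact ⟨h, hz⟩

/-- `m` is the least element of `Y` that is at least `n` -/
def nxt (Y n m : M) : Prop := mem m Y ∧ n ≤ m ∧ ∀ m', m' < m → n ≤ m' → ¬ mem m' Y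

instance : D3 (nxt (M := M)) := ⟨by unfold nxt; exact D0I.out⟩

theorem nxt_unique {Y n m m' : M} (h : nxt Y n m) (h' : nxt Y n m') : m = m' :=
  le_antisymm (not_lt.1 fun hl => h.2.2 _ hl h'.2.1 h'.1)
    (not_lt.1 fun hl => h'.2.2 _ hl h.2.1 h.1)

theorem nxt_std {Y : M} (hY : InfStd Y) (n : ℕ) : ∃ m : ℕ, nxt Y (n : M) (m : M) := by
  obtain ⟨a, ha, ha'⟩ := hY n
  obtain ⟨m, hm, hmin⟩ := exists_least (P := fun x : M => mem x Y ∧ (n : M) ≤ x)
    (by exact ArI.out) (x := (a : M)) ⟨ha', by exact_mod_cast ha⟩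
  obtain ⟨m, rfl⟩ := std_of_le (hmin _ ⟨ha', by exact_mod_cast ha⟩) (nat_std a)
  exact ⟨m, hm.1, hm.2, fun m' hl h1 h2 => absurd (hmin m' ⟨h2, h1⟩) (not_le.2 hl)⟩

/-- passing to an enumeration of `Y` -/
theorem reindex (hS : Sat (aleph 1) M) {F : Set M} {C : Rel M} {q : Pre M} {d Y : M}
    (hY : InfStd Y) (hd : ∀ n : ℕ, ∃ u, wat d (n : M) u) (h : BMY F C q d Y) :
    ∃ d' μ, BMF F C q d' μ := by
  obtain ⟨μ, hμ, H⟩ := overspill hS.nonstd (P := fun n => ∃ m u, nxt Y n m ∧ wat d m u)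
    (by exact ArI.out) fun n => by
      obtain ⟨m, hm⟩ := nxt_std hY n
      obtain ⟨u, hu⟩ := hd m
      exact ⟨m, u, hm, hu⟩
  obtain ⟨d', hd'⟩ := compr_bd
    (P := fun x : M => ∃ n u m, x = pr n u ∧ n ≤ μ ∧ nxt Y n m ∧ wat d m u) (by exact ArI.out)
    (pr μ d + 1) (by
      rintro x ⟨n, u, m, rfl, h1, -, h2⟩
      exact lt_succ_iff.2 (pr_mono h1 ((le_pr_right _ _).trans (lt_of_mem h2.1).le)))
  have key : ∀ n m u, n ≤ μ → nxt Y n m → wat d m u → wat d' n u := by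
    intro n m u h1 h2 h3
    refine ⟨(hd' _).2 ⟨n, u, m, rfl, h1, h2, h3⟩, fun u' hl hm => ?_⟩
    obtain ⟨n', u'', m', e, -, h4, h5⟩ := (hd' _).1 hm
    obtain ⟨rfl, rfl⟩ := pr_inj.1 e
    obtain rfl := nxt_unique h2 h4
    exact hl.ne (wat_unique h5 h3)
  refine ⟨d', μ, hμ, fun n hn => ?_, fun r hr Y₂ hb hY₂ e => ?_⟩
  · obtain ⟨m, u, h1, h2⟩ := H n hn
    exact ⟨u, key n m u hn h1 h2⟩
  · obtain ⟨Y₃, hY₃⟩ := compr_bd (P := fun m : M => ∃ n, mem n Y₂ ∧ nxt Y n m) (by exact ArI.out)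
      Y fun _ ⟨_, _, h⟩ => lt_of_mem h.1
    obtain ⟨s, hs, m, u, h1, h2, h3, h4⟩ := h r hr Y₃
      (fun m hm => by
        obtain ⟨n, -, hn⟩ := (hY₃ m).1 hm
        exact hn.1)
      (fun N => by
        obtain ⟨n, hn, hn'⟩ := hY₂ N
        obtain ⟨m, hm⟩ := nxt_std hY n
        exact ⟨m, hn.trans (by exact_mod_cast hm.2.1), (hY₃ _).2 ⟨n, hn', hm⟩⟩) e
    obtain ⟨n, hn, hnm⟩ := (hY₃ m).1 h1
    refine ⟨s, hs, n, u, hn, ?_, key n m u (hb n hn) hnm h3, h4⟩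
    rintro ⟨n, rfl⟩
    obtain ⟨m', hm'⟩ := nxt_std hY n
    exact h2 (nxt_unique hnm hm' ▸ nat_std m')

end Pool.Agent.MP_6072c5_lc.U71
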