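import Pool.Agent.MP_6072c5_lc.U71.Ops

/-! The totality step; soundness of the reading procedure; the mask step. -/

set_option linter.unusedSectionVars false
set_option synthInstance.maxSize 100000

namespace Pool.Agent.MP_6072c5_lc.U71

open Cardinal

universe u v

variable {M : Type u} [CommSemiring M] [LinearOrder M] [IsPA M]
variable {F : Set M} {p b : Pre M} {C Ψ : Rel M} {j t : M} {i : Bool}

theorem tot_dense (hS : SatM M) (hp : IsCond F p) {d μ q : M} (hj : j = pr d (pr μ q))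
    (hj0 : j ≠ 0) (hf : Free p j) (hd : ∀ n, n ≤ μ → ∃ u, wat d n u)
    (K : M) : ∃ r, Ext F r p ∧ Tot r j K := by
  by_cases h3 : ∀ N : ℕ, ∃ n : ℕ, N ≤ n ∧ ∃ z u, mem z K ∧ Lab (p.S j) z (n : M) u
  · exact ⟨p, Ext.refl hp, Or.inr h3⟩
  push Not at h3
  obtain ⟨N, hN⟩ := h3
  obtain ⟨g₀, hg₀⟩ := exists_const K 0
  obtain ⟨s, hs⟩ := exists_snoc (p.S j) 0 (pr 0 g₀)
  have h1 := setS_ext hp hf hs.ee (hs.good_fun (hp.good j))
  have key : ∀ z, mem z K → ∃ l u, Lab s z l u ∧ (l ≤ (N : M) ∨ l ∉ omega M) := fun z hz => by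
    rcases wm_or_lab (p.S j) z with hw | ⟨l, u, hl⟩
    · exact ⟨0, 0, hs.lab hw (catch_fun.2 ⟨(hg₀ z 0).2 ⟨hz, rfl⟩,
        fun u' h _ => absurd (IsPA.nonneg u') (not_le.2 h)⟩), Or.inl (IsPA.nonneg _)⟩
    · refine ⟨l, u, hl.ee hs.ee, or_iff_not_imp_right.2 fun h => ?_⟩
      obtain ⟨n, rfl⟩ := not_not.1 h
      by_contra hn
      exact hN n (by exact_mod_cast (not_le.1 hn).le) z u hz hl
  obtain ⟨g, hg⟩ := compr_bd (P := fun x : M => ∃ z u, x = pr z u ∧ mem z K ∧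
      ∃ l u', Lab s z l u' ∧ ((l ≤ (N : M) ∧ u = u') ∨ ((N : M) < l ∧ Wv j l u)))
    (by exact ArI.out) (pr K (s + d) + 1) (by
      rintro x ⟨z, u, rfl, h1, l, u', h2, h3⟩
      refine lt_succ_iff.2 (pr_mono (lt_of_mem h1).le ?_)
      rcases h3 with ⟨-, rfl⟩ | ⟨-, h3⟩
      · exact h2.lt.2.le.trans le_self_add
      · rcases wv_iff.1 (hj ▸ h3) with h3 | h3 <;>
          exact ((le_pr_right _ _).trans (lt_of_mem h3.2.1).le).trans le_add_self)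
  obtain ⟨l, h2, h3⟩ := fact_ext hS h1.cond hj0 hf (g := g) ⟨N, fun z u h => by
    obtain ⟨z', u₁, e, a1, l, u', a2, a3⟩ := (hg _).1 h
    obtain ⟨rfl, rfl⟩ := pr_inj.1 e
    rw [setS_self]
    obtain ⟨l', u'', b1, b2⟩ := key z a1
    obtain ⟨rfl, rfl⟩ := a2.unique b1
    exact ⟨l, u', a2, a3.imp_right fun a3 => ⟨b2.resolve_left (not_le.2 a3.1), a3.2⟩⟩⟩
  refine ⟨_, h3.trans h1, Or.inl ⟨g, ⟨l, Or.inr rfl, h2⟩, fun z hz => ?_⟩⟩
  obtain ⟨l, u, a1, -⟩ := key z hz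
  rcases le_or_gt l (N : M) with h | h
  · exact ⟨u, (hg _).2 ⟨z, u, rfl, hz, l, u, a1, Or.inl ⟨h, rfl⟩⟩⟩
  · have : ∃ w, Wv j l w := by
      rcases le_or_gt l μ with h' | h'
      · exact (hd l h').imp fun w hw => hj ▸ wv_iff.2 (Or.inl ⟨h', hw⟩)
      · exact (hd μ le_rfl).imp fun w hw => hj ▸ wv_iff.2 (Or.inr ⟨h', hw⟩)
    exact this.imp fun w hw => (hg _).2 ⟨z, w, rfl, hz, l, u, a1, Or.inr ⟨h, hw⟩⟩

theorem rd_sound (hS : SatM M) (hb : IsCond F b) (hj : j ∈ b.Z) (hj0 : j ≠ 0) {a₁ : M}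
    (ha : En1 b.T C true a₁) (hW : ∀ r, Ext F r b → ¬ Wrong r.T C j i Ψ)
    (hp : Ext F p (modeOn b j t)) {l l' : Lit M} (hl' : l' ∈ p.T) (hk : l'.1 = l.1) {k₁ k₀ : M}
    (he : En p.T C k₁ k₀) (hr : Rd (modeAt b j t) Ψ i (lit l) k₁ k₀) : l = l' := by
  by_contra hne
  have hl : l ∉ p.T := hp.cond.not_mem hl' hk (Ne.symm hne)
  obtain ⟨k, K, a, c, g, z, hΨ, hz, hi, hw, hs, hrows, hpart, hag, hL⟩ := hr
  have hm : modeAt b j t ∈ p.Md := hp.nm.Md (Or.inl rfl)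
  obtain ⟨a₀, s, s1, s2, -, hu⟩ := exists_unmode hS hb hj hp 0
    (W := fun x => ¬ mem (pr t (lit l)) x) (by exact ArI.out)
    fun G ⟨l'', h1, h2⟩ x u h hx hx' =>
      hl (hp.cond.closed.mem h1 ⟨_, hm, G, x, u, h2, h, hx, hx'⟩)
  have hf : Free (unmode p j s) j := hu.cond.free_of_mem (Or.inl rfl)
  have hs' : (unmode p j s).S j = s := setS_self p j s
  have key : ∀ x, Wm (b.S j) x → say t x (lit l) → Wm s x := fun x hx hx' =>
    s1.wm hx fun u h => s2 x u (catch_fun.1 h).1 hx'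
  obtain ⟨q₁, e1, f1, g1, c1⟩ := fire hS hu.cond hj0 hf hag
    (hs'.symm ▸ FitsW.mono hL (fun x _ _ h => key x h.1 h.2) s1.ee)
  obtain ⟨g', hg'⟩ := exists_single (pr z a₁)
  obtain ⟨q₂, e2, f2, -, -⟩ := fire hS e1.cond hj0 g1 (g := g')
    (fun x u u' h h' => (pr_inj.1 ((hg' _).1 h)).2.trans (pr_inj.1 ((hg' _).1 h')).2.symm)
    (FitsW.of_all fun x u h => by
      obtain rfl := (pr_inj.1 ((hg' _).1 h)).1
      exact c1.wm (hs'.symm ▸ key x hw hs) fun v hv =>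
        prt_not.1 hi (hpart x v (catch_fun.1 hv).1))
  have e3 := (e2.trans e1).trans hu
  have fg := Facts.mono e2.T j f1
  exact hW _ e3 ⟨K, ⟨k, a, c, k₁, k₀, hΨ, he.mono (e2.trans e1).T, g, fg, g, fg, hrows⟩, z, hz, hi,
    g', f2, a₁, (hg' _).2 rfl, ha.mono e3.T⟩

theorem exists_part {S : Set M} (h : #S < #M) (i : Bool) : ∃ y, prt i y ∧ pr 0 y ∉ S := by
  obtain ⟨e, he⟩ := exists_empty (M := M)
  choose s hs using exists_single (M := M)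
  choose f h1 h2 h3 using fun x : M => rich (s := e) (t := 1)
    (fun _ _ _ _ _ h => absurd h (he _)) ⟨one_ne_zero, fun _ _ _ _ => he _⟩ i (s x)
  obtain ⟨x, hx⟩ := exists_not_mem h (f := fun x => pr 0 (f x)) fun x y e => by
    have : f x = f y := (pr_inj.1 e).2
    exact (hs y x).1 ((h3 y x).1 (this ▸ (h3 x x).2 ((hs x x).2 rfl)))
  exact ⟨f x, h2 x, hx⟩

theorem mask_dense (hS : SatM M) (hp : IsCond F p) (hI : Ins F C p) (i : Bool)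
    (Ψ : Rel M) : ∃ q, Ext F q p ∧ MWin F C i Ψ q := by
  obtain ⟨y, hy, hv⟩ := exists_part (keys_small hp.cT) (!i)
  obtain ⟨c, hq⟩ := (dec_ext hS hp hv false).1
  by_cases h : ∃ r, Ext F r (addT p {(pr 0 y, false, c)}) ∧ MEv r.T C i Ψ y
  · obtain ⟨r, hr, k, K, a, b, k₁, k₀, hΨ, hyK, he, h1, h2, h3⟩ := h
    obtain ⟨u, hu, he', hy', hk⟩ := hI r (hr.trans hq) y false c (hr.T (Or.inr rfl)) hv k₁ k₀ he
    have hne : ∀ y', prt i y' → y' ≠ y := fun y' h e => prt_not.1 hy (e ▸ h)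
    refine ⟨u, hu, y, hy, Or.inl ⟨⟨k, K, a, b, k₁, k₀, hΨ, hyK, he', fun x hx => ?_, h2,
      fun y' h h' => ?_⟩, _, hy'⟩⟩
    · exact (h1 x hx).imp_right fun ⟨y', c', e, h, h'⟩ => ⟨y', c', e, h, hk y' _ (hne y' h) h'⟩
    · exact (h3 y' h h').imp fun c' h'' => hk y' _ (hne y' h') h''
  · exact ⟨_, hq, y, hy, Or.inr ⟨⟨c, Or.inr rfl⟩, fun r hr h' => h ⟨r, hr, h'⟩⟩⟩

end Pool.Agent.MP_6072c5_lc.U71
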