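import Pool.Agent.MP_6072c5_lc.U71.Ops

/-! Switching finitely many pairs to another version. -/

set_option linter.unusedSectionVars false
set_option synthInstance.maxSize 100000

namespace Pool.Agent.MP_6072c5_lc.U71

open Cardinal

universe u v

variable {M : Type u} [CommSemiring M] [LinearOrder M] [IsPA M]
variable {F : Set M} {p u u' : Pre M} {Γ : Set (Lit M)} {C : Rel M} {e : Bool} {π : Petal M}

/-- removing pairs together with everything that depends on them -/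
theorem cut_closed {X Δ : Set (Lit M)} {Md : Set (Mode M)} (hc : Closed Md Δ)
    (up : ∀ l ∈ Δ, ∀ l' ∈ X, Says Md l (lit l') → l ∈ X) : Closed Md (Δ \ X) := by
  rintro l ⟨h1, h2⟩ y hy
  obtain ⟨l', h3, rfl⟩ := hc l h1 y hy
  exact ⟨l', ⟨h3, fun h => h2 (up l h1 l' h hy)⟩, rfl⟩

theorem cut_cond (hu : IsCond F u) {X : Set (Lit M)}
    (up : ∀ l ∈ u.T, ∀ l' ∈ X, Says u.Md l (lit l') → l ∈ X) : IsCond F (withT u (u.T \ X)) := by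
  have hs : u.T \ X ⊆ u.T := Set.sdiff_subset
  refine ⟨small_mono hu.cT hs, hu.cM, hu.cZ, fun l hl l' hl' => hu.fn l hl.1 l' hl'.1,
    fun y b₀ b₁ h => hu.col y b₀ b₁ h.1,
    fun j G hG H hH => hu.agr j G (Facts.mono hs j hG) H (Facts.mono hs j hH),
    fun j hf G hG => hu.fit j hf G (Facts.mono hs j hG), hu.good, hu.mfn,
    hu.mS, fun m hm G hG => hu.mL m hm G (Facts.mono hs _ hG), hu.mZ, fun l hl => ?_⟩
  obtain ⟨Δ, h1, h2, h3, h4⟩ := hu.fc l hl.1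
  exact ⟨Δ \ X, h1.subset Set.sdiff_subset, Set.sdiff_subset_sdiff_left h2, ⟨h3, hl.2⟩,
    cut_closed h4 fun x hx => up x (h2 hx)⟩

/-- a copy of a fact without the points that send a message in `X` -/
theorem exists_copy (hu : IsCond F u) (X : Set (Lit M)) {l : Lit M}
    (hl : l ∈ u.T) {m : Mode M} {G : M} (hG : IsFact l m.j G) :
    ∃ c : Lit M, c.1 ∉ keys u.T ∧ c.2 = (true, false) ∧ ∃ G', IsFact c m.j G' ∧ ∀ z a,
      ap G' z a ↔ ap G z a ∧ ¬ ∃ l' ∈ X, Says u.Md l (lit l') ∧ say m.t z (lit l') := by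
  obtain ⟨Δ, h1, -, h3, h4⟩ := hu.fc l hl
  obtain ⟨K, hK⟩ := exists_code_of_finite (S := lit '' {l' | l' ∈ X ∧ Says u.Md l (lit l')})
    ((h1.subset fun l' h => h4.mem h3 h.2).image _)
  obtain ⟨G', hG'⟩ := exists_restrict G (P := fun z => ¬ ∃ y, mem y K ∧ mem (pr m.t y) z)
    (by exact ArI.out)
  obtain ⟨c, c1, c2, c3⟩ := exists_factLit hG.1 G' (keys_small hu.cT)
  refine ⟨c, c2, c3, G', c1, fun z a => (hG' z a).trans (and_congr_right fun _ => not_congr ?_)⟩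
  constructor
  · rintro ⟨y, a1, a2⟩
    obtain ⟨l', a3, rfl⟩ := (hK y).1 a1
    exact ⟨l', a3.1, a3.2, a2⟩
  · rintro ⟨l', a1, a2, a3⟩
    exact ⟨_, (hK _).2 ⟨l', ⟨a1, a2⟩, rfl⟩, a3⟩

theorem exists_sw (hS : SatM M) (hu : IsCond F u) (h : Alt F u Γ) :
    ∃ u', Sw F u Γ u' := by
  obtain ⟨X, hX⟩ : ∃ X : Set (Lit M), ∀ l, l ∈ X ↔ l ∈ u.T ∧ ∃ l₀, l₀.1 ∈ keys (Γ \ u.T) ∧
      Relation.ReflTransGen (fun a b => Says u.Md a (lit b)) l l₀ := ⟨{l | _}, fun _ => Iff.rfl⟩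
  have XT : ∀ l ∈ X, l ∈ u.T := fun l hl => ((hX l).1 hl).1
  have X0 : ∀ l ∈ u.T, l.1 ∈ keys (Γ \ u.T) → l ∈ X := fun l h1 h2 =>
    (hX l).2 ⟨h1, l, h2, .refl⟩
  have up : ∀ l ∈ u.T, ∀ l' ∈ X, Says u.Md l (lit l') → l ∈ X := by
    intro l hl l' hl' hy
    obtain ⟨-, l₀, h1, h2⟩ := (hX l').1 hl'
    exact (hX l).2 ⟨hl, l₀, h1, h2.head hy⟩
  have dep : ∀ l ∈ X, l.1 ∉ keys (Γ \ u.T) → ∃ l' ∈ X, Says u.Md l (lit l') := by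
    intro l hl hk
    obtain ⟨h0, l₀, h1, h2⟩ := (hX l).1 hl
    rcases h2.cases_head with rfl | ⟨l', h3, h4⟩
    · exact absurd h1 hk
    · exact ⟨l', (hX l').2 ⟨hu.closed.mem h0 h3, l₀, h1, h4⟩, h3⟩
  have kS : keys (Γ \ u.T) ⊆ keys u.T := by
    rintro _ ⟨s, hs, rfl⟩
    rcases h.new s hs.1 hs.2 with ⟨y, b₀, b₁, c, rfl, -, h1⟩ | ⟨m, -, H, -, ⟨b, h1⟩, -⟩
    · exact ⟨_, h1, rfl⟩
    · exact ⟨_, h1, rfl⟩
  have keep : ∀ Δ, Closed u.Md Δ → Disjoint (keys Δ) (keys (Γ \ u.T)) → ∀ l ∈ Δ, l ∉ X := by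
    intro Δ hc hd l hl hx
    obtain ⟨-, l₀, h1, h2⟩ := (hX l).1 hx
    have : l₀ ∈ Δ := by
      clear h1
      induction h2 with
      | refl => exact hl
      | tail _ h3 ih => exact hc.mem ih h3
    exact Set.disjoint_left.1 hd (mem_keys this) h1
  have h0 := cut_cond hu up
  have hc : ∀ l, l ∈ X ∧ l.1 ∉ keys (Γ \ u.T) → ∃ c : Lit M, c.1 ∉ keys u.T ∧
      c.2 = (true, false) ∧ ∃ m ∈ u.Md, ∃ G G', IsFact l m.j G ∧ IsFact c m.j G' ∧ ∀ z a,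
        ap G' z a ↔ ap G z a ∧ ¬ ∃ l' ∈ X, Says u.Md l (lit l') ∧ say m.t z (lit l') := by
    rintro l ⟨h1, h2⟩
    obtain ⟨l', -, m, hm, G, -, -, hG, -⟩ := dep l h1 h2
    obtain ⟨c, c1, c2, G', c3⟩ := exists_copy hu X (XT l h1) hG
    exact ⟨c, c1, c2, m, hm, G, G', hG, c3⟩
  choose! cp c1 c2 c3 using hc
  obtain ⟨D, hD⟩ : ∃ D : Set (Lit M), ∀ l, l ∈ D ↔ l ∈ X ∧ l.1 ∉ keys (Γ \ u.T) :=
    ⟨{l | _}, fun _ => Iff.rfl⟩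
  simp only [← hD] at c1 c2 c3
  have DX : ∀ l ∈ D, l ∈ X := fun l hl => ((hD l).1 hl).1
  have DT : D ⊆ u.T := fun l hl => XT l (DX l hl)
  have DS : ∀ l ∈ D, l.1 ∉ keys (Γ \ u.T) := fun l hl => ((hD l).1 hl).2
  obtain ⟨Δ, hΔ⟩ : ∃ Δ : Set (Lit M), Δ = (Γ \ u.T) ∪
    ((fun l => (l.1, true, true)) '' D ∪ cp '' D) := ⟨_, rfl⟩
  have mΔ : ∀ l ∈ Δ, l ∈ Γ \ u.T ∨ (∃ d ∈ D, (d.1, true, true) = l) ∨ ∃ d ∈ D, cp d = l :=
    fun l hl => by rwa [hΔ] at hl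
  have m1 : ∀ l ∈ Γ \ u.T, l ∈ Δ := fun l hl => hΔ ▸ Or.inl hl
  have m2 : ∀ d ∈ D, (d.1, true, true) ∈ Δ := fun d hd => hΔ ▸ Or.inr (Or.inl ⟨d, hd, rfl⟩)
  have m3 : ∀ d ∈ D, cp d ∈ Δ := fun d hd => hΔ ▸ Or.inr (Or.inr ⟨d, hd, rfl⟩)
  have cls : ∀ j, ∀ G ∈ Facts ((u.T \ X) ∪ Δ) j,
      (G ∈ Facts Γ j ∧ ∃ m ∈ u.Md, m.j = j ∧ FitsW (Wm m.s) m.j m.s G ∧
        (∀ H ∈ Facts Γ j, Agree G H) ∧ ∀ H ∈ Facts u.T j, Agree G H) ∨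
      ∃ G₀ ∈ Facts u.T j, ∀ z a, ap G z a → ap G₀ z a := by
    rintro j G ⟨l, hl | hl, hG⟩
    · exact Or.inr ⟨G, ⟨l, hl.1, hG⟩, fun _ _ h => h⟩
    rcases mΔ l hl with hl | ⟨d, -, rfl⟩ | ⟨d, hd, rfl⟩
    · rcases h.new l hl.1 hl.2 with ⟨y, b₀, b₁, c, rfl, -⟩ | ⟨m, hm, H, a1, -, a2⟩
      · exact absurd hG IsFact.not_col
      · obtain ⟨rfl, rfl⟩ := hG.unique a1
        exact Or.inl ⟨⟨l, hl.1, hG⟩, m, hm, rfl, a2⟩
    · exact absurd hG IsFact.not_neg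
    · obtain ⟨m, -, G₀, G', a1, a2, a3⟩ := c3 d hd
      obtain ⟨rfl, rfl⟩ := hG.unique a2
      exact Or.inr ⟨G₀, ⟨d, DT hd, a1⟩, fun z a h => ((a3 z a).1 h).1⟩
  have cls' := fun j G (hG : G ∈ Facts Δ j) => cls j G (Facts.mono Set.subset_union_right j hG)
  have hΓ : Γ ⊆ (u.T \ X) ∪ Δ := by
    intro l hl
    by_cases hT : l ∈ u.T
    · refine Or.inl ⟨hT, keep (Γ ∩ u.T) (h.cl.inter hu.closed) (Set.disjoint_left.2 ?_) l ⟨hl, hT⟩⟩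
      rintro _ ⟨a, ha, rfl⟩ ⟨s, hs, e⟩
      exact hs.2 (h.fn s hs.1 a ha.1 e ▸ ha.2)
    · exact Or.inr (m1 l ⟨hl, hT⟩)
  have out : ∀ l ∈ X, l ∉ (u.T \ X) ∪ Δ := by
    rintro l hl (h1 | h1)
    · exact h1.2 hl
    rcases mΔ l h1 with h1 | ⟨d, hd, rfl⟩ | ⟨d, hd, rfl⟩
    · exact h1.2 (XT l hl)
    · obtain ⟨m, -, G, -, a1, -⟩ := c3 d hd
      exact IsFact.not_neg (hu.fn d (DT hd) _ (XT _ hl) rfl ▸ a1)
    · exact c1 d hd (mem_keys (XT _ hl))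
  refine ⟨addT (withT u (u.T \ X)) Δ, addT_cond hS h0 ?_ ?_ ?_ ?_ ?_ ?_ ?_, rfl, rfl, rfl, hΓ,
    fun Δ' h1 h2 h3 l hl => Or.inl ⟨h1 hl, keep Δ' h2 h3 l hl⟩, fun l hl hl' => ?_⟩
  · have := small_mono hu.cT DT
    exact hΔ ▸ hS.union (hS.fin (h.fin.subset Set.sdiff_subset))
      (hS.union (small_image this _) (small_image this _))
  · intro l hl l' hl' e
    rcases mΔ l hl with hl | ⟨d, hd, rfl⟩ | ⟨d, hd, rfl⟩
    · rcases hl' with hl' | hl'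
      · exact absurd (X0 l' hl'.1 ⟨l, hl, e⟩) hl'.2
      rcases mΔ l' hl' with hl' | ⟨d', hd', rfl⟩ | ⟨d', hd', rfl⟩
      · exact h.fn l hl.1 l' hl'.1 e
      · exact absurd ⟨l, hl, e⟩ (DS d' hd')
      · exact absurd (kS ⟨l, hl, e⟩) (c1 d' hd')
    · rcases hl' with hl' | hl'
      · exact absurd (hu.fn d (DT hd) l' hl'.1 e ▸ DX d hd) hl'.2
      rcases mΔ l' hl' with hl' | ⟨d', hd', rfl⟩ | ⟨d', hd', rfl⟩
      · exact absurd ⟨l', hl', e.symm⟩ (DS d hd)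
      · exact Prod.ext e rfl
      · exact absurd ⟨d, DT hd, e⟩ (c1 d' hd')
    · rcases hl' with hl' | hl'
      · exact absurd ⟨l', hl'.1, e.symm⟩ (c1 d hd)
      rcases mΔ l' hl' with hl' | ⟨d', hd', rfl⟩ | ⟨d', hd', rfl⟩
      · exact absurd (kS ⟨l', hl', e.symm⟩) (c1 d hd)
      · exact absurd ⟨d', DT hd', e.symm⟩ (c1 d hd)
      · exact Prod.ext e ((c2 d hd).trans (c2 d' hd').symm)
  · intro y b₀ b₁ hl
    rcases mΔ _ hl with hl | ⟨d, hd, e⟩ | ⟨d, hd, e⟩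
    · rcases h.new _ hl.1 hl.2 with ⟨y', c₀, c₁, c, e, a1, -⟩ | ⟨m, -, H, a1, -⟩
      · simp only [Prod.mk.injEq, pr_inj, true_and] at e
        obtain ⟨rfl, rfl, rfl⟩ := e
        exact a1
      · exact absurd a1 IsFact.not_col
    · obtain ⟨m, -, G, -, a1, -⟩ := c3 d hd
      exact absurd (congrArg Prod.fst e) a1.key_ne
    · obtain ⟨m, -, G, G', -, a1, -⟩ := c3 d hd
      exact absurd (e ▸ a1) IsFact.not_col
  · intro j G hG H hH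
    rcases cls' j G hG with ⟨-, m, -, -, -, a1, a2⟩ | ⟨G₀, a1, a2⟩
    · rcases cls j H hH with ⟨b1, -⟩ | ⟨H₀, b1, b2⟩
      · exact a1 H b1
      · exact (a2 H₀ b1).sub (fun _ _ h => h) b2
    · rcases cls j H hH with ⟨-, m, -, -, -, -, b2⟩ | ⟨H₀, b1, b2⟩
      · exact (b2 G₀ a1).symm.sub a2 fun _ _ h => h
      · exact (hu.agr j G₀ a1 H₀ b1).sub a2 b2
  · intro j hf G hG
    rcases cls' j G hG with ⟨-, m, hm, e, -⟩ | ⟨G₀, a1, a2⟩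
    · exact absurd e (hf m hm)
    · exact (hu.fit j hf G₀ a1).sub a2
  · intro m hm G hG
    rcases cls' _ G hG with ⟨-, m', hm', e, a1, -⟩ | ⟨G₀, a1, a2⟩
    · exact hu.mfn m' hm' m hm e ▸ a1
    · exact (hu.mL m hm G₀ a1).sub a2
  · intro l hl
    rcases mΔ l hl with hl' | ⟨d, hd, rfl⟩ | ⟨d, hd, rfl⟩
    · exact ⟨Γ, h.fin, hΓ, hl'.1, h.cl⟩
    · exact ⟨{_}, Set.finite_singleton _, Set.singleton_subset_iff.2 (Or.inr hl), rfl,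
        closed_single fun _ => not_says_neg⟩
    · obtain ⟨E, h1, h2, h3, h4⟩ := hu.fc d (DT hd)
      refine ⟨insert (cp d) (E \ X), (h1.subset Set.sdiff_subset).insert _,
        Set.insert_subset (Or.inr hl) fun x hx => Or.inl ⟨h2 hx.1, hx.2⟩, Or.inl rfl, ?_⟩
      rintro x (rfl | hx) y hy
      · obtain ⟨m, hm, G, G', a1, a2, a3⟩ := c3 d hd
        obtain ⟨m', hm', G'', z, a, b1, b2, b3, b4⟩ := hy
        obtain rfl := hu.mfn m' hm' m hm (b1.unique a2).1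
        obtain rfl := (b1.unique a2).2
        obtain ⟨b5, b6⟩ := (a3 z a).1 b2
        have b7 : Says u.Md d y := ⟨m', hm', G, z, a, a1, b5, b3, b4⟩
        obtain ⟨l', b8, rfl⟩ := h4 d h3 y b7
        exact ⟨l', Or.inr ⟨b8, fun hx => b6 ⟨l', hx, b7, b4⟩⟩, rfl⟩
      · obtain ⟨l', b1, b2⟩ := cut_closed h4 (fun x hx => up x (h2 hx)) x hx y hy
        exact ⟨l', Or.inr b1, b2⟩
  · have hx : l ∈ X := by
      by_contra hx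
      exact hl' (Or.inl ⟨hl, hx⟩)
    refine or_iff_not_imp_left.2 fun hk => ?_
    have hd := (hD l).2 ⟨hx, hk⟩
    obtain ⟨l', a1, a2⟩ := dep l hx hk
    refine ⟨⟨l', XT l' a1, out l' a1, a2⟩, ⟨true, Or.inr (m2 l hd)⟩, fun m hm G hG => ?_⟩
    obtain ⟨m', hm', G₀, G', b1, b2, b3⟩ := c3 l hd
    obtain rfl := hu.mfn m' hm' m hm (b1.unique hG).1
    obtain rfl := (b1.unique hG).2
    refine ⟨G', ⟨_, Or.inr (m3 l hd), b2⟩, fun z a h => ((b3 z a).1 h).1, fun z a ha _ => ?_⟩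
    by_cases hz : ∃ l' ∈ X, Says u.Md l (lit l') ∧ say m'.t z (lit l')
    · obtain ⟨x, x1, -, x2⟩ := hz
      exact Or.inr ⟨x, XT x x1, out x x1, x2⟩
    · exact Or.inl ((b3 z a).2 ⟨ha, hz⟩)

theorem Sw.nm (h : Sw F u Γ u') : NM u u' :=
  ⟨fun j => h.S ▸ EE.refl _, h.Md.ge, h.Z.ge⟩

theorem Sw.ext (h : Sw F u Γ u') (hp : IsCond F p) (hu : Ext F u p)
    (hd : Disjoint (keys p.T) (keys (Γ \ u.T))) : Ext F u' p :=
  ⟨h.cond, h.keep _ hu.T (hu.closed hp) hd, hu.nm.trans h.nm⟩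

theorem Sw.keys_sub (h : Sw F u Γ u') : keys u.T ⊆ keys u'.T := by
  rintro _ ⟨l, hl, rfl⟩
  by_cases hl' : l ∈ u'.T
  · exact mem_keys hl'
  rcases h.chg l hl hl' with h1 | ⟨-, ⟨b, h1⟩, -⟩
  · exact keys_mono (Set.sdiff_subset.trans h.sub) h1
  · exact ⟨_, h1, rfl⟩

theorem Ready.alt (h : Ready F C e u π) (hu : IsCond F u) : Alt F u π.G0 := by
  refine ⟨h.fin0, h.fn, h.cl0, fun l hl hl' => (h.new l hl hl').imp_right ?_⟩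
  rintro ⟨m, hm, H, a1, a2, a3, a4, H', a5, a6⟩
  refine ⟨m, hm, H, a1, a2, a3, a4, fun G hG z a a' h1 h2 => ?_⟩
  obtain ⟨n, a3⟩ := a3
  rcases a3 z a h1 with hw | ho
  · rcases a6 z a h1 hw with h3 | ⟨l', -, h3, h4⟩
    · exact hu.agr _ H' (Facts.mono h.sub _ a5) G hG z a a' h3 h2
    · obtain ⟨g, g1, g2⟩ := hG
      exact absurd (hu.closed.mem g1 ⟨m, hm, G, z, a', g2, h2, hw, h4⟩) h3
  · exact hu.val_agree (hu.mS m hm ▸ ho) hG h2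

theorem Ready.key (h : Ready F C e u π) {l : Lit M} (hl : l ∈ π.G0) (hl' : l ∉ u.T) :
    ∃ l₀ ∈ u.T, l₀.1 = l.1 ∧ ∀ y, ¬ Says u.Md l₀ y := by
  rcases h.new l hl hl' with ⟨y, b₀, b₁, c, rfl, -, h1⟩ | ⟨m, -, H, -, ⟨b, h1⟩, -⟩
  · exact ⟨_, h1, rfl, fun _ => not_says_col⟩
  · exact ⟨_, h1, rfl, fun _ => not_says_neg⟩

theorem Ready.diff_ext (h : Ready F C e u π) (hu : Ext F u' u) :
    π.G0 \ u'.T = π.G0 \ u.T := by
  refine Set.Subset.antisymm (Set.sdiff_subset_sdiff_right hu.T) fun l hl => ⟨hl.1, fun hl' => ?_⟩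
  obtain ⟨l₀, h1, h2, -⟩ := h.key hl.1 hl.2
  exact hl.2 (hu.cond.fn l₀ (hu.T h1) l hl' h2 ▸ h1)

theorem Ready.ext (h : Ready F C e u π) (h0 : IsCond F u) (hu : Ext F u' u) : Ready F C e u' π := by
  refine ⟨h.fin0, h.fin1, h.sub.trans hu.T, fun l hl y hy => h.cl0 l hl y ?_,
    h.cl1.nm h0 hu.cond hu.nm h.sub, h.en0, h.en1, h.fn, fun l hl hl' => ?_⟩
  · by_cases hT : l ∈ u.T
    · exact says_nm h0 hu.cond hu.nm hT hy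
    rcases h.new l hl hT with ⟨y, b₀, b₁, c, rfl, -⟩ | ⟨m, hm, H, a1, -⟩
    · exact absurd hy not_says_col
    · exact says_mode hu.cond hu.nm.Md hm a1 hy
  · rcases h.new l hl fun hT => hl' (hu.T hT) with ⟨y, b₀, b₁, c, a1, a2, a3⟩ |
      ⟨m, hm, H, a1, ⟨b, a2⟩, a3, a4, H', a5, a6⟩
    · exact Or.inl ⟨y, b₀, b₁, c, a1, a2, hu.T a3⟩
    · refine Or.inr ⟨m, hu.nm.Md hm, H, a1, ⟨b, hu.T a2⟩, a3, a4, H', a5, fun z a h1 h2 =>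
        (a6 z a h1 h2).imp_right ?_⟩
      rintro ⟨l', b1, b2, b3⟩
      exact ⟨l', b1, ((h.diff_ext hu).ge ⟨b1, b2⟩).2, b3⟩

theorem Sw.keep_one (hs : Sw F u Γ u') {l l₀ : Lit M} {Δ : Set (Lit M)}
    (hd : Disjoint (keys Δ) (keys (Γ \ u.T))) (hl : l ∈ Δ) (h1 : l₀ ∈ u.T) (h2 : l₀.1 = l.1)
    (h3 : ∀ y, ¬ Says u.Md l₀ y) : l₀ ∈ u'.T := by
  refine hs.keep {l₀} (Set.singleton_subset_iff.2 h1) (closed_single h3) (hd.mono_left ?_) rfl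
  rintro _ ⟨x, rfl, rfl⟩
  exact ⟨l, hl, h2.symm⟩

theorem Ready.diff_sw (h : Ready F C e u π) (hu : IsCond F u) (hs : Sw F u Γ u')
    (hd : Disjoint (keys (π.G0 ∪ π.G1)) (keys (Γ \ u.T))) : π.G0 \ u'.T = π.G0 \ u.T := by
  refine Set.Subset.antisymm (fun l hl => ⟨hl.1, fun hT => hl.2 ?_⟩)
    fun l hl => ⟨hl.1, fun hl' => ?_⟩
  · exact hs.keep (π.G0 ∩ u.T) Set.inter_subset_right (h.cl0.inter hu.closed)
      (hd.mono_left (keys_mono fun x hx => Or.inl hx.1)) ⟨hl.1, hT⟩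
  · obtain ⟨l₀, h1, h2, h3⟩ := h.key hl.1 hl.2
    exact hl.2 (hs.cond.fn l₀ (hs.keep_one hd (Or.inl hl.1) h1 h2 h3) l hl' h2 ▸ h1)

theorem Ready.sw (h : Ready F C e u π) (hu : IsCond F u) (hs : Sw F u Γ u')
    (hd : Disjoint (keys (π.G0 ∪ π.G1)) (keys (Γ \ u.T))) : Ready F C e u' π := by
  have hq := h.diff_sw hu hs hd
  refine ⟨h.fin0, h.fin1, hs.keep _ h.sub h.cl1 (hd.mono_left (keys_mono Set.subset_union_right)),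
    hs.Md ▸ h.cl0, hs.Md ▸ h.cl1, h.en0, h.en1, h.fn, fun l hl hl' => ?_⟩
  rcases h.new l hl (hq.le ⟨hl, hl'⟩).2 with ⟨y, b₀, b₁, c, rfl, a2, a3⟩ |
    ⟨m, hm, H, a1, ⟨b, a2⟩, a3, a4, H', a5, a6⟩
  · exact Or.inl ⟨y, b₀, b₁, c, rfl, a2,
      hs.keep_one hd (Or.inl hl) a3 rfl fun _ => not_says_col⟩
  · refine Or.inr ⟨m, hs.Md ▸ hm, H, a1,
      ⟨b, hs.keep_one hd (Or.inl hl) a2 rfl fun _ => not_says_neg⟩, a3, a4, H', a5,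
      fun z a h1 h2 => (a6 z a h1 h2).imp_right ?_⟩
    rintro ⟨l', b1, b2, b3⟩
    exact ⟨l', b1, (hq.ge ⟨b1, b2⟩).2, b3⟩

end Pool.Agent.MP_6072c5_lc.U71
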